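import Pool.Agent.H976R3.Kiss.GV

/-!
# Exponentially large codes with the rigidity property
-/

set_option autoImplicit false

namespace Pool.Agent.H976R3.Kiss

section tail

variable {α : Type*} [Fintype α] [DecidableEq α]

/-- The support of a word. -/
def supp (c : α → ZMod 2) : Finset α := Finset.univ.filter fun i => c i ≠ 0

theorem wt_add (c d : α → ZMod 2) :
    wt (c + d) + 2 * (Finset.univ.filter fun i => c i ≠ 0 ∧ d i ≠ 0).card = wt c + wt d := by
  unfold wt
  simp only [Finset.card_filter, Finset.mul_sum, ← Finset.sum_add_distrib]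
  refine Finset.sum_congr rfl fun i _ => ?_
  rcases zmod2_cases (c i) with h | h <;> rcases zmod2_cases (d i) with h' | h' <;>
  simp [h, h', zmod2_add_self]

theorem wt_one : wt (1 : α → ZMod 2) = Fintype.card α := by
  unfold wt
  rw [Finset.filter_true_of_mem (fun x _ => by simp), Finset.card_univ]

theorem wt_add_one (c : α → ZMod 2) : wt (c + 1) + wt c = Fintype.card α := by
  have h1 := wt_add c 1
  have h2 : (Finset.univ.filter fun i => c i ≠ 0 ∧ (1 : α → ZMod 2) i ≠ 0).card = wt c := by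
    unfold wt; simp
  rw [h2, wt_one] at h1
  omega

theorem exp_bound (n A B : ℝ) (hn : 0 < n) (hA1 : n ≤ 4 * A) (hA2 : 4 * A ≤ 3 * n)
    (hB1 : n ≤ 4 * B) (hB2 : 4 * B ≤ 3 * n) :
    (Real.exp (1 / 18) - 1) * (B / n) * A - (1 / 36) * (A + B - n / 4) ≤ - n / 576 := by
  have h1 : Real.exp (1 / 18) - 1 ≤ 1 / 18 + 1 / 324 := by
    have := Real.abs_exp_sub_one_sub_id_le (x := 1 / 18) (by rw [abs_of_pos] <;> norm_num)
    have := (abs_le.mp this).2
    norm_num at this ⊢
    linarith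
  have hA : 0 ≤ A := by linarith
  have hB : 0 ≤ B := by linarith
  have h2 : (Real.exp (1 / 18) - 1) * (B / n) * A ≤ (1 / 18 + 1 / 324) * (B / n) * A := by
    have : 0 ≤ (B / n) * A := by positivity
    nlinarith
  have h3 : (1 / 18 + 1 / 324) * (B / n) * A - (1 / 36) * (A + B - n / 4) ≤ - n / 576 := by
    rw [← sub_nonpos]
    have h4 : (1 / 18 + 1 / 324) * (B / n) * A - (1 / 36) * (A + B - n / 4) - - n / 576 =
        ((1 / 18 + 1 / 324) * B * A - (1 / 36) * (A + B - n / 4) * n + n * n / 576) / n := by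
      field_simp
      ring
    rw [h4]
    apply div_nonpos_of_nonpos_of_nonneg _ hn.le
    nlinarith [mul_nonneg (sub_nonneg.mpr hA2) (sub_nonneg.mpr hB1),
      mul_nonneg (sub_nonneg.mpr hA1) (sub_nonneg.mpr hB2),
      mul_nonneg (sub_nonneg.mpr hA2) (sub_nonneg.mpr hB2),
      mul_nonneg (sub_nonneg.mpr hA1) (sub_nonneg.mpr hB1), mul_nonneg hA hB,
      mul_nonneg hA (sub_nonneg.mpr hB2), mul_nonneg hB (sub_nonneg.mpr hA2)]
  linarith

theorem tail [Nonempty α] (c u : α → ZMod 2) (hc1 : Fintype.card α ≤ 4 * wt c)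
    (hc2 : 4 * wt c ≤ 3 * Fintype.card α) (hu1 : Fintype.card α ≤ 4 * wt u)
    (hu2 : 4 * wt u ≤ 3 * Fintype.card α) :
    ((Finset.univ.filter fun π : Equiv.Perm α => 4 * wt (c + u ∘ π) < Fintype.card α).card : ℝ) ≤
      (Fintype.card α).factorial * Real.exp (-(Fintype.card α : ℝ) / 576) := by
  set n : ℝ := (Fintype.card α : ℝ) with hnd
  have hn : 0 < n := by rw [hnd]; exact_mod_cast Fintype.card_pos
  set A : Finset α := supp c with hA
  set B : Finset α := supp u with hB
  have hAc : (A.card : ℝ) = wt c := rfl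
  have hBc : (B.card : ℝ) = wt u := rfl
  set y : ℝ := Real.exp (1 / 18) with hy
  have hy1 : 1 ≤ y := by
    rw [hy]; exact Real.one_le_exp (by norm_num)
  have h1 := mgf A B y hy1
  set T : ℝ := (1 / 36) * ((wt c : ℝ) + wt u - n / 4) with hT
  have h2 : ((Finset.univ.filter fun π : Equiv.Perm α => 4 * wt (c + u ∘ π) <
      Fintype.card α).card : ℝ) * Real.exp T ≤
      ∑ π : Equiv.Perm α, y ^ (A.filter fun i => π i ∈ B).card := by
    rw [← nsmul_eq_mul, ← Finset.sum_const]
    refine (Finset.sum_le_sum (g := fun π : Equiv.Perm α => y ^ (A.filter fun i => π i ∈ B).card)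
      fun π hπ => ?_).trans (Finset.sum_le_sum_of_subset_of_nonneg (Finset.filter_subset _ _)
      fun π _ _ => by positivity)
    simp only [Finset.mem_filter, Finset.mem_univ, true_and] at hπ
    have h3 := wt_add c (u ∘ π)
    rw [wt_comp π u] at h3
    have h4 : (Finset.univ.filter fun i => c i ≠ 0 ∧ (u ∘ π) i ≠ 0) =
        A.filter fun i => π i ∈ B := by
      ext i; simp [hA, hB, supp]
    rw [h4] at h3
    rw [hy, ← Real.exp_nat_mul]
    apply Real.exp_le_exp.mpr
    have h5 : 4 * (wt c + wt u) < Fintype.card α + 8 * (A.filter fun i => π i ∈ B).card := by omega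
    have h6 : (4 : ℝ) * (wt c + wt u) < n + 8 * ((A.filter fun i => π i ∈ B).card : ℝ) := by
      rw [hnd]; exact_mod_cast h5
    rw [hT]
    linarith
  have h3 : (1 + (y - 1) * (B.card / n)) ^ A.card ≤ Real.exp ((y - 1) * (wt u / n) * wt c) := by
    have h4 : 0 ≤ (y - 1) * ((B.card : ℝ) / n) := by
      have : 0 ≤ y - 1 := by linarith
      positivity
    calc (1 + (y - 1) * (B.card / n)) ^ A.card ≤ (Real.exp ((y - 1) * (B.card / n))) ^ A.card := by
          refine pow_le_pow_left₀ (by linarith) ?_ _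
          rw [add_comm]
          exact Real.add_one_le_exp _
      _ = Real.exp ((y - 1) * (wt u / n) * wt c) := by
          rw [← Real.exp_nat_mul, hAc, hBc]
          congr 1; ring
  have h4 := exp_bound n (wt c) (wt u) hn (by rw [hnd]; exact_mod_cast hc1)
    (by rw [hnd]; exact_mod_cast hc2) (by rw [hnd]; exact_mod_cast hu1)
    (by rw [hnd]; exact_mod_cast hu2)
  have hfac : (0 : ℝ) ≤ (Fintype.card α).factorial := by positivity
  have h5 : ((Finset.univ.filter fun π : Equiv.Perm α => 4 * wt (c + u ∘ π) <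
      Fintype.card α).card : ℝ) * Real.exp T ≤
      (Fintype.card α).factorial * Real.exp ((y - 1) * (wt u / n) * wt c) :=
    h2.trans (h1.trans (mul_le_mul_of_nonneg_left h3 hfac))
  have h6 : ((Finset.univ.filter fun π : Equiv.Perm α => 4 * wt (c + u ∘ π) <
      Fintype.card α).card : ℝ) ≤
      (Fintype.card α).factorial * Real.exp ((y - 1) * (wt u / n) * wt c) / Real.exp T := by
    rw [le_div_iff₀ (Real.exp_pos _)]
    exact h5
  refine h6.trans ?_
  rw [mul_div_assoc, ← Real.exp_sub]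
  refine mul_le_mul_of_nonneg_left (Real.exp_le_exp.mpr ?_) hfac
  rw [hT, hy]
  exact h4

end tail

section extend

variable {m : ℕ}

/-- The properties kept in the construction. -/
def Nice (C : Submodule (ZMod 2) (Pt m → ZMod 2)) : Prop :=
  (1 : Pt m → ZMod 2) ∈ C ∧ (∀ c ∈ C, c ≠ 0 → 2 ^ m ≤ 4 * wt c) ∧ RigC C

theorem one_mem_RM2 : (1 : Pt m → ZMod 2) ∈ RM2 m := by
  refine ⟨(1, 0), ?_⟩
  ext x
  rw [qmap_apply]
  simp

theorem nice_RM2 (hm : 3 ≤ m) : Nice (RM2 m) :=
  ⟨one_mem_RM2, fun c hc h => wt_RM2 c hc h, rigC_RM2 hm⟩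

theorem Nice.upper {C : Submodule (ZMod 2) (Pt m → ZMod 2)} (hC : Nice C) (c : Pt m → ZMod 2)
    (hc : c ∈ C) (h : c ≠ 1) : 4 * wt c ≤ 3 * 2 ^ m := by
  have h1 := hC.2.1 (c + 1) (C.add_mem hc hC.1) (by
    intro h0
    apply h
    have := word_add_add c 1
    rw [h0, zero_add] at this
    exact this.symm)
  have h2 := wt_add_one c
  rw [card_pt] at h2
  omega

theorem extend (hm : 3 ≤ m) (C : Submodule (ZMod 2) (Pt m → ZMod 2)) (hC : Nice C)
    (hsmall : (Nat.card C : ℝ) * Nat.card (RM2 m) * Real.exp (-(2 ^ m : ℝ) / 576) < 1) :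
    ∃ C', C < C' ∧ Nice C' := by
  classical
  have hU := nice_RM2 hm
  set U := RM2 m with hUd
  -- a good permutation
  obtain ⟨π, hπ⟩ : ∃ π : Equiv.Perm (Pt m), ∀ c ∈ C, c ≠ 0 → c ≠ 1 → ∀ u ∈ U, u ≠ 0 → u ≠ 1 →
      2 ^ m ≤ 4 * wt (c + u ∘ π) := by
    by_contra hcon
    push Not at hcon
    set f : C × U → Finset (Equiv.Perm (Pt m)) := fun p =>
      if (p.1 : Pt m → ZMod 2) ≠ 0 ∧ (p.1 : Pt m → ZMod 2) ≠ 1 ∧ (p.2 : Pt m → ZMod 2) ≠ 0 ∧
        (p.2 : Pt m → ZMod 2) ≠ 1 then
        Finset.univ.filter fun π : Equiv.Perm (Pt m) =>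
          4 * wt ((p.1 : Pt m → ZMod 2) + (p.2 : Pt m → ZMod 2) ∘ π) < Fintype.card (Pt m)
      else ∅ with hf
    have hcover : (Finset.univ : Finset (Equiv.Perm (Pt m))) ⊆ Finset.univ.biUnion f := by
      intro π _
      obtain ⟨c, hc, hc0, hc1, u, hu, hu0, hu1, hlt⟩ := hcon π
      rw [Finset.mem_biUnion]
      refine ⟨(⟨c, hc⟩, ⟨u, hu⟩), Finset.mem_univ _, ?_⟩
      simp only [hf]
      rw [if_pos ⟨hc0, hc1, hu0, hu1⟩, Finset.mem_filter]
      exact ⟨Finset.mem_univ _, by rw [card_pt]; exact hlt⟩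
    have hcard := (Finset.card_le_card hcover).trans Finset.card_biUnion_le
    rw [Finset.card_univ, Fintype.card_perm] at hcard
    have hb : ∀ p, ((f p).card : ℝ) ≤ (Fintype.card (Pt m)).factorial *
        Real.exp (-(2 ^ m : ℝ) / 576) := by
      intro p
      simp only [hf]
      split_ifs with h
      · have h1 := tail (p.1 : Pt m → ZMod 2) (p.2 : Pt m → ZMod 2)
          (by rw [card_pt]; exact hC.2.1 _ p.1.2 h.1)
          (by rw [card_pt]; exact hC.upper _ p.1.2 h.2.1)
          (by rw [card_pt]; exact hU.2.1 _ p.2.2 h.2.2.1)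
          (by rw [card_pt]; exact hU.upper _ p.2.2 h.2.2.2)
        have h2 : (Fintype.card (Pt m) : ℝ) = 2 ^ m := by rw [card_pt]; simp
        rw [h2] at h1
        exact h1
      · simp only [Finset.card_empty, Nat.cast_zero]
        positivity
    have hcard' : ((Fintype.card (Pt m)).factorial : ℝ) ≤ ∑ p, ((f p).card : ℝ) := by
      exact_mod_cast hcard
    have h3 : ∑ p, ((f p).card : ℝ) ≤ ∑ _p : C × U, ((Fintype.card (Pt m)).factorial : ℝ) *
        Real.exp (-(2 ^ m : ℝ) / 576) := Finset.sum_le_sum fun p _ => hb p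
    rw [Finset.sum_const, Finset.card_univ, Fintype.card_prod, nsmul_eq_mul,
      ← Nat.card_eq_fintype_card, ← Nat.card_eq_fintype_card] at h3
    have hfac : (0 : ℝ) < ((Fintype.card (Pt m)).factorial : ℝ) := by positivity
    have h4 := hcard'.trans h3
    push_cast at h4
    have h5 : ((Fintype.card (Pt m)).factorial : ℝ) * ((Nat.card C : ℝ) * Nat.card U *
        Real.exp (-(2 ^ m : ℝ) / 576)) < (Fintype.card (Pt m)).factorial * 1 :=
      mul_lt_mul_of_pos_left hsmall hfac
    linarith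
  refine ⟨C ⊔ pull π U, ?_, Submodule.mem_sup_left hC.1, ?_, hC.2.2.sup (hU.2.2.pull π)⟩
  · refine lt_of_le_of_ne le_sup_left ?_
    intro heq
    obtain ⟨a, ha, -⟩ := exists_outside hm 0 0
    obtain ⟨b, hb, -, hba, -⟩ := exists_outside hm 0 a
    have hw := wt_fl ha hb (Ne.symm hba) 0 0
    set u := fl a 0 b 0 with hu
    have huU : u ∈ U := fl_mem _ _ _ _
    have hpow : 0 < 2 ^ m := by positivity
    have hu0 : u ≠ 0 := by
      intro h
      rw [h] at hw
      have : wt (0 : Pt m → ZMod 2) = 0 := by simp [wt]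
      omega
    have hu1 : u ≠ 1 := by
      intro h
      rw [h, wt_one, card_pt] at hw
      omega
    have h1 : u ∘ π ∈ C := by
      rw [heq]
      exact Submodule.mem_sup_right ((mem_pull _ _ _).mpr ⟨u, huU, rfl⟩)
    have h2 : u ∘ π ≠ 0 := by
      intro h
      apply hu0
      ext x
      have := congrFun h (π.symm x)
      simpa using this
    have h3 : u ∘ π ≠ 1 := by
      intro h
      apply hu1
      ext x
      have := congrFun h (π.symm x)
      simpa using this
    have h4 := hπ (u ∘ π) h1 h2 h3 u huU hu0 hu1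
    rw [word_add_self] at h4
    have : wt (0 : Pt m → ZMod 2) = 0 := by simp [wt]
    omega
  · intro c hc hne
    obtain ⟨a, ha, b, hb, rfl⟩ := Submodule.mem_sup.mp hc
    obtain ⟨u, hu, rfl⟩ := (mem_pull _ _ _).mp hb
    by_cases hu0 : u = 0
    · subst hu0
      have h1 : a + (0 : Pt m → ZMod 2) ∘ π = a := by ext x; simp
      rw [h1] at hne ⊢
      exact hC.2.1 a ha hne
    by_cases hu1 : u = 1
    · subst hu1
      have h1 : (1 : Pt m → ZMod 2) ∘ π = 1 := by ext x; simp
      rw [h1] at hne ⊢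
      exact hC.2.1 _ (C.add_mem ha hC.1) hne
    by_cases ha0 : a = 0
    · subst ha0
      rw [zero_add, wt_comp]
      exact hU.2.1 u hu hu0
    by_cases ha1 : a = 1
    · subst ha1
      have h1 : (1 : Pt m → ZMod 2) + u ∘ π = (u + 1) ∘ π := by ext x; simp [add_comm]
      rw [h1, wt_comp]
      refine hU.2.1 _ (U.add_mem hu hU.1) ?_
      intro h0
      apply hu1
      have := word_add_add u 1
      rw [h0, zero_add] at this
      exact this.symm
    exact hπ a ha ha0 ha1 u hu hu0 hu1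

theorem card_RM2 : Nat.card (RM2 m) ≤ 2 ^ (1 + m * m) := by
  have h1 : Nat.card (RM2 m) ≤ Nat.card (ZMod 2 × (Fin m → Fin m → ZMod 2)) := by
    refine Nat.card_le_card_of_surjective
      (fun p => (⟨qmap m p, ⟨p, rfl⟩⟩ : RM2 m)) ?_
    rintro ⟨_, ⟨p, rfl⟩⟩
    exact ⟨p, rfl⟩
  refine h1.trans (le_of_eq ?_)
  rw [Nat.card_eq_fintype_card]
  simp only [Fintype.card_prod, Fintype.card_pi, ZMod.card, Finset.prod_const, Finset.card_univ,
    Fintype.card_fin]
  rw [pow_add, pow_one, pow_mul]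

theorem exists_big (hm : 3 ≤ m) : ∃ C : Submodule (ZMod 2) (Pt m → ZMod 2), Nice C ∧
    Real.exp ((2 ^ m : ℝ) / 576) ≤ (Nat.card C : ℝ) * Nat.card (RM2 m) := by
  classical
  have hfin : Finite (Submodule (ZMod 2) (Pt m → ZMod 2)) :=
    Finite.of_injective (fun C => (C : Set (Pt m → ZMod 2))) SetLike.coe_injective
  obtain ⟨C, hC, hmax⟩ := Set.Finite.exists_maximalFor
    (fun C : Submodule (ZMod 2) (Pt m → ZMod 2) => Nat.card C)
    {C : Submodule (ZMod 2) (Pt m → ZMod 2) | Nice C} (Set.toFinite _) ⟨_, nice_RM2 hm⟩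
  refine ⟨C, hC, ?_⟩
  by_contra hlt
  push Not at hlt
  obtain ⟨C', hCC', hC'⟩ := extend hm C hC (by
    rw [neg_div, Real.exp_neg, ← div_eq_mul_inv, div_lt_one (Real.exp_pos _)]
    exact hlt)
  have h1 : Nat.card C < Nat.card C' := by
    have : (C : Set (Pt m → ZMod 2)) ⊂ (C' : Set (Pt m → ZMod 2)) := hCC'
    exact Set.ncard_lt_ncard this (Set.toFinite _)
  have h2 := hmax hC' h1.le
  exact absurd h2 (not_le.mpr h1)

end extend

end Pool.Agent.H976R3.Kiss
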