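import Pool.Agent.H976R3.Kiss.Share

/-!
# Sums of randomly permuted Reed-Muller codes sharing flats
-/

set_option autoImplicit false

namespace Pool.Agent.H976R3.Kiss

section stress

/-- The stress property: every real vector of sum zero is the resultant of nonnegative weights on
words of weight a quarter of the length. -/
def Str {α : Type*} [Fintype α] (C : Submodule (ZMod 2) (α → ZMod 2)) : Prop :=
  ∀ h : α → ℝ, ∑ i, h i = 0 → ∃ (κ : Type) (_ : Fintype κ) (ω : κ → ℝ) (W : κ → α → ZMod 2),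
    (∀ k, 0 ≤ ω k) ∧ (∀ k, W k ∈ C ∧ 4 * wt (W k) = Fintype.card α) ∧
    ∀ i, ∑ k, ω k * (sg (W k i) - 1 / 2) = h i

theorem Str.mono {α : Type*} [Fintype α] {C D : Submodule (ZMod 2) (α → ZMod 2)} (hC : Str C)
    (h : C ≤ D) : Str D := by
  intro f hf
  obtain ⟨κ, hκ, ω, W, h1, h2, h3⟩ := hC f hf
  exact ⟨κ, hκ, ω, W, h1, fun k => ⟨h (h2 k).1, (h2 k).2⟩, h3⟩

theorem Str.pull {α β : Type*} [Fintype α] [Fintype β] {C : Submodule (ZMod 2) (β → ZMod 2)}
    (hC : Str C) (e : α ≃ β) : Str (pull e C) := by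
  intro f hf
  obtain ⟨κ, hκ, ω, W, h1, h2, h3⟩ := hC (f ∘ e.symm) (by
    rw [← hf, ← Equiv.sum_comp e]; simp)
  refine ⟨κ, hκ, ω, fun k => W k ∘ e, h1, fun k => ⟨(mem_pull _ _ _).mpr ⟨_, (h2 k).1, rfl⟩, ?_⟩,
    fun i => ?_⟩
  · rw [wt_comp, (h2 k).2, Fintype.card_congr e]
  · have := h3 (e i)
    simpa using this

theorem str_RM2 {m : ℕ} (hm : 3 ≤ m) : Str (RM2 m) := by
  classical
  intro h hh
  obtain ⟨a₁, ha₁, -⟩ := exists_outside hm 0 0
  have hb : ∀ a : Pt m, ∃ b : Pt m, b ≠ 0 ∧ b ≠ a := fun a => by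
    obtain ⟨b, hb, hb', -⟩ := exists_outside hm a 0
    exact ⟨b, hb, hb'⟩
  choose b hb0 hba using hb
  set a' : Pt m → Pt m := fun a => if a = 0 then a₁ else a with ha'
  have ha'0 : ∀ a, a' a ≠ 0 := by
    intro a
    simp only [ha']
    split_ifs with h1
    · exact ha₁
    · exact h1
  set ε : Pt m → ZMod 2 := fun a => if 0 ≤ ft h a then 0 else 1 with hε
  set N : ℝ := (Fintype.card (Fin m → ZMod 2) : ℝ) with hN
  have hNpos : 0 < N := by rw [hN]; exact_mod_cast Fintype.card_pos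
  refine ⟨Pt m × ZMod 2, inferInstance, fun k => |ft h k.1| / N,
    fun k => fl (a' k.1) (ε k.1) (b (a' k.1)) k.2, fun k => by positivity,
    fun k => ⟨fl_mem _ _ _ _, ?_⟩, fun x => ?_⟩
  · rw [card_pt]
    exact wt_fl (ha'0 _) (hb0 _) (Ne.symm (hba _)) _ _
  · rw [Fintype.sum_prod_type]
    have h1 : ∀ a : Pt m, ∑ δ : ZMod 2, |ft h a| / N *
        (sg (fl (a' a) (ε a) (b (a' a)) δ x) - 1 / 2) = ft h a / N * sg (a ⬝ᵥ x) := by
      intro a
      have h2 : ∀ a₂ b₂ : Pt m, ∀ e, ∑ δ : ZMod 2, (sg (fl a₂ e b₂ δ x) - 1 / 2) =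
          sg e * sg (a₂ ⬝ᵥ x) := by
        intro a₂ b₂ e
        have h3 : ∑ δ : ZMod 2, (sg (fl a₂ e b₂ δ x) - 1 / 2) =
            (sg (fl a₂ e b₂ 0 x) - 1 / 2) + (sg (fl a₂ e b₂ 1 x) - 1 / 2) := Fin.sum_univ_two _
        rw [h3]
        unfold fl
        rcases zmod2_cases (a₂ ⬝ᵥ x) with h1 | h1 <;> rcases zmod2_cases (b₂ ⬝ᵥ x) with h2 | h2 <;>
        rcases zmod2_cases e with h3 | h3 <;> rw [h1, h2, h3] <;>
        simp [sg_zero, sg_one, zmod2_add_self] <;> norm_num
      rw [← Finset.mul_sum, h2]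
      by_cases ha0 : a = 0
      · subst ha0
        rw [ft_zero, hh]; simp
      · have h3 : a' a = a := by simp only [ha']; rw [if_neg ha0]
        rw [h3]
        simp only [hε]
        split_ifs with h4
        · rw [abs_of_nonneg h4, sg_zero]; ring
        · rw [abs_of_neg (not_le.mp h4), sg_one]; ring
    rw [Finset.sum_congr rfl fun a _ => h1 a]
    have h2 := inversion h x
    have h3 : ∀ s : Pt m, sg (s ⬝ᵥ x) * ∑ d : Pt m, sg (s ⬝ᵥ d) * h d = sg (s ⬝ᵥ x) * ft h s :=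
      fun s => rfl
    rw [Finset.sum_congr rfl fun s _ => h3 s] at h2
    have h4 : ∑ a, ft h a / N * sg (a ⬝ᵥ x) = (∑ a : Pt m, sg (a ⬝ᵥ x) * ft h a) / N := by
      rw [Finset.sum_div]
      refine Finset.sum_congr rfl fun a _ => ?_
      ring
    rw [h4, h2, ← hN]
    field_simp

end stress

section base

variable {k : ℕ}

/-- The first special point. -/
def e1 (k : ℕ) : Pt (k + 3) := Pi.single 0 1

/-- The second special point. -/
def e2 (k : ℕ) : Pt (k + 3) := Pi.single 1 1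

/-- The words of the Reed-Muller code with equal values at three points. -/
def D0 (k : ℕ) : Submodule (ZMod 2) (Pt (k + 3) → ZMod 2) where
  carrier := {u | u ∈ RM2 (k + 3) ∧ u 0 = u (e1 k) ∧ u 0 = u (e2 k)}
  add_mem' := by
    rintro a b ⟨h1, h2, h3⟩ ⟨k1, k2, k3⟩
    exact ⟨Submodule.add_mem _ h1 k1, by simp only [Pi.add_apply]; rw [h2, k2],
      by simp only [Pi.add_apply]; rw [h3, k3]⟩
  zero_mem' := ⟨Submodule.zero_mem _, rfl, rfl⟩
  smul_mem' := by
    rintro r a ⟨h1, h2, h3⟩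
    exact ⟨Submodule.smul_mem _ r h1, by simp only [Pi.smul_apply]; rw [h2],
      by simp only [Pi.smul_apply]; rw [h3]⟩

theorem mem_D0 (u : Pt (k + 3) → ZMod 2) :
    u ∈ D0 k ↔ u ∈ RM2 (k + 3) ∧ u 0 = u (e1 k) ∧ u 0 = u (e2 k) := Iff.rfl

/-- The additional word. -/
def gw (k : ℕ) : Pt (k + 3) → ZMod 2 := fl (Pi.single 1 1) 0 (Pi.single 2 1) 1

theorem gw_mem : gw k ∈ RM2 (k + 3) := fl_mem _ _ _ _

theorem gw_zero : gw k 0 = 0 := by simp [gw, fl]

theorem gw_e1 : gw k (e1 k) = 0 := by simp [gw, fl, e1]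

theorem fin_val_one : ((1 : Fin (k + 3)) : ℕ) = 1 :=
  Nat.mod_eq_of_lt (show 1 < k + 3 by omega)

theorem fin_val_two : ((2 : Fin (k + 3)) : ℕ) = 2 :=
  Nat.mod_eq_of_lt (show 2 < k + 3 by omega)

theorem two_ne_one' : (2 : Fin (k + 3)) ≠ 1 := by
  intro h
  have := congrArg Fin.val h
  rw [fin_val_one, fin_val_two] at this
  omega

theorem gw_e2 : gw k (e2 k) = 1 := by
  have h := two_ne_one' (k := k)
  simp [gw, fl, e2, h]

/-- The properties kept in the construction. -/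
def Inv (C : Submodule (ZMod 2) (Pt (k + 3) → ZMod 2)) : Prop :=
  D0 k ≤ C ∧ (∀ x ∈ C, x ≠ 0 → 2 ^ (k + 3) ≤ 4 * wt x) ∧
    (∀ x ∈ C, 2 ^ (k + 3) ≤ 4 * wt (x + gw k)) ∧
    (∀ x ∈ C, 4 * wt (x + gw k) = 2 ^ (k + 3) → (x + gw k) 0 = (x + gw k) (e1 k))

theorem one_mem_D0 : (1 : Pt (k + 3) → ZMod 2) ∈ D0 k := ⟨one_mem_RM2, rfl, rfl⟩

theorem inv_D0 : Inv (D0 k) := by
  refine ⟨le_refl _, fun x hx h0 => wt_RM2 x hx.1 h0, fun x hx => ?_, fun x hx _ => ?_⟩
  · refine wt_RM2 _ (Submodule.add_mem _ hx.1 gw_mem) ?_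
    intro h0
    have h1 := congrFun h0 0
    have h2 := congrFun h0 (e2 k)
    simp only [Pi.add_apply, Pi.zero_apply, gw_zero, gw_e2, add_zero] at h1 h2
    rw [← hx.2.2, h1, zero_add] at h2
    exact one_ne_zero h2
  · simp only [Pi.add_apply]
    rw [gw_zero, gw_e1, hx.2.1]

end base

section step

variable {k : ℕ}

/-- The trivial words with respect to `c`. -/
def Triv {α : Type*} (c y : α → ZMod 2) : Prop := y = 0 ∨ y = 1 ∨ y = c ∨ y = c + 1

theorem triv_comp {α : Type*} {c y : α → ZMod 2} (π : Equiv.Perm α) (hc : c ∘ π = c)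
    (h : Triv c y) : y ∘ π = y := by
  rcases h with rfl | rfl | rfl | rfl
  · rfl
  · rfl
  · exact hc
  · ext x
    have := congrFun hc x
    simp only [Function.comp_apply, Pi.add_apply, Pi.one_apply] at this ⊢
    rw [this]

theorem eq_of_add_eq_zero' {α : Type*} {a b : α → ZMod 2} (h : a + b = 0) : a = b := by
  have := word_add_add' a b
  rw [h, zero_add] at this
  exact this.symm
where
  word_add_add' (c w : α → ZMod 2) : c + w + w = c := by
    ext i; simp [add_assoc, zmod2_add_self]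

theorem mid_of {m : ℕ} (c y : Pt m → ZMod 2) (h : ¬ Triv c y)
    (hmin : ∀ x, (x = y ∨ x = y + 1 ∨ x = y + c ∨ x = y + c + 1) → x ≠ 0 → 2 ^ m ≤ 4 * wt x) :
    Mid c y := by
  unfold Triv at h
  push Not at h
  obtain ⟨h0, h1, h2, h3⟩ := h
  have k1 := hmin y (Or.inl rfl) h0
  have k2 := hmin (y + 1) (Or.inr (Or.inl rfl)) (fun h4 => h1 (eq_of_add_eq_zero' h4))
  have k3 := hmin (y + c) (Or.inr (Or.inr (Or.inl rfl))) (fun h4 => h2 (eq_of_add_eq_zero' h4))
  have k4 := hmin (y + c + 1) (Or.inr (Or.inr (Or.inr rfl)))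
    (fun h4 => h3 (eq_of_add_eq_zero' (by rw [← add_assoc]; exact h4)))
  have w1 := wt_add_one y
  have w2 := wt_add_one (y + c)
  rw [card_pt] at w1 w2
  unfold Mid
  rw [card_pt]
  omega

theorem step (C : Submodule (ZMod 2) (Pt (k + 3) → ZMod 2)) (hC : Inv C)
    (c : Pt (k + 3) → ZMod 2) (hc : c ∈ D0 k) (hcw : 4 * wt c = 2 ^ (k + 3))
    (hsmall : (2 * Nat.card C : ℝ) * Nat.card (RM2 (k + 3)) *
      Real.exp (-(2 ^ (k + 3) : ℝ) / 2304) < 1) :
    ∃ π : Equiv.Perm (Pt (k + 3)), c ∘ π = c ∧ Inv (C ⊔ pull π (RM2 (k + 3))) := by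
  classical
  obtain ⟨hD, hmin, hming, hspl⟩ := hC
  have hcC : c ∈ C := hD hc
  have h1C : (1 : Pt (k + 3) → ZMod 2) ∈ C := hD one_mem_D0
  have hgC : gw k ∉ C := by
    intro h
    have := hming _ h
    rw [word_add_self] at this
    have h0 : wt (0 : Pt (k + 3) → ZMod 2) = 0 := by simp [wt]
    have hp : 0 < 2 ^ (k + 3) := by positivity
    omega
  have hall : ∀ y, (y ∈ C ∨ y + gw k ∈ C) → y ≠ 0 → 2 ^ (k + 3) ≤ 4 * wt y := by
    rintro y (h | h) h0
    · exact hmin y h h0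
    · have := hming _ h
      rwa [word_add_add] at this
  set Y : Finset (Pt (k + 3) → ZMod 2) := Finset.univ.filter fun y =>
    (y ∈ C ∨ y + gw k ∈ C) ∧ ¬ Triv c y with hY
  set V : Finset (Pt (k + 3) → ZMod 2) := Finset.univ.filter fun u =>
    u ∈ RM2 (k + 3) ∧ ¬ Triv c u with hV
  have hYmid : ∀ y ∈ Y, Mid c y := by
    intro y hy
    rw [hY, Finset.mem_filter] at hy
    refine mid_of c y hy.2.2 fun x hx h0 => hall x ?_ h0
    have hsh : ∀ v ∈ C, (y + v ∈ C ∨ y + v + gw k ∈ C) := by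
      intro v hv
      rcases hy.2.1 with h | h
      · exact Or.inl (C.add_mem h hv)
      · right
        have : y + v + gw k = y + gw k + v := by ring
        rw [this]; exact C.add_mem h hv
    rcases hx with rfl | rfl | rfl | rfl
    · exact hy.2.1
    · exact hsh 1 h1C
    · exact hsh c hcC
    · rw [add_assoc]; exact hsh _ (C.add_mem hcC h1C)
  have hVmid : ∀ u ∈ V, Mid c u := by
    intro u hu
    rw [hV, Finset.mem_filter] at hu
    refine mid_of c u hu.2.2 fun x hx h0 => wt_RM2 x ?_ h0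
    rcases hx with rfl | rfl | rfl | rfl
    · exact hu.2.1
    · exact Submodule.add_mem _ hu.2.1 one_mem_RM2
    · exact Submodule.add_mem _ hu.2.1 hc.1
    · exact Submodule.add_mem _ (Submodule.add_mem _ hu.2.1 hc.1) one_mem_RM2
  have hVcard : V.card ≤ Nat.card (RM2 (k + 3)) := by
    rw [← Set.ncard_coe_finset]
    refine Set.ncard_le_ncard (t := (RM2 (k + 3) : Set (Pt (k + 3) → ZMod 2))) ?_ (Set.toFinite _)
    intro u hu
    rw [hV, Finset.coe_filter] at hu
    exact hu.2.1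
  have hYcard : Y.card ≤ 2 * Nat.card C := by
    have h1 : (Y : Set (Pt (k + 3) → ZMod 2)) ⊆ (C : Set _) ∪ (fun y => y + gw k) '' (C : Set _) := by
      intro y hy
      rw [hY, Finset.coe_filter] at hy
      rcases hy.2.1 with h | h
      · exact Or.inl h
      · exact Or.inr ⟨_, h, word_add_add _ _⟩
    calc Y.card = (Y : Set _).ncard := (Set.ncard_coe_finset Y).symm
      _ ≤ ((C : Set (Pt (k + 3) → ZMod 2)) ∪ (fun y => y + gw k) '' (C : Set _)).ncard :=
          Set.ncard_le_ncard h1 (Set.toFinite _)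
      _ ≤ (C : Set (Pt (k + 3) → ZMod 2)).ncard + ((fun y => y + gw k) '' (C : Set _)).ncard :=
          Set.ncard_union_le _ _
      _ ≤ (C : Set (Pt (k + 3) → ZMod 2)).ncard + (C : Set (Pt (k + 3) → ZMod 2)).ncard :=
          Nat.add_le_add_left (Set.ncard_image_le (Set.toFinite _)) _
      _ = 2 * Nat.card C := by rw [two_mul]; rfl
  have hsm : (Y.card : ℝ) * V.card * Real.exp (-(Fintype.card (Pt (k + 3)) : ℝ) / 2304) < 1 := by
    refine lt_of_le_of_lt ?_ hsmall
    have h1 : (Fintype.card (Pt (k + 3)) : ℝ) = 2 ^ (k + 3) := by rw [card_pt]; push_cast; ring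
    rw [h1]
    have h2 : (Y.card : ℝ) ≤ 2 * Nat.card C := by exact_mod_cast hYcard
    have h3 : (V.card : ℝ) ≤ Nat.card (RM2 (k + 3)) := by exact_mod_cast hVcard
    gcongr
  obtain ⟨π, hπc, hπ⟩ := exists_perm c (by rw [card_pt]; exact hcw) Y V hYmid hVmid hsm
  rw [card_pt] at hπ
  refine ⟨π, hπc, hD.trans le_sup_left, ?_, ?_, ?_⟩
  · intro x hx hx0
    obtain ⟨y, hy, b, hb, rfl⟩ := Submodule.mem_sup.mp hx
    obtain ⟨u, hu, rfl⟩ := (mem_pull _ _ _).mp hb
    by_cases hu' : Triv c u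
    · have h1 := triv_comp π hπc hu'
      rw [h1] at hx0 ⊢
      refine hmin _ (C.add_mem hy ?_) hx0
      rcases hu' with rfl | rfl | rfl | rfl
      · exact C.zero_mem
      · exact h1C
      · exact hcC
      · exact C.add_mem hcC h1C
    by_cases hy' : Triv c y
    · have h1 := triv_comp π hπc hy'
      have h2 : y + u ∘ π = (y + u) ∘ π := by
        conv_lhs => rw [← h1]
        rfl
      rw [h2, wt_comp]
      refine wt_RM2 _ (Submodule.add_mem _ ?_ hu) ?_
      · rcases hy' with rfl | rfl | rfl | rfl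
        · exact Submodule.zero_mem _
        · exact one_mem_RM2
        · exact hc.1
        · exact Submodule.add_mem _ hc.1 one_mem_RM2
      · intro h0
        apply hx0
        rw [h2, h0]; rfl
    exact (hπ y (Finset.mem_filter.mpr ⟨Finset.mem_univ _, Or.inl hy, hy'⟩) u
      (Finset.mem_filter.mpr ⟨Finset.mem_univ _, hu, hu'⟩)).le
  all_goals
    intro x hx
    obtain ⟨y, hy, b, hb, rfl⟩ := Submodule.mem_sup.mp hx
    obtain ⟨u, hu, rfl⟩ := (mem_pull _ _ _).mp hb
    by_cases hu' : Triv c u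
  · have h1 := triv_comp π hπc hu'
    rw [h1]
    refine hming _ (C.add_mem hy ?_)
    rcases hu' with rfl | rfl | rfl | rfl
    · exact C.zero_mem
    · exact h1C
    · exact hcC
    · exact C.add_mem hcC h1C
  · have h2 : y + u ∘ π + gw k = (y + gw k) + u ∘ π := by ring
    rw [h2]
    refine (hπ (y + gw k) (Finset.mem_filter.mpr ⟨Finset.mem_univ _, Or.inr ?_, ?_⟩) u
      (Finset.mem_filter.mpr ⟨Finset.mem_univ _, hu, hu'⟩)).le
    · rw [word_add_add]; exact hy
    · intro h3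
      apply hgC
      have h4 : y + gw k ∈ C := by
        rcases h3 with h | h | h | h <;> rw [h]
        · exact C.zero_mem
        · exact h1C
        · exact hcC
        · exact C.add_mem hcC h1C
      have h5 := C.add_mem h4 hy
      have h6 : y + gw k + y = gw k := by rw [add_comm y (gw k), word_add_add]
      rwa [h6] at h5
  · have h1 := triv_comp π hπc hu'
    rw [h1]
    refine hspl _ (C.add_mem hy ?_)
    rcases hu' with rfl | rfl | rfl | rfl
    · exact C.zero_mem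
    · exact h1C
    · exact hcC
    · exact C.add_mem hcC h1C
  · intro hw
    exfalso
    have h2 : y + u ∘ π + gw k = (y + gw k) + u ∘ π := by ring
    rw [h2] at hw
    have h3 := hπ (y + gw k) (Finset.mem_filter.mpr ⟨Finset.mem_univ _, Or.inr (by
      rw [word_add_add]; exact hy), by
      intro h3
      apply hgC
      have h4 : y + gw k ∈ C := by
        rcases h3 with h | h | h | h <;> rw [h]
        · exact C.zero_mem
        · exact h1C
        · exact hcC
        · exact C.add_mem hcC h1C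
      have h5 := C.add_mem h4 hy
      have h6 : y + gw k + y = gw k := by rw [add_comm y (gw k), word_add_add]
      rwa [h6] at h5⟩) u
      (Finset.mem_filter.mpr ⟨Finset.mem_univ _, hu, hu'⟩)
    omega

end step

end Pool.Agent.H976R3.Kiss
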