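import Pool.Agent.H976R3.Kiss.Jam

/-!
# Binary linear codes as spherical codes, and a criterion for first order jamming
-/

set_option autoImplicit false

namespace Pool.Agent.H976R3.Kiss

/-- The sign of an element of the field with two elements. -/
noncomputable def sg (a : ZMod 2) : ℝ := if a = 0 then 1 else -1

theorem sg_zero : sg 0 = 1 := by simp [sg]

theorem sg_one : sg 1 = -1 := by simp [sg]

theorem zmod2_cases (a : ZMod 2) : a = 0 ∨ a = 1 := by
  fin_cases a
  · left; rfl
  · right; rfl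

theorem zmod2_add_self (a : ZMod 2) : a + a = 0 := by
  rcases zmod2_cases a with h | h <;> subst h <;> decide

theorem sg_add (a b : ZMod 2) : sg (a + b) = sg a * sg b := by
  rcases zmod2_cases a with h | h <;> rcases zmod2_cases b with h' | h' <;> subst h <;> subst h'
  · simp [sg]
  · simp [sg]
  · simp [sg]
  · rw [zmod2_add_self, sg_one, sg_zero]; norm_num

theorem sg_mul_self (a : ZMod 2) : sg a * sg a = 1 := by
  rw [← sg_add, zmod2_add_self, sg_zero]

theorem sg_ne_zero (a : ZMod 2) : sg a ≠ 0 := by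
  unfold sg; split_ifs <;> norm_num

section

variable {α : Type*} [Fintype α]

/-- The weight of a word. -/
def wt (c : α → ZMod 2) : ℕ := (Finset.univ.filter fun i => c i ≠ 0).card

theorem word_add_self (c : α → ZMod 2) : c + c = 0 := by
  ext i; simp [zmod2_add_self]

theorem word_add_add (c w : α → ZMod 2) : c + w + w = c := by
  rw [add_assoc, word_add_self, add_zero]

theorem sum_sg (c : α → ZMod 2) : ∑ i, sg (c i) = (Fintype.card α : ℝ) - 2 * wt c := by
  have h1 : ∀ i, sg (c i) = 1 - 2 * (if c i ≠ 0 then (1 : ℝ) else 0) := by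
    intro i; unfold sg; by_cases h : c i = 0 <;> simp [h]; norm_num
  rw [Finset.sum_congr rfl fun i _ => h1 i, Finset.sum_sub_distrib, ← Finset.mul_sum,
    Finset.sum_boole]
  simp [wt]

/-- The unit vector of a word. -/
noncomputable def vec (c : α → ZMod 2) : EuclideanSpace ℝ α :=
  WithLp.toLp 2 fun i => sg (c i) / √(Fintype.card α)

theorem vec_apply (c : α → ZMod 2) (i : α) : vec c i = sg (c i) / √(Fintype.card α) := rfl

theorem inner_vec (c : α → ZMod 2) (y : EuclideanSpace ℝ α) :
    inner ℝ (vec c) y = (∑ i, sg (c i) * y i) / √(Fintype.card α) := by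
  rw [PiLp.inner_apply, Finset.sum_div]
  refine Finset.sum_congr rfl fun i _ => ?_
  simp [vec_apply]
  ring

theorem inner_vec_vec [Nonempty α] (c d : α → ZMod 2) :
    inner ℝ (vec c) (vec d) = ((Fintype.card α : ℝ) - 2 * wt (c + d)) / Fintype.card α := by
  have hn : (0 : ℝ) < Fintype.card α := by exact_mod_cast Fintype.card_pos
  rw [inner_vec, ← sum_sg]
  have h1 : ∀ i, sg (c i) * vec d i = sg ((c + d) i) / √(Fintype.card α) := by
    intro i; rw [vec_apply, Pi.add_apply, sg_add]; ring
  rw [Finset.sum_congr rfl fun i _ => h1 i, ← Finset.sum_div, div_div,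
    Real.mul_self_sqrt hn.le]

theorem norm_vec [Nonempty α] (c : α → ZMod 2) : ‖vec c‖ = 1 := by
  have hn : (0 : ℝ) < Fintype.card α := by exact_mod_cast Fintype.card_pos
  have h1 : inner ℝ (vec c) (vec c) = (1 : ℝ) := by
    rw [inner_vec_vec, word_add_self]
    simp [wt]
  rw [real_inner_self_eq_norm_sq] at h1
  nlinarith [norm_nonneg (vec c)]

/-- A word of weight a quarter of the length, belonging to a partition of the coordinates into four
such words of the code. -/
def Quad (C : Submodule (ZMod 2) (α → ZMod 2)) (w : α → ZMod 2) : Prop :=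
  ∃ W : Fin 4 → α → ZMod 2, (∃ t, W t = w) ∧ (∀ t, W t ∈ C) ∧
    (∀ t, 4 * wt (W t) = Fintype.card α) ∧ ∀ i, ∑ t, sg (W t i) = 2

/-- The rigidity property of codes: for every character, the real vectors of sum zero which are
orthogonal to the quadruple words killed by the character are differences of two
unit vectors that define the character. -/
def RigC (C : Submodule (ZMod 2) (α → ZMod 2)) : Prop :=
  ∀ (s : α → ZMod 2) (z : α → ℝ), ∑ i, z i = 0 →
    (∀ w, Quad C w → s ⬝ᵥ w = 0 → ∑ i, (if w i = 0 then 0 else z i) = 0) →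
    z = 0 ∨ ∃ i j, i ≠ j ∧ z i ≠ 0 ∧ z j = - z i ∧ (∀ k, k ≠ i → k ≠ j → z k = 0) ∧
      ∀ c ∈ C, s ⬝ᵥ c = c i + c j

theorem Quad.mono {C D : Submodule (ZMod 2) (α → ZMod 2)} (h : C ≤ D) {w : α → ZMod 2}
    (hw : Quad C w) : Quad D w := by
  obtain ⟨W, h1, h2, h3, h4⟩ := hw
  exact ⟨W, h1, fun t => h (h2 t), h3, h4⟩

theorem RigC.sup {C D : Submodule (ZMod 2) (α → ZMod 2)} (hC : RigC C) (hD : RigC D) :
    RigC (C ⊔ D) := by
  intro s z hz h
  have h1 := hC s z hz fun w hw hs => h w (hw.mono le_sup_left) hs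
  have h2 := hD s z hz fun w hw hs => h w (hw.mono le_sup_right) hs
  rcases h1 with h1 | ⟨i, j, hij, hzi, hzj, hk, hc⟩
  · exact Or.inl h1
  rcases h2 with h2 | ⟨i', j', hij', hzi', hzj', hk', hc'⟩
  · exact Or.inl h2
  right
  refine ⟨i, j, hij, hzi, hzj, hk, ?_⟩
  have hzj0 : z j ≠ 0 := by rw [hzj]; exact neg_ne_zero.mpr hzi
  have hcase : (i = i' ∧ j = j') ∨ (i = j' ∧ j = i') := by
    by_cases h3 : i = i'
    · left
      refine ⟨h3, ?_⟩
      by_contra h4
      exact hzj0 (hk' j (fun h5 => hij (h3.trans h5.symm)) h4)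
    · have h4 : i = j' := by
        by_contra h4
        exact hzi (hk' i h3 h4)
      right
      refine ⟨h4, ?_⟩
      by_contra h5
      exact hzj0 (hk' j h5 (fun h6 => hij (h4.trans h6.symm)))
  intro c hcm
  obtain ⟨a, ha, b, hb, rfl⟩ := Submodule.mem_sup.mp hcm
  rw [dotProduct_add, hc a ha, hc' b hb, Pi.add_apply, Pi.add_apply]
  rcases hcase with ⟨h3, h4⟩ | ⟨h3, h4⟩
  · rw [h3, h4]; ring
  · rw [h3, h4]; ring

end

section

variable {α β : Type*} [Fintype α] [Fintype β]

theorem wt_comp (e : α ≃ β) (c : β → ZMod 2) : wt (c ∘ e) = wt c := by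
  unfold wt
  refine Finset.card_bij (fun a _ => e a) ?_ ?_ ?_
  · intro a ha; simpa using ha
  · intro a _ b _ hab; exact e.injective hab
  · intro b hb
    exact ⟨e.symm b, by simpa using hb, by simp⟩

/-- The code pulled back along a bijection. -/
def pull (e : α ≃ β) (C : Submodule (ZMod 2) (β → ZMod 2)) : Submodule (ZMod 2) (α → ZMod 2) :=
  C.map (LinearMap.funLeft (ZMod 2) (ZMod 2) e)

theorem mem_pull (e : α ≃ β) (C : Submodule (ZMod 2) (β → ZMod 2)) (c : α → ZMod 2) :
    c ∈ pull e C ↔ ∃ d ∈ C, d ∘ e = c := by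
  unfold pull
  rw [Submodule.mem_map]
  rfl

theorem Quad.pull {e : α ≃ β} {C : Submodule (ZMod 2) (β → ZMod 2)} {w : β → ZMod 2}
    (hw : Quad C w) : Quad (pull e C) (w ∘ e) := by
  obtain ⟨W, ⟨t, ht⟩, h2, h3, h4⟩ := hw
  refine ⟨fun t => W t ∘ e, ⟨t, by subst ht; rfl⟩, fun t => (mem_pull _ _ _).mpr ⟨_, h2 t, rfl⟩,
    fun t => ?_, fun i => h4 (e i)⟩
  rw [wt_comp, h3, Fintype.card_congr e]

theorem RigC.pull {C : Submodule (ZMod 2) (β → ZMod 2)} (hC : RigC C) (e : α ≃ β) :
    RigC (pull e C) := by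
  intro s z hz h
  have hdot : ∀ d : β → ZMod 2, s ⬝ᵥ (d ∘ e) = (s ∘ e.symm) ⬝ᵥ d := by
    intro d
    unfold dotProduct
    rw [← Equiv.sum_comp e]
    simp
  have h1 := hC (s ∘ e.symm) (z ∘ e.symm) (by
      rw [← hz, ← Equiv.sum_comp e]; simp) (fun w hw hs => by
      have := h (w ∘ e) hw.pull (by rw [hdot]; exact hs)
      rw [← Equiv.sum_comp e]
      simpa using this)
  rcases h1 with h1 | ⟨i, j, hij, hzi, hzj, hk, hc⟩
  · left
    ext a
    have := congrFun h1 (e a)
    simpa using this
  · right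
    refine ⟨e.symm i, e.symm j, fun h2 => hij (e.symm.injective h2), hzi, hzj, fun k hki hkj => ?_,
      fun c hcm => ?_⟩
    · have := hk (e k) (fun h2 => hki (by rw [← h2]; simp)) (fun h2 => hkj (by rw [← h2]; simp))
      simpa using this
    · obtain ⟨d, hd, rfl⟩ := (mem_pull _ _ _).mp hcm
      rw [hdot, hc d hd]
      simp

end

section

variable {α : Type*} [Fintype α] [DecidableEq α]

/-- Orthogonality of the characters. -/
theorem sum_char (c : α → ZMod 2) :
    ∑ s : α → ZMod 2, sg (s ⬝ᵥ c) = if c = 0 then (Fintype.card (α → ZMod 2) : ℝ) else 0 := by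
  split_ifs with h
  · subst h
    simp [sg_zero]
  · obtain ⟨i, hi⟩ : ∃ i, c i ≠ 0 := by
      by_contra hcon
      push Not at hcon
      exact h (funext hcon)
    have hci : c i = 1 := (zmod2_cases (c i)).resolve_left hi
    have h1 : ∑ s : α → ZMod 2, sg (s ⬝ᵥ c) =
        ∑ s : α → ZMod 2, sg ((s + Pi.single i (1 : ZMod 2)) ⬝ᵥ c) := by
      symm
      refine Fintype.sum_equiv (Equiv.addRight (Pi.single i (1 : ZMod 2))) _ _ fun s => ?_
      rw [Equiv.coe_addRight]
    have h2 : ∀ s : α → ZMod 2, sg ((s + Pi.single i 1) ⬝ᵥ c) = - sg (s ⬝ᵥ c) := by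
      intro s
      rw [add_dotProduct, sg_add, single_dotProduct, hci, mul_one, sg_one]
      ring
    rw [Finset.sum_congr rfl fun s _ => h2 s, Finset.sum_neg_distrib] at h1
    linarith

/-- Fourier inversion. -/
theorem inversion (f : (α → ZMod 2) → ℝ) (c : α → ZMod 2) :
    ∑ s : α → ZMod 2, sg (s ⬝ᵥ c) * ∑ d : α → ZMod 2, sg (s ⬝ᵥ d) * f d =
      (Fintype.card (α → ZMod 2) : ℝ) * f c := by
  have h1 : ∀ s : α → ZMod 2, sg (s ⬝ᵥ c) * ∑ d : α → ZMod 2, sg (s ⬝ᵥ d) * f d =
      ∑ d : α → ZMod 2, sg (s ⬝ᵥ (c + d)) * f d := by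
    intro s
    rw [Finset.mul_sum]
    refine Finset.sum_congr rfl fun d _ => ?_
    rw [dotProduct_add, sg_add]; ring
  rw [Finset.sum_congr rfl fun s _ => h1 s, Finset.sum_comm]
  have h2 : ∀ d : α → ZMod 2, ∑ s : α → ZMod 2, sg (s ⬝ᵥ (c + d)) * f d =
      if d = c then (Fintype.card (α → ZMod 2) : ℝ) * f d else 0 := by
    intro d
    rw [← Finset.sum_mul, sum_char]
    have h3 : c + d = 0 ↔ d = c := by
      constructor
      · intro h
        have := word_add_add d c
        rw [add_comm d c, h, zero_add] at this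
        exact this.symm
      · rintro rfl; exact word_add_self _
    by_cases h : d = c
    · rw [if_pos (h3.mpr h), if_pos h]
    · rw [if_neg (fun h4 => h (h3.mp h4)), if_neg h, zero_mul]
  rw [Finset.sum_congr rfl fun d _ => h2 d]
  simp

/-- The elementary skew map. -/
noncomputable def skewMap {κ : Type*} [Fintype κ] (a : κ → ℝ) (p q : κ → α) :
    EuclideanSpace ℝ α →L[ℝ] EuclideanSpace ℝ α :=
  ∑ s, a s • ((EuclideanSpace.proj (q s) : EuclideanSpace ℝ α →L[ℝ] ℝ).smulRight
      (EuclideanSpace.single (p s) (1 : ℝ)) -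
    (EuclideanSpace.proj (p s) : EuclideanSpace ℝ α →L[ℝ] ℝ).smulRight
      (EuclideanSpace.single (q s) (1 : ℝ)))

theorem skewMap_eq {κ : Type*} [Fintype κ] (a : κ → ℝ) (p q : κ → α) (y : EuclideanSpace ℝ α) :
    skewMap a p q y = ∑ s, a s • (y (q s) • EuclideanSpace.single (p s) (1 : ℝ) -
      y (p s) • EuclideanSpace.single (q s) (1 : ℝ)) := by
  unfold skewMap
  rw [sum_apply]
  rfl

theorem skewMap_apply {κ : Type*} [Fintype κ] (a : κ → ℝ) (p q : κ → α) (y : EuclideanSpace ℝ α)
    (k : α) : skewMap a p q y k =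
      ∑ s, a s * ((if k = p s then y (q s) else 0) - (if k = q s then y (p s) else 0)) := by
  rw [skewMap_eq, WithLp.ofLp_sum, Finset.sum_apply]
  refine Finset.sum_congr rfl fun s _ => ?_
  simp

theorem skewMap_inner {κ : Type*} [Fintype κ] (a : κ → ℝ) (p q : κ → α)
    (u w : EuclideanSpace ℝ α) : inner ℝ (skewMap a p q u) w =
      ∑ s, a s * (u (q s) * w (p s) - u (p s) * w (q s)) := by
  rw [skewMap_eq, sum_inner]
  refine Finset.sum_congr rfl fun s _ => ?_
  rw [inner_smul_left, inner_sub_left, inner_smul_left, inner_smul_left,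
    EuclideanSpace.inner_single_left, EuclideanSpace.inner_single_left]
  simp

theorem skewMap_skew {κ : Type*} [Fintype κ] (a : κ → ℝ) (p q : κ → α)
    (u w : EuclideanSpace ℝ α) :
    inner ℝ (skewMap a p q u) w = - inner ℝ u (skewMap a p q w) := by
  rw [real_inner_comm (skewMap a p q w) u, skewMap_inner, skewMap_inner, ← Finset.sum_neg_distrib]
  refine Finset.sum_congr rfl fun s _ => ?_
  ring

/-- The code vectors. -/
noncomputable def fam (C : Submodule (ZMod 2) (α → ZMod 2)) (c : C) : EuclideanSpace ℝ α :=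
  vec (c : α → ZMod 2)

theorem infJammed_of_rigC [Nonempty α] (C : Submodule (ZMod 2) (α → ZMod 2)) (hC : RigC C) :
    InfJammed (fam C) (1 / 2) := by
  classical
  have hn : (0 : ℝ) < Fintype.card α := by exact_mod_cast Fintype.card_pos
  have hsn : (0 : ℝ) < √(Fintype.card α) := Real.sqrt_pos.mpr hn
  intro v hv hcon
  -- extension by zero
  set V : (α → ZMod 2) → EuclideanSpace ℝ α := fun c => if h : c ∈ C then v ⟨c, h⟩ else 0 with hV
  have hVC : ∀ c : C, V c = v c := by
    intro c; simp [hV]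
  have hV0 : ∀ c, c ∉ C → V c = 0 := by
    intro c hc; simp [hV, hc]
  have htan : ∀ c, inner ℝ (vec c) (V c) = (0 : ℝ) := by
    intro c
    by_cases h : c ∈ C
    · rw [hVC ⟨c, h⟩]; exact hv ⟨c, h⟩
    · rw [hV0 c h, inner_zero_right]
  -- the coordinates
  set u : (α → ZMod 2) → α → ℝ := fun c i => sg (c i) * V c i with hu
  have hVu : ∀ c i, V c i = sg (c i) * u c i := by
    intro c i
    simp only [hu]
    rw [← mul_assoc, sg_mul_self, one_mul]
  have hu0 : ∀ c, ∑ i, u c i = 0 := by
    intro c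
    have h1 := htan c
    rw [inner_vec, div_eq_zero_iff] at h1
    exact h1.resolve_right hsn.ne'
  have hpair : ∀ (c w : α → ZMod 2), inner ℝ (vec (c + w)) (V c) =
      (∑ i, sg (w i) * u c i) / √(Fintype.card α) := by
    intro c w
    rw [inner_vec]
    congr 1
    refine Finset.sum_congr rfl fun i _ => ?_
    simp only [hu, Pi.add_apply, sg_add]
    ring
  have hsgw : ∀ (w : α → ZMod 2) (f : α → ℝ), ∑ i, f i = 0 →
      ∑ i, sg (w i) * f i = -2 * ∑ i, (if w i = 0 then 0 else f i) := by
    intro w f hf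
    have h1 : ∀ i, sg (w i) * f i = f i + -2 * (if w i = 0 then 0 else f i) := by
      intro i; unfold sg; split_ifs <;> ring
    rw [Finset.sum_congr rfl fun i _ => h1 i, Finset.sum_add_distrib, hf, ← Finset.mul_sum]
    ring
  -- the contact equalities
  have hcontact : ∀ w, Quad C w → ∀ c,
      inner ℝ (vec c) (V (c + w)) + inner ℝ (vec (c + w)) (V c) = (0 : ℝ) := by
    rintro w ⟨W, ⟨t0, rfl⟩, hWC, hWwt, hWsum⟩
    set G : (α → ZMod 2) → Fin 4 → ℝ := fun c t =>
      inner ℝ (vec c) (V (c + W t)) + inner ℝ (vec (c + W t)) (V c) with hG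
    have hle : ∀ c t, G c t ≤ 0 := by
      intro c t
      simp only [hG]
      by_cases h : c ∈ C
      · have h' : c + W t ∈ C := C.add_mem h (hWC t)
        have h1 := hcon ⟨c, h⟩ ⟨c + W t, h'⟩ (by
          intro h2
          have h3 : c = c + W t := congrArg Subtype.val h2
          have h4 : W t = 0 := by
            have := word_add_add c (W t)
            rw [← h3] at this
            exact add_eq_left.mp this
          have h5 := hWwt t
          rw [h4] at h5
          have h6 : wt (0 : α → ZMod 2) = 0 := by simp [wt]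
          rw [h6] at h5
          have := Fintype.card_pos (α := α)
          omega) (by
          have h2 := inner_vec_vec c (c + W t)
          rw [← add_assoc, word_add_self, zero_add] at h2
          show inner ℝ (vec c) (vec (c + W t)) = (1 / 2 : ℝ)
          rw [h2]
          have h3 : (Fintype.card α : ℝ) = 4 * wt (W t) := by exact_mod_cast (hWwt t).symm
          rw [div_eq_iff hn.ne', h3]
          ring)
        rw [hVC ⟨c, h⟩, hVC ⟨c + W t, h'⟩]
        exact h1
      · have h' : c + W t ∉ C := by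
          intro h1
          apply h
          have := C.add_mem h1 (hWC t)
          rwa [word_add_add] at this
        rw [hV0 c h, hV0 _ h']
        simp
    have hsum : ∑ c, ∑ t, G c t = 0 := by
      simp only [hG, Finset.sum_add_distrib]
      have h1 : ∑ c : α → ZMod 2, ∑ t, inner ℝ (vec c) (V (c + W t)) =
          ∑ c : α → ZMod 2, ∑ t, inner ℝ (vec (c + W t)) (V c) := by
        rw [Finset.sum_comm]
        rw [Finset.sum_comm (f := fun (c : α → ZMod 2) t => inner ℝ (vec (c + W t)) (V c))]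
        refine Finset.sum_congr rfl fun t _ => ?_
        rw [← Equiv.sum_comp (Equiv.addRight (W t))]
        refine Finset.sum_congr rfl fun c _ => ?_
        simp only [Equiv.coe_addRight, word_add_add]
      rw [h1, ← two_mul]
      have h2 : ∀ c : α → ZMod 2, ∑ t, inner ℝ (vec (c + W t)) (V c) = (0 : ℝ) := by
        intro c
        have h3 : ∑ t, inner ℝ (vec (c + W t)) (V c) = 2 * inner ℝ (vec c) (V c) := by
          simp only [hpair]
          rw [← Finset.sum_div, Finset.sum_comm]
          simp only [← Finset.sum_mul, hWsum]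
          rw [← Finset.mul_sum, hu0, htan]
          simp
        rw [h3, htan, mul_zero]
      rw [Finset.sum_congr rfl fun c _ => h2 c]
      simp
    have hall : ∀ c, ∑ t, G c t = 0 := by
      have h1 : ∀ c ∈ Finset.univ, ∑ t, G c t ≤ 0 := fun c _ =>
        Finset.sum_nonpos fun t _ => hle c t
      intro c
      exact (Finset.sum_eq_zero_iff_of_nonpos h1).mp hsum c (Finset.mem_univ c)
    intro c
    exact (Finset.sum_eq_zero_iff_of_nonpos fun t _ => hle c t).mp (hall c) t0 (Finset.mem_univ t0)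
  have hquad : ∀ w, Quad C w → ∀ c, ∑ i, (if w i = 0 then 0 else u c i) +
      ∑ i, (if w i = 0 then 0 else u (c + w) i) = 0 := by
    intro w hw c
    have h1 := hcontact w hw c
    have h2 := hpair (c + w) w
    rw [word_add_add] at h2
    rw [h2, hpair c w, ← add_div, div_eq_zero_iff] at h1
    have h3 := h1.resolve_right hsn.ne'
    rw [hsgw w _ (hu0 c), hsgw w _ (hu0 (c + w))] at h3
    linarith
  -- Fourier transform
  set F : (α → ZMod 2) → α → ℝ := fun s i => ∑ c : α → ZMod 2, sg (s ⬝ᵥ c) * u c i with hF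
  have hF0 : ∀ s, ∑ i, F s i = 0 := by
    intro s
    simp only [hF]
    rw [Finset.sum_comm]
    refine Finset.sum_eq_zero fun c _ => ?_
    rw [← Finset.mul_sum, hu0, mul_zero]
  have hFw : ∀ s w, Quad C w → s ⬝ᵥ w = 0 → ∑ i, (if w i = 0 then 0 else F s i) = 0 := by
    intro s w hw hs
    set g : (α → ZMod 2) → ℝ := fun c => ∑ i, (if w i = 0 then 0 else u c i) with hg
    have h1 : ∑ i, (if w i = 0 then 0 else F s i) = ∑ c : α → ZMod 2, sg (s ⬝ᵥ c) * g c := by
      simp only [hF, hg, Finset.mul_sum]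
      rw [Finset.sum_comm]
      refine Finset.sum_congr rfl fun i _ => ?_
      split_ifs <;> simp
    have h2 : ∑ c : α → ZMod 2, sg (s ⬝ᵥ c) * g c = ∑ c : α → ZMod 2, sg (s ⬝ᵥ c) * g (c + w) := by
      rw [← Equiv.sum_comp (Equiv.addRight w)]
      refine Finset.sum_congr rfl fun c _ => ?_
      simp only [Equiv.coe_addRight]
      rw [dotProduct_add, hs, add_zero]
    have h3 : ∑ c : α → ZMod 2, sg (s ⬝ᵥ c) * g c + ∑ c : α → ZMod 2, sg (s ⬝ᵥ c) * g c = 0 := by
      nth_rewrite 2 [h2]
      rw [← Finset.sum_add_distrib]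
      refine Finset.sum_eq_zero fun c _ => ?_
      rw [← mul_add]
      have := hquad w hw c
      simp only [hg]
      rw [this, mul_zero]
    rw [h1]
    linarith
  have hchoose : ∀ s, ∃ (a : ℝ) (p q : α), (∀ k, F s k = a * ((if k = p then 1 else 0) -
      (if k = q then 1 else 0))) ∧ ∀ c ∈ C, a * sg (s ⬝ᵥ c) = a * sg (c p + c q) := by
    intro s
    rcases hC s (F s) (hF0 s) (hFw s) with h | ⟨i, j, hij, hzi, hzj, hk, hc⟩
    · obtain ⟨p⟩ := (inferInstance : Nonempty α)
      exact ⟨0, p, p, fun k => by rw [h]; simp, fun c _ => by simp⟩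
    · refine ⟨F s i, i, j, fun k => ?_, fun c hcC => by rw [hc c hcC]⟩
      by_cases h1 : k = i
      · subst h1; simp [hij]
      · by_cases h2 : k = j
        · subst h2; simp [h1, hzj]
        · rw [hk k h1 h2]; simp [h1, h2]
  choose a p q hapq hchar using hchoose
  set N : ℝ := (Fintype.card (α → ZMod 2) : ℝ) with hN
  have hNpos : 0 < N := by rw [hN]; exact_mod_cast Fintype.card_pos
  refine ⟨skewMap (fun s => a s * √(Fintype.card α) / N) p q, skewMap_skew _ _ _, fun c => ?_⟩
  ext k
  rw [skewMap_apply, ← hVC c, hVu]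
  have hinv := inversion (fun d => u d k) (c : α → ZMod 2)
  have h1 : u c k = (∑ s : α → ZMod 2, sg (s ⬝ᵥ (c : α → ZMod 2)) * F s k) / N := by
    rw [eq_div_iff hNpos.ne', mul_comm]
    exact hinv.symm
  rw [h1, Finset.sum_div, Finset.mul_sum]
  refine Finset.sum_congr rfl fun s _ => ?_
  rw [hapq s k]
  have h2 := hchar s c c.2
  have h3 : sg ((c : α → ZMod 2) k) * (sg (s ⬝ᵥ (c : α → ZMod 2)) * (a s * ((if k = p s then 1 else 0) -
      (if k = q s then 1 else 0))) / N) = sg ((c : α → ZMod 2) k) * ((a s * sg ((c : α → ZMod 2) (p s) +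
      (c : α → ZMod 2) (q s))) * ((if k = p s then 1 else 0) - (if k = q s then 1 else 0)) / N) := by
    rw [← h2]; ring
  rw [h3, sg_add]
  have h4 : ∀ t, (fam C c) t = sg ((c : α → ZMod 2) t) / √(Fintype.card α) := fun t => rfl
  rw [h4, h4]
  have h5 := sg_mul_self ((c : α → ZMod 2) k)
  by_cases h6 : k = p s
  · by_cases h7 : k = q s
    · rw [if_pos h6, if_pos h7, if_pos h6, if_pos h7, ← h6, ← h7]; simp
    · rw [if_pos h6, if_neg h7, if_pos h6, if_neg h7, ← h6, sub_zero, sub_zero]
      field_simp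
      linear_combination (a s * sg ((c : α → ZMod 2) (q s))) * h5
  · by_cases h7 : k = q s
    · rw [if_neg h6, if_pos h7, if_neg h6, if_pos h7, ← h7]
      field_simp
      linear_combination (-(a s) * sg ((c : α → ZMod 2) (p s))) * h5
    · rw [if_neg h6, if_neg h7, if_neg h6, if_neg h7]; simp

end

end Pool.Agent.H976R3.Kiss
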