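import Pool.Agent.H976R3.Kiss.RM

/-!
# Random permutations: a tail bound, and large codes containing permuted copies
-/

set_option autoImplicit false

namespace Pool.Agent.H976R3.Kiss

section perm

variable {α : Type*} [Fintype α] [DecidableEq α]

/-- The permutations mapping `J` into `B`. -/
def PJ (B J : Finset α) : Finset (Equiv.Perm α) := Finset.univ.filter fun π => ∀ i ∈ J, π i ∈ B

theorem card_PJ_insert (B J : Finset α) {j k : α} (hj : j ∉ J) (hk : k ∉ J) :
    (PJ B (insert j J)).card = ((PJ B J).filter fun π => π k ∈ B).card := by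
  refine Finset.card_bij (fun π _ => π * Equiv.swap j k) ?_ ?_ ?_
  · intro π hπ
    simp only [PJ, Finset.mem_filter, Finset.mem_univ, true_and, Finset.mem_insert] at hπ ⊢
    refine ⟨fun i hi => ?_, ?_⟩
    · rw [Equiv.Perm.mul_apply, Equiv.swap_apply_of_ne_of_ne]
      · exact hπ i (Or.inr hi)
      · rintro rfl; exact hj hi
      · rintro rfl; exact hk hi
    · rw [Equiv.Perm.mul_apply, Equiv.swap_apply_right]
      exact hπ j (Or.inl rfl)
  · intro π _ π' _ h
    exact mul_right_cancel h
  · intro π hπ
    simp only [PJ, Finset.mem_filter, Finset.mem_univ, true_and] at hπ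
    refine ⟨π * Equiv.swap j k, ?_, by rw [mul_assoc, Equiv.swap_mul_self, mul_one]⟩
    simp only [PJ, Finset.mem_filter, Finset.mem_univ, true_and, Finset.mem_insert]
    intro i hi
    rcases hi with rfl | hi
    · rw [Equiv.Perm.mul_apply, Equiv.swap_apply_left]; exact hπ.2
    · rw [Equiv.Perm.mul_apply, Equiv.swap_apply_of_ne_of_ne]
      · exact hπ.1 i hi
      · rintro rfl; exact hj hi
      · rintro rfl; exact hk hi

theorem card_step (B J : Finset α) {j : α} (hj : j ∉ J) :
    (PJ B (insert j J)).card * Fintype.card α ≤ (PJ B J).card * B.card := by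
  have h1 : ∑ k ∈ Finset.univ \ J, ((PJ B J).filter fun π => π k ∈ B).card =
      ∑ π ∈ PJ B J, ((Finset.univ \ J).filter fun k => π k ∈ B).card := by
    simp only [Finset.card_filter]
    rw [Finset.sum_comm]
  have h2 : ∑ k ∈ Finset.univ \ J, ((PJ B J).filter fun π => π k ∈ B).card =
      (Fintype.card α - J.card) * (PJ B (insert j J)).card := by
    rw [Finset.sum_congr rfl fun k hk =>
      (card_PJ_insert B J hj (Finset.mem_sdiff.mp hk).2).symm, Finset.sum_const, smul_eq_mul,
      Finset.card_sdiff_of_subset (Finset.subset_univ J), Finset.card_univ]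
  have h3 : ∀ π ∈ PJ B J, ((Finset.univ \ J).filter fun k => π k ∈ B).card + J.card = B.card := by
    intro π hπ
    simp only [PJ, Finset.mem_filter, Finset.mem_univ, true_and] at hπ
    have h4 : (Finset.univ.filter fun k => π k ∈ B).card = B.card := by
      refine Finset.card_bij (fun k _ => π k) ?_ ?_ ?_
      · intro k hk; simpa using hk
      · intro k _ k' _ h; exact π.injective h
      · intro b hb; exact ⟨π.symm b, by simpa using hb, by simp⟩
    rw [← h4]
    have h5 : (Finset.univ.filter fun k => π k ∈ B) =
        ((Finset.univ \ J).filter fun k => π k ∈ B) ∪ J := by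
      ext k
      simp only [Finset.mem_filter, Finset.mem_univ, true_and, Finset.mem_union, Finset.mem_sdiff]
      constructor
      · intro h
        by_cases hk : k ∈ J
        · exact Or.inr hk
        · exact Or.inl ⟨hk, h⟩
      · rintro (h | h)
        · exact h.2
        · exact hπ k h
    rw [h5, Finset.card_union_of_disjoint]
    rw [Finset.disjoint_left]
    intro k hk hk'
    simp only [Finset.mem_filter, Finset.mem_sdiff] at hk
    exact hk.1.2 hk'
  by_cases hne : (PJ B J).card = 0
  · have h4 : (PJ B (insert j J)).card = 0 := by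
      rw [card_PJ_insert B J hj hj, Finset.card_eq_zero.mp hne]; simp
    rw [h4, zero_mul]; exact Nat.zero_le _
  have h4 : J.card ≤ B.card := by
    obtain ⟨π, hπ⟩ := Finset.card_pos.mp (Nat.pos_of_ne_zero hne)
    have := h3 π hπ
    omega
  have h5 : ∑ π ∈ PJ B J, ((Finset.univ \ J).filter fun k => π k ∈ B).card =
      (PJ B J).card * (B.card - J.card) := by
    rw [Finset.sum_congr rfl fun π hπ => (Nat.eq_sub_of_add_eq (h3 π hπ)), Finset.sum_const,
      smul_eq_mul]
  have h6 : (Fintype.card α - J.card) * (PJ B (insert j J)).card =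
      (PJ B J).card * (B.card - J.card) := by rw [← h2, h1, h5]
  have h7 : J.card < Fintype.card α := by
    have := Finset.card_lt_univ_of_notMem hj
    exact this
  have h8 : B.card ≤ Fintype.card α := Finset.card_le_univ B
  obtain ⟨d, hd⟩ := Nat.exists_eq_add_of_lt h7
  obtain ⟨e, he⟩ := Nat.exists_eq_add_of_le h4
  rw [he, hd] at h6 h8 ⊢
  have h9 : J.card + d + 1 - J.card = d + 1 := by omega
  have h10 : J.card + e - J.card = e := by omega
  rw [h9, h10] at h6
  have h11 : e ≤ d + 1 := by omega
  refine Nat.le_of_mul_le_mul_left (c := d + 1) ?_ (Nat.succ_pos d)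
  calc (d + 1) * ((PJ B (insert j J)).card * (J.card + d + 1))
      = ((d + 1) * (PJ B (insert j J)).card) * (J.card + d + 1) := by ring
    _ = (PJ B J).card * (e * (J.card + d + 1)) := by rw [h6]; ring
    _ ≤ (PJ B J).card * ((d + 1) * (J.card + e)) := by
        refine Nat.mul_le_mul_left _ ?_
        nlinarith
    _ = (d + 1) * ((PJ B J).card * (J.card + e)) := by ring

theorem card_PJ_le (B J : Finset α) :
    (PJ B J).card * Fintype.card α ^ J.card ≤ (Fintype.card α).factorial * B.card ^ J.card := by
  induction J using Finset.induction_on with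
  | empty => simp [PJ, Fintype.card_perm]
  | insert j J hj ih =>
    rw [Finset.card_insert_of_notMem hj, pow_succ, pow_succ]
    calc (PJ B (insert j J)).card * (Fintype.card α ^ J.card * Fintype.card α)
        = ((PJ B (insert j J)).card * Fintype.card α) * Fintype.card α ^ J.card := by ring
      _ ≤ ((PJ B J).card * B.card) * Fintype.card α ^ J.card :=
          Nat.mul_le_mul_right _ (card_step B J hj)
      _ = ((PJ B J).card * Fintype.card α ^ J.card) * B.card := by ring
      _ ≤ ((Fintype.card α).factorial * B.card ^ J.card) * B.card := Nat.mul_le_mul_right _ ih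
      _ = _ := by ring

/-- The moment generating function of the size of the intersection with a random set. -/
theorem mgf [Nonempty α] (A B : Finset α) (y : ℝ) (hy : 1 ≤ y) :
    ∑ π : Equiv.Perm α, y ^ (A.filter fun i => π i ∈ B).card ≤
      (Fintype.card α).factorial * (1 + (y - 1) * (B.card / Fintype.card α)) ^ A.card := by
  have hn : (0 : ℝ) < Fintype.card α := by exact_mod_cast Fintype.card_pos
  have h1 : ∀ π : Equiv.Perm α, y ^ (A.filter fun i => π i ∈ B).card =
      ∑ J ∈ A.powerset, (y - 1) ^ J.card * (if π ∈ PJ B J then 1 else 0) := by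
    intro π
    have h2 : y ^ (A.filter fun i => π i ∈ B).card =
        ∏ i ∈ A, (1 + (if π i ∈ B then (y - 1) else 0)) := by
      rw [← Finset.prod_const, Finset.prod_filter]
      refine Finset.prod_congr rfl fun i _ => ?_
      split_ifs <;> ring
    rw [h2, Finset.prod_one_add]
    refine Finset.sum_congr rfl fun J _ => ?_
    by_cases h : π ∈ PJ B J
    · rw [if_pos h, mul_one, ← Finset.prod_const]
      simp only [PJ, Finset.mem_filter, Finset.mem_univ, true_and] at h
      exact Finset.prod_congr rfl fun i hi => by rw [if_pos (h i hi)]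
    · rw [if_neg h, mul_zero]
      simp only [PJ, Finset.mem_filter, Finset.mem_univ, true_and] at h
      push Not at h
      obtain ⟨i, hi, hπ⟩ := h
      exact Finset.prod_eq_zero hi (by rw [if_neg hπ])
  rw [Finset.sum_congr rfl fun π _ => h1 π, Finset.sum_comm]
  have h3 : ∀ J ∈ A.powerset, ∑ π : Equiv.Perm α, (y - 1) ^ J.card * (if π ∈ PJ B J then (1 : ℝ) else 0) ≤
      (Fintype.card α).factorial * ∏ _i ∈ J, ((y - 1) * (B.card / Fintype.card α)) := by
    intro J _
    rw [← Finset.mul_sum, Finset.sum_boole, Finset.prod_const, mul_pow, div_pow]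
    have h4 : (Finset.univ.filter fun π => π ∈ PJ B J) = PJ B J := by ext; simp
    rw [h4]
    have h5 : ((PJ B J).card : ℝ) ≤ (Fintype.card α).factorial *
        ((B.card : ℝ) ^ J.card / (Fintype.card α : ℝ) ^ J.card) := by
      rw [← mul_div_assoc, le_div_iff₀ (pow_pos hn _)]
      exact_mod_cast card_PJ_le B J
    calc (y - 1) ^ J.card * ((PJ B J).card : ℝ) ≤ (y - 1) ^ J.card * ((Fintype.card α).factorial *
        ((B.card : ℝ) ^ J.card / (Fintype.card α : ℝ) ^ J.card)) :=
          mul_le_mul_of_nonneg_left h5 (pow_nonneg (by linarith) _)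
      _ = _ := by ring
  refine (Finset.sum_le_sum h3).trans ?_
  rw [← Finset.mul_sum, ← Finset.prod_one_add, Finset.prod_const]

end perm

end Pool.Agent.H976R3.Kiss
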