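import Pool.Agent.H976R3.Kiss.Build

/-!
# Iterating the sharing step
-/

set_option autoImplicit false

namespace Pool.Agent.H976R3.Kiss

section card

variable {α : Type*} [Fintype α]

theorem card_sup_le (C D : Submodule (ZMod 2) (α → ZMod 2)) :
    Nat.card (C ⊔ D : Submodule (ZMod 2) (α → ZMod 2)) ≤ Nat.card C * Nat.card D := by
  rw [← Nat.card_prod]
  refine Nat.card_le_card_of_surjective
    (fun p : C × D => (⟨(p.1 : α → ZMod 2) + p.2, Submodule.add_mem _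
      (Submodule.mem_sup_left p.1.2) (Submodule.mem_sup_right p.2.2)⟩ :
      (C ⊔ D : Submodule (ZMod 2) (α → ZMod 2)))) ?_
  rintro ⟨x, hx⟩
  obtain ⟨a, ha, b, hb, rfl⟩ := Submodule.mem_sup.mp hx
  exact ⟨(⟨a, ha⟩, ⟨b, hb⟩), rfl⟩

theorem card_pull_le (e : Equiv.Perm α) (C : Submodule (ZMod 2) (α → ZMod 2)) :
    Nat.card (pull e C) ≤ Nat.card C := by
  refine Nat.card_le_card_of_surjective
    (fun c : C => (⟨(c : α → ZMod 2) ∘ e, (mem_pull _ _ _).mpr ⟨c, c.2, rfl⟩⟩ : pull e C)) ?_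
  rintro ⟨x, hx⟩
  obtain ⟨a, ha, rfl⟩ := (mem_pull _ _ _).mp hx
  exact ⟨⟨a, ha⟩, rfl⟩

end card

section iter

variable {k : ℕ}

/-- Rigid codes with the stress property. -/
def Rg (S : Submodule (ZMod 2) (Pt (k + 3) → ZMod 2)) : Prop :=
  RigC S ∧ (1 : Pt (k + 3) → ZMod 2) ∈ S ∧ Str S

theorem rg_pull (π : Equiv.Perm (Pt (k + 3))) : Rg (pull π (RM2 (k + 3))) := by
  refine ⟨(rigC_RM2 (by omega)).pull π, (mem_pull _ _ _).mpr ⟨1, one_mem_RM2, rfl⟩,
    (str_RM2 (by omega)).pull π⟩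

theorem iter (l : List (Pt (k + 3) → ZMod 2))
    (hl : ∀ c ∈ l, c ∈ D0 k ∧ 4 * wt c = 2 ^ (k + 3))
    (hsmall : 2 * (Nat.card (RM2 (k + 3)) : ℝ) ^ (l.length + 1) *
      Real.exp (-(2 ^ (k + 3) : ℝ) / 2304) < 1) :
    ∃ S : Submodule (ZMod 2) (Pt (k + 3) → ZMod 2), Inv (D0 k ⊔ S) ∧ (l ≠ [] → Rg S) ∧
      (l = [] → S = ⊥) ∧ (∀ c ∈ l, c ∈ S) ∧
      Nat.card (D0 k ⊔ S : Submodule (ZMod 2) (Pt (k + 3) → ZMod 2)) ≤
        Nat.card (RM2 (k + 3)) ^ (l.length + 1) := by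
  induction l with
  | nil =>
    refine ⟨⊥, by rw [sup_bot_eq]; exact inv_D0, fun h => absurd rfl h, fun _ => rfl,
      fun c hc => absurd hc List.not_mem_nil, ?_⟩
    rw [sup_bot_eq, List.length_nil, zero_add, pow_one]
    exact Set.ncard_le_ncard (s := (D0 k : Set (Pt (k + 3) → ZMod 2)))
      (t := (RM2 (k + 3) : Set (Pt (k + 3) → ZMod 2))) (fun u hu => hu.1) (Set.toFinite _)
  | cons c l ih =>
    have hM1 : (1 : ℝ) ≤ Nat.card (RM2 (k + 3)) := by
      have : 0 < Nat.card (RM2 (k + 3)) := Nat.card_pos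
      exact_mod_cast this
    have hsm' : 2 * (Nat.card (RM2 (k + 3)) : ℝ) ^ (l.length + 1) *
        Real.exp (-(2 ^ (k + 3) : ℝ) / 2304) < 1 := by
      refine lt_of_le_of_lt ?_ hsmall
      rw [List.length_cons]
      have : (Nat.card (RM2 (k + 3)) : ℝ) ^ (l.length + 1) ≤
          (Nat.card (RM2 (k + 3)) : ℝ) ^ (l.length + 1 + 1) :=
        pow_le_pow_right₀ hM1 (Nat.le_succ _)
      gcongr
    obtain ⟨S, hS, hS1, hS2, hS3, hS4⟩ := ih (fun c' hc' => hl c' (List.mem_cons_of_mem _ hc')) hsm'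
    obtain ⟨hc, hcw⟩ := hl c List.mem_cons_self
    obtain ⟨π, hπc, hπ⟩ := step (D0 k ⊔ S) hS c hc hcw (by
      refine lt_of_le_of_lt ?_ hsmall
      rw [List.length_cons]
      have h1 : (Nat.card (D0 k ⊔ S : Submodule (ZMod 2) (Pt (k + 3) → ZMod 2)) : ℝ) ≤
          (Nat.card (RM2 (k + 3)) : ℝ) ^ (l.length + 1) := by exact_mod_cast hS4
      have h2 : 2 * (Nat.card (D0 k ⊔ S : Submodule (ZMod 2) (Pt (k + 3) → ZMod 2)) : ℝ) *
          Nat.card (RM2 (k + 3)) ≤ 2 * (Nat.card (RM2 (k + 3)) : ℝ) ^ (l.length + 1 + 1) := by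
        rw [pow_succ (n := l.length + 1), ← mul_assoc]
        gcongr
      gcongr)
    refine ⟨S ⊔ pull π (RM2 (k + 3)), by rw [← sup_assoc]; exact hπ, fun _ => ?_,
      fun h => absurd h (List.cons_ne_nil _ _), ?_, ?_⟩
    · by_cases hl0 : l = []
      · rw [hS2 hl0, bot_sup_eq]
        exact rg_pull π
      · have h1 := hS1 hl0
        exact ⟨h1.1.sup (rg_pull π).1, Submodule.mem_sup_left h1.2.1, h1.2.2.mono le_sup_left⟩
    · intro c' hc'
      rcases List.mem_cons.mp hc' with rfl | hc'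
      · exact Submodule.mem_sup_right ((mem_pull _ _ _).mpr ⟨c', hc.1, hπc⟩)
      · exact Submodule.mem_sup_left (hS3 c' hc')
    · rw [← sup_assoc, List.length_cons, pow_succ]
      refine (card_sup_le _ _).trans ?_
      exact Nat.mul_le_mul hS4 (card_pull_le _ _)

/-- The monomials and their relatives. -/
def fij (i j : Fin (k + 3)) (δ : ZMod 2) : Pt (k + 3) → ZMod 2 :=
  fl (Pi.single i 1) 0 (Pi.single j 1) δ

theorem fij_apply (i j : Fin (k + 3)) (δ : ZMod 2) (x : Pt (k + 3)) :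
    fij i j δ x = x i * (x j + δ) := by
  simp [fij, fl, single_dotProduct]

theorem single_ne_zero' (i : Fin (k + 3)) : (Pi.single i 1 : Pt (k + 3)) ≠ 0 := by
  intro h
  have := congrFun h i
  simp at this

theorem single_ne_single {i j : Fin (k + 3)} (h : i ≠ j) :
    (Pi.single i 1 : Pt (k + 3)) ≠ Pi.single j 1 := by
  intro h'
  have := congrFun h' i
  rw [Pi.single_eq_same, Pi.single_eq_of_ne h] at this
  exact one_ne_zero this

theorem fij_wt {i j : Fin (k + 3)} (h : i ≠ j) (δ : ZMod 2) :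
    4 * wt (fij i j δ) = 2 ^ (k + 3) :=
  wt_fl (single_ne_zero' i) (single_ne_zero' j) (single_ne_single h) _ _

theorem fij_mem {i j : Fin (k + 3)} (h : i ≠ j) (δ : ZMod 2) (hδ : δ = 0 ∨ (i ≠ 0 ∧ i ≠ 1)) :
    fij i j δ ∈ D0 k := by
  refine ⟨fl_mem _ _ _ _, ?_, ?_⟩
  · rw [fij_apply, fij_apply, e1, Pi.zero_apply, zero_mul]
    rcases hδ with rfl | ⟨h0, h1⟩
    · rw [add_zero]
      by_cases hi : i = 0
      · rw [Pi.single_eq_of_ne (show j ≠ 0 from fun hj => h (hi.trans hj.symm)), mul_zero]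
      · rw [Pi.single_eq_of_ne hi, zero_mul]
    · rw [Pi.single_eq_of_ne h0, zero_mul]
  · rw [fij_apply, fij_apply, e2, Pi.zero_apply, zero_mul]
    rcases hδ with rfl | ⟨h0, h1⟩
    · rw [add_zero]
      by_cases hi : i = 1
      · rw [Pi.single_eq_of_ne (show j ≠ 1 from fun hj => h (hi.trans hj.symm)), mul_zero]
      · rw [Pi.single_eq_of_ne hi, zero_mul]
    · rw [Pi.single_eq_of_ne h1, zero_mul]

theorem D0_le (S : Submodule (ZMod 2) (Pt (k + 3) → ZMod 2)) (h1 : (1 : Pt (k + 3) → ZMod 2) ∈ S)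
    (hf : ∀ (i j : Fin (k + 3)) (δ : ZMod 2), i ≠ j → (δ = 0 ∨ (i ≠ 0 ∧ i ≠ 1)) → fij i j δ ∈ S) :
    D0 k ≤ S := by
  rintro u ⟨⟨p, rfl⟩, h2, h3⟩
  have e0 : qmap (k + 3) p 0 = p.1 := by
    rw [qmap_apply]
    simp
  have ee : ∀ r : Fin (k + 3), qmap (k + 3) p (Pi.single r 1) = p.1 + p.2 r r := by
    intro r
    rw [qmap_apply]
    congr 1
    rw [Finset.sum_eq_single r, Finset.sum_eq_single r]
    · simp
    · intro j _ hj; rw [Pi.single_eq_of_ne hj]; simp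
    · intro h; exact absurd (Finset.mem_univ _) h
    · intro i _ hi
      refine Finset.sum_eq_zero fun j _ => ?_
      rw [Pi.single_eq_of_ne hi]; simp
    · intro h; exact absurd (Finset.mem_univ _) h
  have p00 : p.2 0 0 = 0 := by
    have := ee 0
    rw [e0, e1] at h2
    rw [← h2] at this
    exact (left_eq_add.mp this)
  have p11 : p.2 1 1 = 0 := by
    have := ee 1
    rw [e0, e2] at h3
    rw [← h3] at this
    exact (left_eq_add.mp this)
  have hmono : ∀ i j : Fin (k + 3), i ≠ j → (fun x : Pt (k + 3) => x i * x j) ∈ S := by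
    intro i j hij
    have := hf i j 0 hij (Or.inl rfl)
    convert this using 1
    ext x; rw [fij_apply, add_zero]
  have hdiag : ∀ i : Fin (k + 3), i ≠ 0 → i ≠ 1 → (fun x : Pt (k + 3) => x i * x i) ∈ S := by
    intro i hi0 hi1
    have h4 := S.add_mem (hf i 0 0 hi0 (Or.inl rfl)) (hf i 0 1 hi0 (Or.inr ⟨hi0, hi1⟩))
    convert h4 using 1
    ext x
    rw [Pi.add_apply, fij_apply, fij_apply, zmod2_mul_self]
    linear_combination -zmod2_add_self (x i * x 0)
  have hu : qmap (k + 3) p = p.1 • (1 : Pt (k + 3) → ZMod 2) +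
      ∑ i, ∑ j, p.2 i j • (fun x : Pt (k + 3) => x i * x j) := by
    ext x
    rw [qmap_apply]
    simp [Finset.sum_apply]
  rw [hu]
  refine S.add_mem (S.smul_mem _ h1) (S.sum_mem fun i _ => S.sum_mem fun j _ => ?_)
  by_cases hij : i = j
  · subst hij
    by_cases hi0 : i = 0
    · subst hi0; rw [p00, zero_smul]; exact S.zero_mem
    by_cases hi1 : i = 1
    · subst hi1; rw [p11, zero_smul]; exact S.zero_mem
    exact S.smul_mem _ (hdiag i hi0 hi1)
  · exact S.smul_mem _ (hmono i j hij)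

end iter

section split

variable {m : ℕ}

theorem exA (hm : 3 ≤ m) (v a : Pt m) : ∃ b : Pt m, b ≠ 0 ∧ b ≠ a ∧ b ⬝ᵥ v = 0 := by
  obtain ⟨b, hb0, hba, _, _⟩ := exists_outside hm a 0
  obtain ⟨b', hb'0, hb'a, hb'b, hb'ab⟩ := exists_outside hm a b
  by_cases h1 : b ⬝ᵥ v = 0
  · exact ⟨b, hb0, hba, h1⟩
  by_cases h2 : b' ⬝ᵥ v = 0
  · exact ⟨b', hb'0, hb'a, h2⟩
  refine ⟨b + b', ?_, ?_, ?_⟩
  · intro h4
    exact hb'b (eq_of_add_eq_zero' h4).symm
  · intro h4
    apply hb'ab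
    have := word_add_add b' b
    rw [add_comm b' b, h4] at this
    exact this.symm
  · rw [add_dotProduct, (zmod2_cases _).resolve_left h1, (zmod2_cases _).resolve_left h2]
    decide

theorem exB (hm : 3 ≤ m) (v a : Pt m) (hv : v ≠ 0) : ∃ b : Pt m, b ≠ 0 ∧ b ≠ a ∧ b ⬝ᵥ v = 1 := by
  classical
  obtain ⟨i, hi⟩ : ∃ i, v i ≠ 0 := by
    by_contra hcon
    push Not at hcon
    exact hv (funext hcon)
  have hb0 : (Pi.single i 1 : Pt m) ⬝ᵥ v = 1 := by
    rw [single_dotProduct, one_mul]; exact (zmod2_cases _).resolve_left hi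
  have hne : ∀ b : Pt m, b ⬝ᵥ v = 1 → b ≠ 0 := by
    rintro b h rfl
    rw [zero_dotProduct] at h; exact zero_ne_one h
  by_cases h : (Pi.single i 1 : Pt m) = a
  · obtain ⟨b', h1, _, h3⟩ := exA hm v 0
    have h4 : (Pi.single i 1 + b') ⬝ᵥ v = 1 := by rw [add_dotProduct, hb0, h3, add_zero]
    refine ⟨Pi.single i 1 + b', hne _ h4, ?_, h4⟩
    rw [h]
    intro h5
    exact h1 (add_eq_left.mp h5)
  · exact ⟨_, hne _ hb0, h, hb0⟩

variable {k : ℕ}

theorem exists_split' (x y : Pt (k + 3)) (hxy : x ≠ y) (hx0 : x ≠ 0) (hx1 : x ≠ e1 k) :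
    ∃ w ∈ RM2 (k + 3), 4 * wt w = 2 ^ (k + 3) ∧ w 0 = w (e1 k) ∧ w (e2 k) ≠ w 0 ∧ w x ≠ w y := by
  obtain ⟨a, ha1, ha2, hax⟩ : ∃ a : Pt (k + 3), a ⬝ᵥ e1 k = 0 ∧ a ⬝ᵥ e2 k = 1 ∧ a ⬝ᵥ x = 1 := by
    by_cases h1 : x 1 = 1
    · refine ⟨Pi.single 1 1, ?_, ?_, ?_⟩
      · simp [e1]
      · simp [e2]
      · rw [single_dotProduct, one_mul, h1]
    · have h1' : x 1 = 0 := by
        rcases zmod2_cases (x 1) with h | h
        · exact h
        · exact absurd h h1
      obtain ⟨i, hi0, hi1, hxi⟩ : ∃ i : Fin (k + 3), i ≠ 0 ∧ i ≠ 1 ∧ x i ≠ 0 := by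
        by_contra hcon
        push Not at hcon
        have h2 : x = Pi.single 0 (x 0) := by
          ext i
          by_cases hi0 : i = 0
          · subst hi0; simp
          · rw [Pi.single_eq_of_ne hi0]
            by_cases hi1 : i = 1
            · subst hi1; exact h1'
            · exact hcon i hi0 hi1
        rcases zmod2_cases (x 0) with h | h
        · rw [h, Pi.single_zero] at h2; exact hx0 h2
        · rw [h] at h2; exact hx1 h2
      refine ⟨Pi.single 1 1 + Pi.single i 1, ?_, ?_, ?_⟩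
      · rw [add_dotProduct, single_dotProduct, single_dotProduct, e1, Pi.single_eq_of_ne hi0]
        simp
      · rw [add_dotProduct, single_dotProduct, single_dotProduct, e2, Pi.single_eq_of_ne hi1]
        simp
      · rw [add_dotProduct, single_dotProduct, single_dotProduct, h1',
          (zmod2_cases _).resolve_left hxi]
        simp
  have ha0 : a ≠ 0 := by
    rintro rfl
    rw [zero_dotProduct] at ha2; exact zero_ne_one ha2
  have h20 : (1 : ZMod 2) + 1 = 0 := by decide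
  have key : ∀ b : Pt (k + 3), b ≠ 0 → b ≠ a → (fl a 0 b (b ⬝ᵥ e2 k + 1)) x ≠
      (fl a 0 b (b ⬝ᵥ e2 k + 1)) y → ∃ w ∈ RM2 (k + 3), 4 * wt w = 2 ^ (k + 3) ∧
      w 0 = w (e1 k) ∧ w (e2 k) ≠ w 0 ∧ w x ≠ w y := by
    intro b hb0 hba hne
    refine ⟨fl a 0 b (b ⬝ᵥ e2 k + 1), fl_mem _ _ _ _, wt_fl ha0 hb0 (Ne.symm hba) _ _, ?_, ?_, hne⟩
    · simp only [fl, dotProduct_zero, add_zero, zero_mul, ha1]
    · simp only [fl, dotProduct_zero, add_zero, zero_mul, ha2, one_mul]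
      rw [← add_assoc, zmod2_add_self, zero_add]
      exact one_ne_zero
  rcases zmod2_cases (a ⬝ᵥ y) with hay | hay
  · obtain ⟨b, hb0, hba, hbv⟩ := exA (by omega) (x + e2 k) a
    refine key b hb0 hba ?_
    simp only [fl, hax, hay, add_zero, one_mul, zero_mul]
    rw [dotProduct_add] at hbv
    rw [← add_assoc, hbv, zero_add]
    exact one_ne_zero
  · obtain ⟨b, hb0, hba, hbv⟩ := exB (by omega) (x + y) a (fun h => hxy (eq_of_add_eq_zero' h))
    refine key b hb0 hba ?_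
    simp only [fl, hax, hay, add_zero, one_mul]
    intro h
    rw [dotProduct_add] at hbv
    have h1 := add_right_cancel h
    rw [h1, zmod2_add_self] at hbv
    exact zero_ne_one hbv

theorem exists_split (x y : Pt (k + 3)) (hxy : x ≠ y)
    (h : ¬ ((x = 0 ∧ y = e1 k) ∨ (x = e1 k ∧ y = 0))) :
    ∃ v ∈ D0 k, 4 * wt (v + gw k) = 2 ^ (k + 3) ∧ (v + gw k) x ≠ (v + gw k) y := by
  obtain ⟨w, hw, hw4, h0, h2, hne⟩ : ∃ w ∈ RM2 (k + 3), 4 * wt w = 2 ^ (k + 3) ∧
      w 0 = w (e1 k) ∧ w (e2 k) ≠ w 0 ∧ w x ≠ w y := by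
    by_cases hx : x ≠ 0 ∧ x ≠ e1 k
    · exact exists_split' x y hxy hx.1 hx.2
    · have hy : y ≠ 0 ∧ y ≠ e1 k := by
        by_contra hy
        rw [not_and_or, not_not, not_not] at hx hy
        rcases hx with hx | hx <;> rcases hy with hy | hy
        · exact hxy (hx.trans hy.symm)
        · exact h (Or.inl ⟨hx, hy⟩)
        · exact h (Or.inr ⟨hx, hy⟩)
        · exact hxy (hx.trans hy.symm)
      obtain ⟨w, h1, h2, h3, h4, h5⟩ := exists_split' y x (Ne.symm hxy) hy.1 hy.2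
      exact ⟨w, h1, h2, h3, h4, Ne.symm h5⟩
  refine ⟨w + gw k, ⟨Submodule.add_mem _ hw gw_mem, ?_, ?_⟩, ?_, ?_⟩
  · rw [Pi.add_apply, Pi.add_apply, gw_zero, gw_e1, h0]
  · rw [Pi.add_apply, Pi.add_apply, gw_zero, gw_e2, add_zero]
    rcases zmod2_cases (w 0) with h3 | h3 <;> rcases zmod2_cases (w (e2 k)) with h4 | h4
    · exact absurd (h4.trans h3.symm) h2
    · rw [h3, h4]; decide
    · rw [h3, h4]; decide
    · exact absurd (h4.trans h3.symm) h2
  · rw [word_add_add]; exact hw4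
  · rw [word_add_add]; exact hne

theorem exists_both : ∃ v ∈ D0 k, 4 * wt (v + gw k) = 2 ^ (k + 3) ∧ (v + gw k) 0 ≠ 0 ∧
    (v + gw k) (e1 k) ≠ 0 := by
  have h21 := two_ne_one' (k := k)
  have h10 : (1 : Fin (k + 3)) ≠ 0 := by
    intro h
    have := congrArg Fin.val h
    rw [fin_val_one] at this
    exact one_ne_zero this
  have h20 : (2 : Fin (k + 3)) ≠ 0 := by
    intro h
    have := congrArg Fin.val h
    rw [fin_val_two] at this
    exact two_ne_zero this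
  set w : Pt (k + 3) → ZMod 2 := fl (Pi.single 1 1) 1 (Pi.single 2 1) 1 with hw
  have w0 : w 0 = 1 := by simp [hw, fl]
  have we1 : w (e1 k) = 1 := by
    simp [hw, fl, e1, Pi.single_eq_of_ne (Ne.symm h20)]
  have we2 : w (e2 k) = 0 := by
    have : (1 : ZMod 2) + 1 = 0 := by decide
    simp [hw, fl, e2, this]
  refine ⟨w + gw k, ⟨Submodule.add_mem _ (fl_mem _ _ _ _) gw_mem, ?_, ?_⟩, ?_, ?_, ?_⟩
  · rw [Pi.add_apply, Pi.add_apply, gw_zero, gw_e1, w0, we1]
  · rw [Pi.add_apply, Pi.add_apply, gw_zero, gw_e2, w0, we2]; decide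
  · rw [word_add_add]
    exact wt_fl (single_ne_zero' 1) (single_ne_zero' 2) (single_ne_single (Ne.symm h21)) _ _
  · rw [word_add_add, w0]; exact one_ne_zero
  · rw [word_add_add, we1]; exact one_ne_zero

end split

section final

/-- The code of the construction. -/
theorem exists_code : ∃ C : Submodule (ZMod 2) (Pt (37 + 3) → ZMod 2), Inv C ∧ Rg C := by
  classical
  set F : Finset (Fin (37 + 3) × Fin (37 + 3) × ZMod 2) :=
    Finset.univ.filter fun p => p.1 ≠ p.2.1 ∧ (p.2.2 = 0 ∨ (p.1 ≠ 0 ∧ p.1 ≠ 1)) with hF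
  set l : List (Pt (37 + 3) → ZMod 2) := F.toList.map fun p => fij p.1 p.2.1 p.2.2 with hl
  have hlen : l.length ≤ 3200 := by
    rw [hl, List.length_map, Finset.length_toList]
    refine (Finset.card_le_univ F).trans ?_
    simp [Fintype.card_prod, ZMod.card]
  have hlne : l ≠ [] := by
    intro h
    have h1 : fij (k := 37) 0 1 0 ∈ l := by
      rw [hl, List.mem_map]
      refine ⟨(0, 1, 0), ?_, rfl⟩
      rw [Finset.mem_toList, hF, Finset.mem_filter]
      exact ⟨Finset.mem_univ _, by decide, Or.inl rfl⟩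
    rw [h] at h1
    exact absurd h1 List.not_mem_nil
  obtain ⟨S, hS, hS1, -, hS3, -⟩ := iter (k := 37) l (by
    intro c hc
    rw [hl, List.mem_map] at hc
    obtain ⟨p, hp, rfl⟩ := hc
    rw [Finset.mem_toList, hF, Finset.mem_filter] at hp
    exact ⟨fij_mem hp.2.1 _ hp.2.2, fij_wt hp.2.1 _⟩) (by
    have h1 : (Nat.card (RM2 (37 + 3)) : ℝ) ≤ Real.exp 1601 := by
      have h2 : (Nat.card (RM2 (37 + 3)) : ℝ) ≤ (2 : ℝ) ^ (1 + 40 * 40) := by
        exact_mod_cast card_RM2 (m := 37 + 3)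
      have h3 : (2 : ℝ) ^ (1 + 40 * 40) ≤ (Real.exp 1) ^ (1 + 40 * 40) := by
        refine pow_le_pow_left₀ (by norm_num) ?_ _
        have := Real.add_one_le_exp 1
        linarith
      have h4 : (Real.exp 1) ^ (1 + 40 * 40) = Real.exp 1601 := by
        rw [← Real.exp_nat_mul]; norm_num
      rw [h4] at h3
      exact h2.trans h3
    have h5 : (1 : ℝ) ≤ Real.exp 1601 := Real.one_le_exp (by norm_num)
    have h6 : (Nat.card (RM2 (37 + 3)) : ℝ) ^ (l.length + 1) ≤ Real.exp 1601 ^ 3201 :=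
      (pow_le_pow_left₀ (Nat.cast_nonneg _) h1 _).trans (pow_le_pow_right₀ h5 (by omega))
    have h7 : Real.exp 1601 ^ 3201 = Real.exp (3201 * 1601) := by
      rw [← Real.exp_nat_mul]; norm_num
    have h8 : (2 : ℝ) ≤ Real.exp 1 := by
      have := Real.add_one_le_exp 1
      linarith
    calc 2 * (Nat.card (RM2 (37 + 3)) : ℝ) ^ (l.length + 1) * Real.exp (-(2 ^ (37 + 3) : ℝ) / 2304)
        ≤ Real.exp 1 * Real.exp (3201 * 1601) * Real.exp (-(2 ^ (37 + 3) : ℝ) / 2304) := by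
          rw [← h7]; gcongr
      _ = Real.exp (1 + 3201 * 1601 + -(2 ^ (37 + 3) : ℝ) / 2304) := by
          rw [Real.exp_add, Real.exp_add]
      _ < Real.exp 0 := by
          apply Real.exp_lt_exp.mpr
          norm_num
      _ = 1 := Real.exp_zero)
  have hRg := hS1 hlne
  have hD : D0 37 ≤ S := by
    refine D0_le S hRg.2.1 fun i j δ hij hδ => hS3 _ ?_
    rw [hl, List.mem_map]
    refine ⟨(i, j, δ), ?_, rfl⟩
    rw [Finset.mem_toList, hF, Finset.mem_filter]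
    exact ⟨Finset.mem_univ _, hij, hδ⟩
  rw [sup_eq_right.mpr hD] at hS
  exact ⟨S, hS, hRg⟩

end final

end Pool.Agent.H976R3.Kiss
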