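import Mathlib

/-!
# First order jamming implies jamming, for codes on a sphere
-/

set_option autoImplicit false

namespace Pool.Agent.H976R3.Kiss

open Filter Topology

section

variable {E : Type*} [NormedAddCommGroup E] [InnerProductSpace ℝ E]

/-- The set of the norm preserving maps. -/
def IsoSet (E : Type*) [NormedAddCommGroup E] [InnerProductSpace ℝ E] : Set (E →L[ℝ] E) :=
  {T | ∀ x, ‖T x‖ = ‖x‖}

theorem mem_isoSet_equiv (g : E ≃ₗᵢ[ℝ] E) :
    (g.toLinearIsometry.toContinuousLinearMap : E →L[ℝ] E) ∈ IsoSet E := fun x => g.norm_map x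

variable [FiniteDimensional ℝ E]

theorem isCompact_isoSet : IsCompact (IsoSet E) := by
  have : ProperSpace (E →L[ℝ] E) := FiniteDimensional.proper ℝ (E →L[ℝ] E)
  apply Metric.isCompact_of_isClosed_isBounded
  · have h : IsoSet E = ⋂ x, {T : E →L[ℝ] E | ‖T x‖ = ‖x‖} := by
      ext T; simp [IsoSet]
    rw [h]
    refine isClosed_iInter fun x => ?_
    have h1 : Continuous fun T : E →L[ℝ] E => ‖T x‖ :=
      ((ContinuousLinearMap.apply ℝ E x).continuous).norm
    exact isClosed_eq h1 continuous_const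
  · refine (Metric.isBounded_closedBall (x := (0 : E →L[ℝ] E)) (r := 1)).subset ?_
    intro T hT
    rw [mem_closedBall_zero_iff]
    refine ContinuousLinearMap.opNorm_le_bound _ zero_le_one fun x => ?_
    rw [hT x, one_mul]

/-- A norm preserving map of a finite dimensional space is a linear isometric equivalence. -/
noncomputable def toEquiv (T : E →L[ℝ] E) (hT : T ∈ IsoSet E) : E ≃ₗᵢ[ℝ] E :=
  LinearIsometry.toLinearIsometryEquiv ⟨T.toLinearMap, hT⟩ rfl

theorem toEquiv_apply (T : E →L[ℝ] E) (hT : T ∈ IsoSet E) (x : E) : toEquiv T hT x = T x := rfl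

theorem exp_mem_isoSet (A : E →L[ℝ] E) (hA : ∀ u w, inner ℝ (A u) w = - inner ℝ u (A w)) (t : ℝ) :
    NormedSpace.exp (t • A) ∈ IsoSet E := by
  have : CompleteSpace E := FiniteDimensional.complete ℝ E
  let _ : NormedAlgebra ℚ (E →L[ℝ] E) := NormedAlgebra.restrictScalars ℚ ℝ _
  have h1 : t • A ∈ skewAdjoint (E →L[ℝ] E) := by
    rw [skewAdjoint.mem_iff, ContinuousLinearMap.star_eq_adjoint]
    symm
    rw [ContinuousLinearMap.eq_adjoint_iff]
    intro x y
    simp [inner_smul_left, inner_smul_right, hA]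
  have h2 := NormedSpace.exp_mem_unitary_of_mem_skewAdjoint h1
  intro x
  exact ContinuousLinearMap.norm_map_of_mem_unitary h2 x

variable {ι : Type*} [Fintype ι]

theorem crit (y X : ι → E) : ∃ g : E ≃ₗᵢ[ℝ] E,
    (∑ i, ‖g (y i) - X i‖ ^ 2 ≤ ∑ i, ‖y i - X i‖ ^ 2) ∧
    ∀ A : E →L[ℝ] E, (∀ u w, inner ℝ (A u) w = - inner ℝ u (A w)) →
      ∑ i, inner ℝ (A (g (y i))) (X i) = 0 := by
  have hcont : Continuous fun T : E →L[ℝ] E => ∑ i, inner ℝ (T (y i)) (X i) := by
    refine continuous_finsetSum _ fun i _ => ?_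
    exact ((ContinuousLinearMap.apply ℝ E (y i)).continuous).inner continuous_const
  have hne : (IsoSet E).Nonempty := ⟨ContinuousLinearMap.id ℝ E, fun x => rfl⟩
  obtain ⟨T, hT, hmax⟩ := isCompact_isoSet.exists_isMaxOn hne hcont.continuousOn
  refine ⟨toEquiv T hT, ?_, ?_⟩
  · have h1 := hmax (a := ContinuousLinearMap.id ℝ E) (fun x => rfl)
    simp only [ContinuousLinearMap.coe_id', id_eq, Set.mem_ofPred_eq] at h1
    have h2 : ∀ S : E →L[ℝ] E, S ∈ IsoSet E → ∑ i, ‖S (y i) - X i‖ ^ 2 =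
        ∑ i, ‖y i‖ ^ 2 + ∑ i, ‖X i‖ ^ 2 - 2 * ∑ i, inner ℝ (S (y i)) (X i) := by
      intro S hS
      rw [Finset.mul_sum, ← Finset.sum_add_distrib, ← Finset.sum_sub_distrib]
      refine Finset.sum_congr rfl fun i _ => ?_
      rw [@norm_sub_sq_real, hS]
      ring
    have h3 := h2 T hT
    have h4 := h2 (ContinuousLinearMap.id ℝ E) (fun x => rfl)
    simp only [ContinuousLinearMap.coe_id', id_eq] at h4
    simp only [toEquiv_apply]
    rw [h3, h4]
    linarith
  · intro A hA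
    have : CompleteSpace E := FiniteDimensional.complete ℝ E
    have hd : HasDerivAt (fun t : ℝ => NormedSpace.exp (t • A)) A 0 := by
      have := hasDerivAt_exp_smul_const A (0 : ℝ)
      simpa using this
    have hd2 : HasDerivAt (fun t : ℝ => ∑ i, inner ℝ (NormedSpace.exp (t • A) (T (y i))) (X i))
        (∑ i, inner ℝ (A (T (y i))) (X i)) 0 := by
      refine HasDerivAt.fun_sum fun i _ => ?_
      have h1 : HasDerivAt (fun t : ℝ => NormedSpace.exp (t • A) (T (y i))) (A (T (y i))) 0 := by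
        exact (ContinuousLinearMap.apply ℝ E (T (y i))).hasFDerivAt.comp_hasDerivAt (0 : ℝ) hd
      have h2 := h1.inner ℝ (hasDerivAt_const (0 : ℝ) (X i))
      simpa using h2
    have hloc : IsLocalMax (fun t : ℝ => ∑ i, inner ℝ (NormedSpace.exp (t • A) (T (y i))) (X i)) 0 := by
      refine Filter.Eventually.of_forall fun t => ?_
      have h1 : (NormedSpace.exp (t • A) : E →L[ℝ] E) ∘L T ∈ IsoSet E := by
        intro x
        rw [ContinuousLinearMap.comp_apply, exp_mem_isoSet A hA t, hT]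
      have h2 := hmax h1
      simpa using h2
    exact hloc.hasDerivAt_eq_zero hd2

/-- First order jamming of a family of unit vectors, for the bound `c` on inner products. -/
def InfJammed (X : ι → E) (c : ℝ) : Prop :=
  ∀ v : ι → E, (∀ i, inner ℝ (X i) (v i) = 0) →
    (∀ i j, i ≠ j → inner ℝ (X i) (X j) = c →
      inner ℝ (X i) (v j) + inner ℝ (X j) (v i) ≤ 0) →
    ∃ A : E →L[ℝ] E, (∀ u w, inner ℝ (A u) w = - inner ℝ u (A w)) ∧ ∀ i, v i = A (X i)

theorem isolated (X : ι → E) (c : ℝ) (hX : ∀ i, ‖X i‖ = 1) (hinf : InfJammed X c) :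
    ∃ ε : ℝ, 0 < ε ∧ ∀ y : ι → E, (∀ i, ‖y i‖ = 1) → (∀ i, ‖y i - X i‖ < ε) →
      (∀ i j, i ≠ j → inner ℝ (y i) (y j) ≤ c) →
      ∃ g : E ≃ₗᵢ[ℝ] E, ∀ i, y i = g (X i) := by
  by_contra hcon
  push Not at hcon
  have hε : ∀ k : ℕ, (0 : ℝ) < 1 / (k + 1) := fun k => Nat.one_div_pos_of_nat
  choose y hy1 hy2 hy3 hy4 using fun k : ℕ => hcon (1 / (k + 1)) (hε k)
  choose g hg1 hg2 using fun k : ℕ => crit (y k) X
  have : ProperSpace E := FiniteDimensional.proper ℝ E
  set w : ℕ → ι → E := fun k i => g k (y k i) - X i with hw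
  have hwne : ∀ k, w k ≠ 0 := by
    intro k h0
    obtain ⟨i, hi⟩ := hy4 k (g k).symm
    apply hi
    have := congrFun h0 i
    simp only [hw, Pi.zero_apply, sub_eq_zero] at this
    rw [← this, LinearIsometryEquiv.symm_apply_apply]
  have hwi : ∀ k i, ‖w k i‖ ^ 2 ≤ (Fintype.card ι : ℝ) * (1 / (k + 1)) ^ 2 := by
    intro k i
    calc ‖w k i‖ ^ 2 ≤ ∑ j, ‖w k j‖ ^ 2 :=
          Finset.single_le_sum (f := fun j => ‖w k j‖ ^ 2) (fun j _ => by positivity)
            (Finset.mem_univ i)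
      _ ≤ ∑ j, ‖y k j - X j‖ ^ 2 := hg1 k
      _ ≤ ∑ _j : ι, (1 / ((k : ℝ) + 1)) ^ 2 := by
          refine Finset.sum_le_sum fun j _ => ?_
          exact pow_le_pow_left₀ (norm_nonneg _) (hy2 k j).le 2
      _ = _ := by simp
  have hw0 : Tendsto (fun k => w k) atTop (𝓝 0) := by
    rw [tendsto_pi_nhds]
    intro i
    rw [Pi.zero_apply, tendsto_zero_iff_norm_tendsto_zero]
    have h1 : Tendsto (fun k : ℕ => (Fintype.card ι : ℝ) * (1 / ((k : ℝ) + 1)) ^ 2) atTop (𝓝 0) := by
      have := (tendsto_one_div_add_atTop_nhds_zero_nat (𝕜 := ℝ)).pow 2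
      have := this.const_mul (Fintype.card ι : ℝ)
      simpa using this
    have h2 : Tendsto (fun k : ℕ => ‖w k i‖ ^ 2) atTop (𝓝 0) :=
      squeeze_zero (fun k => by positivity) (fun k => hwi k i) h1
    have h3 := h2.sqrt
    simpa [Real.sqrt_sq (norm_nonneg _)] using h3
  set u : ℕ → ι → E := fun k => ‖w k‖⁻¹ • w k with hu
  have hunorm : ∀ k, ‖u k‖ = 1 := by
    intro k
    rw [hu]
    simp only [norm_smul, norm_inv, norm_norm]
    exact inv_mul_cancel₀ (norm_ne_zero_iff.mpr (hwne k))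
  obtain ⟨a, ha, φ, hφ, hlim⟩ := (isCompact_sphere (0 : ι → E) 1).tendsto_subseq
    (x := u) (fun k => by rw [mem_sphere_zero_iff_norm]; exact hunorm k)
  rw [mem_sphere_zero_iff_norm] at ha
  have hlimi : ∀ i, Tendsto (fun k => u (φ k) i) atTop (𝓝 (a i)) := fun i =>
    (tendsto_pi_nhds.mp hlim) i
  have hw0' : Tendsto (fun k => ‖w (φ k)‖) atTop (𝓝 0) := by
    have := (hw0.comp hφ.tendsto_atTop).norm
    simpa using this
  have hwpos : ∀ k, 0 < ‖w k‖ := fun k => norm_pos_iff.mpr (hwne k)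
  -- tangency
  have hgy : ∀ k i, ‖X i + w k i‖ = 1 := by
    intro k i
    simp only [hw]
    rw [add_sub_cancel, LinearIsometryEquiv.norm_map, hy1]
  have ht1 : ∀ k i, inner ℝ (X i) (w k i) = - (‖w k i‖ ^ 2) / 2 := by
    intro k i
    have h1 := @norm_add_sq_real E _ _ (X i) (w k i)
    rw [hgy, hX] at h1
    linarith
  have ht : ∀ i, inner ℝ (X i) (a i) = 0 := by
    intro i
    have h1 : Tendsto (fun k => inner ℝ (X i) (u (φ k) i)) atTop (𝓝 (inner ℝ (X i) (a i))) :=
      tendsto_const_nhds.inner (hlimi i)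
    have h2 : Tendsto (fun k => inner ℝ (X i) (u (φ k) i)) atTop (𝓝 0) := by
      refine squeeze_zero_norm (a := fun k => ‖w (φ k)‖) (fun k => ?_) hw0'
      simp only [hu, Pi.smul_apply, inner_smul_right]
      rw [ht1, norm_mul, norm_inv, norm_norm, norm_div, norm_neg, norm_pow, norm_norm]
      have h3 : ‖w (φ k) i‖ ≤ ‖w (φ k)‖ := norm_le_pi_norm _ i
      have h4 := hwpos (φ k)
      rw [inv_mul_le_iff₀ h4, Real.norm_two]
      nlinarith [norm_nonneg (w (φ k) i)]
    exact tendsto_nhds_unique h1 h2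
  have hc : ∀ i j, i ≠ j → inner ℝ (X i) (X j) = c →
      inner ℝ (X i) (a j) + inner ℝ (X j) (a i) ≤ 0 := by
    intro i j hij hXij
    have h1 : Tendsto (fun k => inner ℝ (X i) (u (φ k) j) + inner ℝ (X j) (u (φ k) i)) atTop
        (𝓝 (inner ℝ (X i) (a j) + inner ℝ (X j) (a i))) :=
      (tendsto_const_nhds.inner (hlimi j)).add (tendsto_const_nhds.inner (hlimi i))
    refine le_of_tendsto_of_tendsto' h1 hw0' fun k => ?_
    simp only [hu, Pi.smul_apply, inner_smul_right]
    rw [← mul_add, inv_mul_le_iff₀ (hwpos (φ k))]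
    have h2 : inner ℝ (X i + w (φ k) i) (X j + w (φ k) j) ≤ c := by
      have : ∀ i, X i + w (φ k) i = g (φ k) (y (φ k) i) := by
        intro i; simp only [hw]; rw [add_sub_cancel]
      rw [this, this, LinearIsometryEquiv.inner_map_map]
      exact hy3 _ i j hij
    rw [inner_add_left, inner_add_right, inner_add_right, hXij] at h2
    have h3 : -(‖w (φ k) i‖ * ‖w (φ k) j‖) ≤ inner ℝ (w (φ k) i) (w (φ k) j) :=
      neg_le_of_abs_le (abs_real_inner_le_norm _ _)
    have h4 : ‖w (φ k) i‖ ≤ ‖w (φ k)‖ := norm_le_pi_norm _ i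
    have h5 : ‖w (φ k) j‖ ≤ ‖w (φ k)‖ := norm_le_pi_norm _ j
    have h6 : inner ℝ (w (φ k) i) (X j) = inner ℝ (X j) (w (φ k) i) := real_inner_comm _ _
    have h7 : ‖w (φ k) i‖ * ‖w (φ k) j‖ ≤ ‖w (φ k)‖ * ‖w (φ k)‖ :=
      mul_le_mul h4 h5 (norm_nonneg _) (norm_nonneg _)
    linarith
  obtain ⟨A, hA, hAa⟩ := hinf a ht hc
  have horth : ∑ i, inner ℝ (A (a i)) (X i) = 0 := by
    have h1 : Tendsto (fun k => ∑ i, inner ℝ (A (u (φ k) i)) (X i)) atTop
        (𝓝 (∑ i, inner ℝ (A (a i)) (X i))) := by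
      refine tendsto_finsetSum _ fun i _ => ?_
      exact ((A.continuous.tendsto _).comp (hlimi i)).inner tendsto_const_nhds
    have h2 : ∀ k, ∑ i, inner ℝ (A (u (φ k) i)) (X i) = 0 := by
      intro k
      have h3 := hg2 (φ k) A hA
      have h4 : ∀ i, inner ℝ (A (X i)) (X i) = (0 : ℝ) := by
        intro i
        have := hA (X i) (X i)
        rw [real_inner_comm (A (X i)) (X i)] at this
        linarith
      have h5 : ∀ i, inner ℝ (A (u (φ k) i)) (X i) =
          ‖w (φ k)‖⁻¹ * inner ℝ (A (g (φ k) (y (φ k) i))) (X i) := by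
        intro i
        simp only [hu, hw, Pi.smul_apply, map_smul, map_sub, inner_smul_left, inner_sub_left, h4,
          sub_zero]
        simp
      rw [Finset.sum_congr rfl fun i _ => h5 i, ← Finset.mul_sum, h3, mul_zero]
    simp only [h2] at h1
    exact (tendsto_nhds_unique h1 tendsto_const_nhds)
  have hzero : ∀ i, a i = 0 := by
    have h1 : ∑ i, ‖a i‖ ^ 2 = 0 := by
      have h2 : ∀ i, inner ℝ (A (a i)) (X i) = - ‖a i‖ ^ 2 := by
        intro i
        rw [hA, ← hAa, real_inner_self_eq_norm_sq]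
      rw [Finset.sum_congr rfl fun i _ => h2 i, Finset.sum_neg_distrib] at horth
      linarith
    intro i
    have h3 := (Finset.sum_eq_zero_iff_of_nonneg (fun i _ => by positivity)).mp h1 i
      (Finset.mem_univ i)
    simpa using h3
  have : a = 0 := funext hzero
  rw [this, norm_zero] at ha
  exact zero_ne_one ha

/-- First order jammed codes are jammed. -/
theorem jammed_of_infJammed (X : ι → E) (c : ℝ) (hX : ∀ i, ‖X i‖ = 1) (hinf : InfJammed X c)
    (γ : ι → unitInterval → E) (hγ : ∀ i, Continuous (γ i)) (h0 : ∀ i, γ i 0 = X i)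
    (h1 : ∀ i t, ‖γ i t‖ = 1) (h2 : ∀ i j, i ≠ j → ∀ t, inner ℝ (γ i t) (γ j t) ≤ c)
    (t : unitInterval) : ∃ g : E ≃ₗᵢ[ℝ] E, ∀ i, γ i t = g (X i) := by
  obtain ⟨ε, hε, hiso⟩ := isolated X c hX hinf
  set S : Set unitInterval := {t | ∃ g : E ≃ₗᵢ[ℝ] E, ∀ i, γ i t = g (X i)} with hS
  have hγc : Continuous fun t => fun i => γ i t := continuous_pi hγ
  have hclosed : IsClosed S := by
    have hK : IsCompact ((fun T : E →L[ℝ] E => fun i => T (X i)) '' IsoSet E) := by
      refine isCompact_isoSet.image (continuous_pi fun i => ?_)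
      exact (ContinuousLinearMap.apply ℝ E (X i)).continuous
    have h3 : S = (fun t => fun i => γ i t) ⁻¹'
        ((fun T : E →L[ℝ] E => fun i => T (X i)) '' IsoSet E) := by
      ext t
      simp only [hS, Set.mem_ofPred_eq, Set.mem_preimage, Set.mem_image]
      constructor
      · rintro ⟨g, hg⟩
        exact ⟨_, mem_isoSet_equiv g, funext fun i => (hg i).symm⟩
      · rintro ⟨T, hT, hTX⟩
        exact ⟨toEquiv T hT, fun i => (congrFun hTX i).symm⟩
    rw [h3]
    exact hK.isClosed.preimage hγc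
  have hopen : IsOpen S := by
    rw [isOpen_iff_mem_nhds]
    rintro t ⟨g, hg⟩
    have h3 : ∀ᶠ s in 𝓝 t, ∀ i, ‖γ i s - γ i t‖ < ε := by
      rw [Filter.eventually_all]
      intro i
      have := (hγ i).tendsto t
      rw [Metric.tendsto_nhds] at this
      simpa [dist_eq_norm] using this ε hε
    filter_upwards [h3] with s hs
    obtain ⟨g', hg'⟩ := hiso (fun i => g.symm (γ i s)) (fun i => by rw [g.symm.norm_map, h1])
      (fun i => by
        have h4 : X i = g.symm (γ i t) := by rw [hg, g.symm_apply_apply]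
        rw [h4, ← map_sub, g.symm.norm_map]
        exact hs i)
      (fun i j hij => by rw [g.symm.inner_map_map]; exact h2 i j hij s)
    refine ⟨g'.trans g, fun i => ?_⟩
    rw [LinearIsometryEquiv.trans_apply, ← hg' i, g.apply_symm_apply]
  have hne : S.Nonempty := ⟨0, LinearIsometryEquiv.refl ℝ E, fun i => h0 i⟩
  have huniv : S = Set.univ := IsClopen.eq_univ ⟨hclosed, hopen⟩ hne
  have : t ∈ S := by rw [huniv]; trivial
  exact this

end

end Pool.Agent.H976R3.Kiss
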