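import Pool.Agent.H976R3.Kiss.Jam

/-!
# A second order criterion for jamming
-/

set_option autoImplicit false

namespace Pool.Agent.H976R3.Kiss

open Filter Topology

section

variable {E : Type*} [NormedAddCommGroup E] [InnerProductSpace ℝ E] [FiniteDimensional ℝ E]
variable {ι : Type*} [Fintype ι]

/-- The second order criterion: if the quadratic function `q` is nonpositive on the displacements
to admissible configurations and positive on the nonzero first order motions orthogonal to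
the rotations, then the family is isolated up to rotations. -/
theorem isolated2 (X : ι → E) (c : ℝ) (hX : ∀ i, ‖X i‖ = 1) (q : (ι → E) → ℝ)
    (hqc : Continuous q) (hqs : ∀ (r : ℝ) (d : ι → E), q (r • d) = r ^ 2 * q d)
    (hq : ∀ y : ι → E, (∀ i, ‖y i‖ = 1) → (∀ i j, i ≠ j → inner ℝ (y i) (y j) ≤ c) →
      q (fun i => y i - X i) ≤ 0)
    (hflex : ∀ v : ι → E, (∀ i, inner ℝ (X i) (v i) = 0) →
      (∀ i j, i ≠ j → inner ℝ (X i) (X j) = c →
        inner ℝ (X i) (v j) + inner ℝ (X j) (v i) ≤ 0) →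
      (∀ A : E →L[ℝ] E, (∀ u w, inner ℝ (A u) w = - inner ℝ u (A w)) →
        ∑ i, inner ℝ (A (v i)) (X i) = 0) → q v ≤ 0 → v = 0) :
    ∃ ε : ℝ, 0 < ε ∧ ∀ y : ι → E, (∀ i, ‖y i‖ = 1) → (∀ i, ‖y i - X i‖ < ε) →
      (∀ i j, i ≠ j → inner ℝ (y i) (y j) ≤ c) →
      ∃ g : E ≃ₗᵢ[ℝ] E, ∀ i, y i = g (X i) := by
  by_contra hcon
  push Not at hcon
  have hε : ∀ k : ℕ, (0 : ℝ) < 1 / (k + 1) := fun k => Nat.one_div_pos_of_nat
  choose y hy1 hy2 hy3 hy4 using fun k : ℕ => hcon (1 / (k + 1)) (hε k)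
  choose g hg1 hg2 using fun k : ℕ => crit (y k) X
  have : ProperSpace E := FiniteDimensional.proper ℝ E
  set w : ℕ → ι → E := fun k i => g k (y k i) - X i with hw
  have hwne : ∀ k, w k ≠ 0 := by
    intro k h0
    obtain ⟨i, hi⟩ := hy4 k (g k).symm
    apply hi
    have := congrFun h0 i
    simp only [hw, Pi.zero_apply, sub_eq_zero] at this
    rw [← this, LinearIsometryEquiv.symm_apply_apply]
  have hwi : ∀ k i, ‖w k i‖ ^ 2 ≤ (Fintype.card ι : ℝ) * (1 / (k + 1)) ^ 2 := by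
    intro k i
    calc ‖w k i‖ ^ 2 ≤ ∑ j, ‖w k j‖ ^ 2 :=
          Finset.single_le_sum (f := fun j => ‖w k j‖ ^ 2) (fun j _ => by positivity)
            (Finset.mem_univ i)
      _ ≤ ∑ j, ‖y k j - X j‖ ^ 2 := hg1 k
      _ ≤ ∑ _j : ι, (1 / ((k : ℝ) + 1)) ^ 2 := by
          refine Finset.sum_le_sum fun j _ => ?_
          exact pow_le_pow_left₀ (norm_nonneg _) (hy2 k j).le 2
      _ = _ := by simp
  have hw0 : Tendsto (fun k => w k) atTop (𝓝 0) := by
    rw [tendsto_pi_nhds]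
    intro i
    rw [Pi.zero_apply, tendsto_zero_iff_norm_tendsto_zero]
    have h1 : Tendsto (fun k : ℕ => (Fintype.card ι : ℝ) * (1 / ((k : ℝ) + 1)) ^ 2) atTop (𝓝 0) := by
      have := (tendsto_one_div_add_atTop_nhds_zero_nat (𝕜 := ℝ)).pow 2
      have := this.const_mul (Fintype.card ι : ℝ)
      simpa using this
    have h2 : Tendsto (fun k : ℕ => ‖w k i‖ ^ 2) atTop (𝓝 0) :=
      squeeze_zero (fun k => by positivity) (fun k => hwi k i) h1
    have h3 := h2.sqrt
    simpa [Real.sqrt_sq (norm_nonneg _)] using h3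
  set u : ℕ → ι → E := fun k => ‖w k‖⁻¹ • w k with hu
  have hunorm : ∀ k, ‖u k‖ = 1 := by
    intro k
    rw [hu]
    simp only [norm_smul, norm_inv, norm_norm]
    exact inv_mul_cancel₀ (norm_ne_zero_iff.mpr (hwne k))
  obtain ⟨a, ha, φ, hφ, hlim⟩ := (isCompact_sphere (0 : ι → E) 1).tendsto_subseq
    (x := u) (fun k => by rw [mem_sphere_zero_iff_norm]; exact hunorm k)
  rw [mem_sphere_zero_iff_norm] at ha
  have hlimi : ∀ i, Tendsto (fun k => u (φ k) i) atTop (𝓝 (a i)) := fun i =>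
    (tendsto_pi_nhds.mp hlim) i
  have hw0' : Tendsto (fun k => ‖w (φ k)‖) atTop (𝓝 0) := by
    have := (hw0.comp hφ.tendsto_atTop).norm
    simpa using this
  have hwpos : ∀ k, 0 < ‖w k‖ := fun k => norm_pos_iff.mpr (hwne k)
  -- tangency
  have hgy : ∀ k i, ‖X i + w k i‖ = 1 := by
    intro k i
    simp only [hw]
    rw [add_sub_cancel, LinearIsometryEquiv.norm_map, hy1]
  have ht1 : ∀ k i, inner ℝ (X i) (w k i) = - (‖w k i‖ ^ 2) / 2 := by
    intro k i
    have h1 := @norm_add_sq_real E _ _ (X i) (w k i)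
    rw [hgy, hX] at h1
    linarith
  have ht : ∀ i, inner ℝ (X i) (a i) = 0 := by
    intro i
    have h1 : Tendsto (fun k => inner ℝ (X i) (u (φ k) i)) atTop (𝓝 (inner ℝ (X i) (a i))) :=
      tendsto_const_nhds.inner (hlimi i)
    have h2 : Tendsto (fun k => inner ℝ (X i) (u (φ k) i)) atTop (𝓝 0) := by
      refine squeeze_zero_norm (a := fun k => ‖w (φ k)‖) (fun k => ?_) hw0'
      simp only [hu, Pi.smul_apply, inner_smul_right]
      rw [ht1, norm_mul, norm_inv, norm_norm, norm_div, norm_neg, norm_pow, norm_norm]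
      have h3 : ‖w (φ k) i‖ ≤ ‖w (φ k)‖ := norm_le_pi_norm _ i
      have h4 := hwpos (φ k)
      rw [inv_mul_le_iff₀ h4, Real.norm_two]
      nlinarith [norm_nonneg (w (φ k) i)]
    exact tendsto_nhds_unique h1 h2
  have hc : ∀ i j, i ≠ j → inner ℝ (X i) (X j) = c →
      inner ℝ (X i) (a j) + inner ℝ (X j) (a i) ≤ 0 := by
    intro i j hij hXij
    have h1 : Tendsto (fun k => inner ℝ (X i) (u (φ k) j) + inner ℝ (X j) (u (φ k) i)) atTop
        (𝓝 (inner ℝ (X i) (a j) + inner ℝ (X j) (a i))) :=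
      (tendsto_const_nhds.inner (hlimi j)).add (tendsto_const_nhds.inner (hlimi i))
    refine le_of_tendsto_of_tendsto' h1 hw0' fun k => ?_
    simp only [hu, Pi.smul_apply, inner_smul_right]
    rw [← mul_add, inv_mul_le_iff₀ (hwpos (φ k))]
    have h2 : inner ℝ (X i + w (φ k) i) (X j + w (φ k) j) ≤ c := by
      have : ∀ i, X i + w (φ k) i = g (φ k) (y (φ k) i) := by
        intro i; simp only [hw]; rw [add_sub_cancel]
      rw [this, this, LinearIsometryEquiv.inner_map_map]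
      exact hy3 _ i j hij
    rw [inner_add_left, inner_add_right, inner_add_right, hXij] at h2
    have h3 : -(‖w (φ k) i‖ * ‖w (φ k) j‖) ≤ inner ℝ (w (φ k) i) (w (φ k) j) :=
      neg_le_of_abs_le (abs_real_inner_le_norm _ _)
    have h4 : ‖w (φ k) i‖ ≤ ‖w (φ k)‖ := norm_le_pi_norm _ i
    have h5 : ‖w (φ k) j‖ ≤ ‖w (φ k)‖ := norm_le_pi_norm _ j
    have h6 : inner ℝ (w (φ k) i) (X j) = inner ℝ (X j) (w (φ k) i) := real_inner_comm _ _
    have h7 : ‖w (φ k) i‖ * ‖w (φ k) j‖ ≤ ‖w (φ k)‖ * ‖w (φ k)‖ :=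
      mul_le_mul h4 h5 (norm_nonneg _) (norm_nonneg _)
    linarith
  have horth : ∀ A : E →L[ℝ] E, (∀ u w, inner ℝ (A u) w = - inner ℝ u (A w)) →
      ∑ i, inner ℝ (A (a i)) (X i) = 0 := by
    intro A hA
    have h1 : Tendsto (fun k => ∑ i, inner ℝ (A (u (φ k) i)) (X i)) atTop
        (𝓝 (∑ i, inner ℝ (A (a i)) (X i))) := by
      refine tendsto_finsetSum _ fun i _ => ?_
      exact ((A.continuous.tendsto _).comp (hlimi i)).inner tendsto_const_nhds
    have h2 : ∀ k, ∑ i, inner ℝ (A (u (φ k) i)) (X i) = 0 := by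
      intro k
      have h3 := hg2 (φ k) A hA
      have h4 : ∀ i, inner ℝ (A (X i)) (X i) = (0 : ℝ) := by
        intro i
        have := hA (X i) (X i)
        rw [real_inner_comm (A (X i)) (X i)] at this
        linarith
      have h5 : ∀ i, inner ℝ (A (u (φ k) i)) (X i) =
          ‖w (φ k)‖⁻¹ * inner ℝ (A (g (φ k) (y (φ k) i))) (X i) := by
        intro i
        simp only [hu, hw, Pi.smul_apply, map_smul, map_sub, inner_smul_left, inner_sub_left, h4,
          sub_zero]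
        simp
      rw [Finset.sum_congr rfl fun i _ => h5 i, ← Finset.mul_sum, h3, mul_zero]
    simp only [h2] at h1
    exact (tendsto_nhds_unique h1 tendsto_const_nhds)
  have hqa : q a ≤ 0 := by
    have h1 : Tendsto (fun k => q (u (φ k))) atTop (𝓝 (q a)) := (hqc.tendsto a).comp hlim
    refine le_of_tendsto h1 (Filter.Eventually.of_forall fun k => ?_)
    have h2 : q (u (φ k)) = (‖w (φ k)‖⁻¹) ^ 2 * q (w (φ k)) := hqs _ _
    rw [h2]
    refine mul_nonpos_of_nonneg_of_nonpos (by positivity) ?_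
    exact hq (fun i => g (φ k) (y (φ k) i)) (fun i => by rw [LinearIsometryEquiv.norm_map, hy1])
      (fun i j hij => by rw [LinearIsometryEquiv.inner_map_map]; exact hy3 _ i j hij)
  have : a = 0 := hflex a ht hc horth hqa
  rw [this, norm_zero] at ha
  exact zero_ne_one ha

end

end Pool.Agent.H976R3.Kiss
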