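import Pool.Agent.H976R3.Kiss.Code

/-!
# The second order Reed-Muller code has the rigidity property
-/

set_option autoImplicit false

namespace Pool.Agent.H976R3.Kiss

/-- The points of the space of dimension `m` over the field with two elements. -/
abbrev Pt (m : ℕ) := Fin m → ZMod 2

/-- The map from coefficients to functions of degree at most two. -/
def qmap (m : ℕ) : (ZMod 2 × (Fin m → Fin m → ZMod 2)) →ₗ[ZMod 2] (Pt m → ZMod 2) where
  toFun p := fun x => p.1 + ∑ i, ∑ j, p.2 i j * (x i * x j)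
  map_add' := by
    intro p p'
    ext x
    simp only [Prod.fst_add, Prod.snd_add, Pi.add_apply, add_mul, Finset.sum_add_distrib]
    ring
  map_smul' := by
    intro r p
    ext x
    simp only [Prod.smul_fst, Prod.smul_snd, Pi.smul_apply, smul_eq_mul, RingHom.id_apply,
      mul_add, Finset.mul_sum, mul_assoc]

theorem qmap_apply {m : ℕ} (p : ZMod 2 × (Fin m → Fin m → ZMod 2)) (x : Pt m) :
    qmap m p x = p.1 + ∑ i, ∑ j, p.2 i j * (x i * x j) := rfl

/-- The second order Reed-Muller code of length `2 ^ m`. -/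
def RM2 (m : ℕ) : Submodule (ZMod 2) (Pt m → ZMod 2) := LinearMap.range (qmap m)

theorem zmod2_mul_self (a : ZMod 2) : a * a = a := by
  rcases zmod2_cases a with h | h <;> subst h <;> decide

theorem card_pt (m : ℕ) : Fintype.card (Pt m) = 2 ^ m := by
  simp [Pt, ZMod.card]

section mindist

variable {m : ℕ}

theorem wt_deriv (f : Pt m → ZMod 2) (h : Pt m) : wt (fun x => f (x + h) + f x) ≤ 2 * wt f := by
  classical
  have h1 : (Finset.univ.filter fun x : Pt m => f (x + h) + f x ≠ 0) ⊆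
      (Finset.univ.filter fun x => f (x + h) ≠ 0) ∪ (Finset.univ.filter fun x => f x ≠ 0) := by
    intro x hx
    simp only [Finset.mem_union, Finset.mem_filter, Finset.mem_univ, true_and] at hx ⊢
    by_contra hcon
    push Not at hcon
    exact hx (by rw [hcon.1, hcon.2, add_zero])
  have h2 : (Finset.univ.filter fun x : Pt m => f (x + h) ≠ 0).card =
      (Finset.univ.filter fun x => f x ≠ 0).card :=
    wt_comp (Equiv.addRight h) f
  calc wt (fun x => f (x + h) + f x) ≤ _ := Finset.card_le_card h1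
    _ ≤ _ := Finset.card_union_le _ _
    _ = 2 * wt f := by rw [h2]; unfold wt; ring

theorem wt_of_all (f : Pt m → ZMod 2) (hf : ∀ x, f x ≠ 0) : wt f = 2 ^ m := by
  unfold wt
  rw [Finset.filter_true_of_mem (fun x _ => hf x), Finset.card_univ, card_pt]

theorem wt_affine (a : Pt m) (b : ZMod 2) (hne : (fun x : Pt m => a ⬝ᵥ x + b) ≠ 0) :
    2 ^ m ≤ 2 * wt (fun x : Pt m => a ⬝ᵥ x + b) := by
  by_cases h : ∃ x : Pt m, a ⬝ᵥ x ≠ 0
  · obtain ⟨h, hh⟩ := h
    have h1 := wt_deriv (fun x : Pt m => a ⬝ᵥ x + b) h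
    have h2 : wt (fun x : Pt m => (a ⬝ᵥ (x + h) + b) + (a ⬝ᵥ x + b)) = 2 ^ m := by
      apply wt_of_all
      intro x
      have : a ⬝ᵥ (x + h) + b + (a ⬝ᵥ x + b) = a ⬝ᵥ h := by
        rw [dotProduct_add]
        linear_combination zmod2_add_self (a ⬝ᵥ x) + zmod2_add_self b
      rw [this]; exact hh
    omega
  · push Not at h
    have hb : b ≠ 0 := by
      rintro rfl
      exact hne (funext fun x => by simp [h])
    rw [wt_of_all _ (fun x => by rw [h, zero_add]; exact hb)]
    omega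

theorem wt_RM2 (f : Pt m → ZMod 2) (hf : f ∈ RM2 m) (hne : f ≠ 0) : 2 ^ m ≤ 4 * wt f := by
  obtain ⟨p, rfl⟩ := hf
  by_cases h : ∃ h : Pt m, (fun x => qmap m p (x + h) + qmap m p x) ≠ 0
  · obtain ⟨h, hh⟩ := h
    have h1 := wt_deriv (qmap m p) h
    have h2 : (fun x => qmap m p (x + h) + qmap m p x) =
        fun x : Pt m => (fun j => ∑ i, (p.2 i j * h i + p.2 j i * h i)) ⬝ᵥ x +
          ∑ i, ∑ j, p.2 i j * (h i * h j) := by
      ext x
      rw [qmap_apply, qmap_apply]
      have h3 : ∑ i, ∑ j, p.2 i j * ((x + h) i * (x + h) j) =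
          ∑ i, ∑ j, p.2 i j * (x i * x j) + ((∑ i, ∑ j, p.2 i j * (x i * h j)) +
          (∑ i, ∑ j, p.2 i j * (h i * x j))) + ∑ i, ∑ j, p.2 i j * (h i * h j) := by
        simp only [← Finset.sum_add_distrib]
        refine Finset.sum_congr rfl fun i _ => Finset.sum_congr rfl fun j _ => ?_
        simp only [Pi.add_apply]
        ring
      have h4 : (fun j => ∑ i, (p.2 i j * h i + p.2 j i * h i)) ⬝ᵥ x =
          (∑ i, ∑ j, p.2 i j * (x i * h j)) + (∑ i, ∑ j, p.2 i j * (h i * x j)) := by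
        unfold dotProduct
        rw [add_comm]
        nth_rewrite 1 [Finset.sum_comm]
        simp only [← Finset.sum_add_distrib, Finset.sum_mul]
        refine Finset.sum_congr rfl fun i _ => Finset.sum_congr rfl fun j _ => ?_
        ring
      rw [h3, h4]
      linear_combination zmod2_add_self p.1 +
        zmod2_add_self (∑ i, ∑ j, p.2 i j * (x i * x j))
    rw [h2] at hh h1
    have h3 := wt_affine _ _ hh
    omega
  · push Not at h
    have h1 : ∀ x, qmap m p x = qmap m p 0 := by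
      intro x
      have h2 := congrFun (h x) 0
      simp only [zero_add, Pi.zero_apply] at h2
      have h3 := zmod2_add_self (qmap m p 0)
      linear_combination h2 - h3
    have h2 : qmap m p 0 ≠ 0 := by
      intro h0
      exact hne (funext fun x => by rw [h1, h0]; rfl)
    rw [wt_of_all _ (fun x => by rw [h1]; exact h2)]
    omega

end mindist

section flats

variable {m : ℕ}

/-- The indicator function of a flat of codimension two. -/
def fl (a : Pt m) (ε : ZMod 2) (b : Pt m) (δ : ZMod 2) : Pt m → ZMod 2 :=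
  fun x => (a ⬝ᵥ x + ε) * (b ⬝ᵥ x + δ)

theorem fl_mem (a : Pt m) (ε : ZMod 2) (b : Pt m) (δ : ZMod 2) : fl a ε b δ ∈ RM2 m := by
  classical
  refine ⟨(ε * δ, fun i j => a i * b j + if i = j then δ * a i + ε * b i else 0), ?_⟩
  ext x
  rw [qmap_apply]
  have h1 : ∑ i, ∑ j, (a i * b j + if i = j then δ * a i + ε * b i else 0) * (x i * x j) =
      (a ⬝ᵥ x) * (b ⬝ᵥ x) + (δ * (a ⬝ᵥ x) + ε * (b ⬝ᵥ x)) := by
    simp only [add_mul, Finset.sum_add_distrib]
    congr 1
    · unfold dotProduct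
      rw [Finset.sum_mul_sum]
      refine Finset.sum_congr rfl fun i _ => Finset.sum_congr rfl fun j _ => ?_
      ring
    · simp only [ite_mul, zero_mul, Finset.sum_ite_eq, Finset.mem_univ, if_true]
      unfold dotProduct
      rw [Finset.mul_sum, Finset.mul_sum, ← Finset.sum_add_distrib]
      refine Finset.sum_congr rfl fun i _ => ?_
      rw [zmod2_mul_self]
      ring
  simp only [h1, fl]
  ring

/-- The Fourier transform of a real function. -/
noncomputable def ft (z : Pt m → ℝ) (a : Pt m) : ℝ := ∑ x, sg (a ⬝ᵥ x) * z x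

theorem ft_zero (z : Pt m → ℝ) : ft z 0 = ∑ x, z x := by
  unfold ft
  refine Finset.sum_congr rfl fun x _ => ?_
  rw [zero_dotProduct, sg_zero, one_mul]

theorem ft_inj {z z' : Pt m → ℝ} (h : ∀ a, ft z a = ft z' a) : z = z' := by
  ext c
  have h1 := inversion z c
  have h2 := inversion z' c
  have hpos : (0 : ℝ) < (Fintype.card (Fin m → ZMod 2) : ℝ) := by exact_mod_cast Fintype.card_pos
  have h3 : ∀ s : Pt m, ∑ d, sg (s ⬝ᵥ d) * z d = ∑ d, sg (s ⬝ᵥ d) * z' d := h
  rw [Finset.sum_congr rfl fun s _ => by rw [h3 s], h2] at h1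
  exact (mul_left_cancel₀ hpos.ne' h1).symm

theorem fl_sum (z : Pt m → ℝ) (a : Pt m) (ε : ZMod 2) (b : Pt m) (δ : ZMod 2) :
    ∑ x, (if fl a ε b δ x = 0 then 0 else z x) =
      (ft z 0 - sg ε * ft z a - sg δ * ft z b + sg (ε + δ) * ft z (a + b)) / 4 := by
  unfold ft
  rw [Finset.mul_sum, Finset.mul_sum, Finset.mul_sum, ← Finset.sum_sub_distrib,
    ← Finset.sum_sub_distrib, ← Finset.sum_add_distrib, Finset.sum_div]
  refine Finset.sum_congr rfl fun x _ => ?_
  rw [zero_dotProduct, sg_zero, add_dotProduct, sg_add, sg_add]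
  unfold fl
  rcases zmod2_cases (a ⬝ᵥ x) with h1 | h1 <;> rcases zmod2_cases (b ⬝ᵥ x) with h2 | h2 <;>
  rcases zmod2_cases ε with h3 | h3 <;> rcases zmod2_cases δ with h4 | h4 <;>
  rw [h1, h2, h3, h4] <;> simp [sg_zero, sg_one, zmod2_add_self] <;> ring

theorem ft_one {a : Pt m} (ha : a ≠ 0) : ft (fun _ => (1 : ℝ)) a = 0 := by
  unfold ft
  have h1 := sum_char a
  rw [if_neg ha] at h1
  rw [← h1]
  refine Finset.sum_congr rfl fun x _ => ?_
  rw [mul_one, dotProduct_comm]

theorem wt_fl {a b : Pt m} (ha : a ≠ 0) (hb : b ≠ 0) (hab : a ≠ b) (ε δ : ZMod 2) :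
    4 * wt (fl a ε b δ) = 2 ^ m := by
  have hab' : a + b ≠ 0 := by
    intro h
    apply hab
    have := word_add_add a b
    rw [h, zero_add] at this
    exact this.symm
  have h1 := fl_sum (fun _ => (1 : ℝ)) a ε b δ
  rw [ft_one ha, ft_one hb, ft_one hab', ft_zero] at h1
  have h2 : ∑ x, (if fl a ε b δ x = 0 then (0 : ℝ) else 1) = wt (fl a ε b δ) := by
    unfold wt
    rw [← Finset.sum_boole]
    refine Finset.sum_congr rfl fun x _ => ?_
    by_cases h : fl a ε b δ x = 0 <;> simp [h]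
  rw [h2] at h1
  have h3 : ∑ _x : Pt m, (1 : ℝ) = 2 ^ m := by
    rw [Finset.sum_const, Finset.card_univ, card_pt]; simp
  rw [h3] at h1
  have h4 : (4 : ℝ) * wt (fl a ε b δ) = 2 ^ m := by linarith
  exact_mod_cast h4

theorem quad_fl {a b : Pt m} (ha : a ≠ 0) (hb : b ≠ 0) (hab : a ≠ b) (ε δ : ZMod 2) :
    Quad (RM2 m) (fl a ε b δ) := by
  refine ⟨![fl a ε b δ, fl a (ε + 1) b δ, fl a ε b (δ + 1), fl a (ε + 1) b (δ + 1)], ⟨0, rfl⟩,
    ?_, ?_, ?_⟩
  · intro t; fin_cases t <;> exact fl_mem _ _ _ _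
  · intro t; rw [card_pt]; fin_cases t <;> exact wt_fl ha hb hab _ _
  · intro x
    rw [Fin.sum_univ_four]
    show sg (fl a ε b δ x) + sg (fl a (ε + 1) b δ x) + sg (fl a ε b (δ + 1) x) +
      sg (fl a (ε + 1) b (δ + 1) x) = 2
    unfold fl
    rw [← add_assoc, ← add_assoc]
    rcases zmod2_cases (a ⬝ᵥ x + ε) with h1 | h1 <;> rcases zmod2_cases (b ⬝ᵥ x + δ) with h2 | h2 <;>
    rw [h1, h2] <;> simp [sg_zero, sg_one, zmod2_add_self] <;> norm_num

end flats

section rigid

variable {m : ℕ}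

theorem exists_outside (hm : 3 ≤ m) (a b : Pt m) : ∃ c : Pt m, c ≠ 0 ∧ c ≠ a ∧ c ≠ b ∧ c ≠ a + b := by
  classical
  have h1 : ({0, a, b, a + b} : Finset (Pt m)).card < (Finset.univ : Finset (Pt m)).card := by
    have h2 : ({0, a, b, a + b} : Finset (Pt m)).card ≤ 4 := Finset.card_le_four
    have h3 : (8 : ℕ) ≤ (Finset.univ : Finset (Pt m)).card := by
      rw [Finset.card_univ, card_pt]
      calc 8 = 2 ^ 3 := by norm_num
        _ ≤ 2 ^ m := Nat.pow_le_pow_right (by norm_num) hm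
    omega
  obtain ⟨c, _, hc⟩ := Finset.exists_mem_notMem_of_card_lt_card h1
  simp only [Finset.mem_insert, Finset.mem_singleton, not_or] at hc
  exact ⟨c, hc.1, hc.2.1, hc.2.2.1, hc.2.2.2⟩

theorem rigC_RM2 (hm : 3 ≤ m) : RigC (RM2 m) := by
  classical
  intro s z hz0 hz
  -- the bilinear form
  set L : Pt m → ZMod 2 := fun a => s ⬝ᵥ (fun x => a ⬝ᵥ x) with hL
  set B : Pt m → Pt m → ZMod 2 := fun a b => s ⬝ᵥ (fun x => (a ⬝ᵥ x) * (b ⬝ᵥ x)) with hB
  set N : ZMod 2 := s ⬝ᵥ (fun _ => 1) with hN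
  have hLadd : ∀ a b, L (a + b) = L a + L b := by
    intro a b
    simp only [hL]
    rw [← dotProduct_add]
    congr 1; ext x; simp [add_dotProduct]
  have hBadd : ∀ a b c, B a (b + c) = B a b + B a c := by
    intro a b c
    simp only [hB]
    rw [← dotProduct_add]
    congr 1; ext x; simp [add_dotProduct, mul_add]
  have hBsymm : ∀ a b, B a b = B b a := by
    intro a b
    simp only [hB]
    congr 1; ext x; ring
  have hBself : ∀ a, B a a = L a := by
    intro a
    simp only [hB, hL]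
    congr 1; ext x; rw [zmod2_mul_self]
  have hSfl : ∀ a ε b δ, s ⬝ᵥ fl a ε b δ = B a b + δ * L a + ε * L b + ε * δ * N := by
    intro a ε b δ
    simp only [hB, hL, hN]
    rw [← smul_eq_mul δ, ← smul_eq_mul ε (s ⬝ᵥ fun x => b ⬝ᵥ x), ← smul_eq_mul (ε * δ),
      ← dotProduct_smul, ← dotProduct_smul, ← dotProduct_smul, ← dotProduct_add, ← dotProduct_add,
      ← dotProduct_add]
    congr 1; ext x; simp only [fl, Pi.add_apply, Pi.smul_apply, smul_eq_mul]; ring
  have hL0 : L 0 = 0 := by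
    have := hLadd 0 0
    rw [add_zero, zmod2_add_self] at this
    exact this
  set Z : Pt m → ℝ := ft z with hZ
  have hZ0 : Z 0 = 0 := by rw [hZ, ft_zero, hz0]
  have hK : ∀ a b ε δ, a ≠ 0 → b ≠ 0 → a ≠ b → s ⬝ᵥ fl a ε b δ = 0 →
      sg ε * Z a + sg δ * Z b = sg (ε + δ) * Z (a + b) := by
    intro a b ε δ ha hb hab hs
    have h1 := hz _ (quad_fl ha hb hab ε δ) hs
    rw [fl_sum, ← hZ, hZ0] at h1
    linarith
  have claim1 : ∀ a ε, a ≠ 0 → L a + ε * N = 0 → Z a = 0 := by
    intro a ε ha h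
    by_contra hne
    have hr : ∀ b, b ≠ 0 → b ≠ a → B a b + ε * L b = 1 := by
      intro b hb hba
      refine (zmod2_cases _).resolve_left fun h1 => hne ?_
      have h2 := hK a b ε 0 ha hb (Ne.symm hba) (by rw [hSfl]; linear_combination h1)
      have h3 := hK a b ε 1 ha hb (Ne.symm hba) (by rw [hSfl]; linear_combination h1 + h)
      rw [add_zero, sg_zero] at h2
      rw [sg_add, sg_one] at h3
      have h4 : sg ε * Z a = 0 := by linarith
      exact (mul_eq_zero.mp h4).resolve_left (sg_ne_zero ε)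
    obtain ⟨b, hb0, hba, _, _⟩ := exists_outside hm a 0
    obtain ⟨b', hb'0, hb'a, hb'b, hb'ab⟩ := exists_outside hm a b
    have h1 := hr b hb0 hba
    have h2 := hr b' hb'0 hb'a
    have h3 := hr (b + b') (by
      intro h4
      apply hb'b
      have := word_add_add b' b
      rw [add_comm b' b, h4, zero_add] at this
      exact this.symm) (by
      intro h4
      apply hb'ab
      have := word_add_add b' b
      rw [add_comm b' b, h4] at this
      exact this.symm)
    rw [hBadd, hLadd] at h3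
    have h4 : (1 : ZMod 2) = 0 := by linear_combination h3 - h1 - h2
    exact one_ne_zero h4
  rcases zmod2_cases N with hN0 | hN1
  swap
  · -- odd case
    left
    have h1 : ∀ a, Z a = 0 := by
      intro a
      by_cases ha : a = 0
      · rw [ha, hZ0]
      · exact claim1 a (L a) ha (by rw [hN1, mul_one, zmod2_add_self])
    refine ft_inj fun a => ?_
    rw [← hZ, h1]
    simp [ft]
  have claim1' : ∀ a, L a = 0 → Z a = 0 := by
    intro a h
    by_cases ha : a = 0
    · rw [ha, hZ0]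
    · exact claim1 a 0 ha (by rw [h, zero_mul, add_zero])
  have claim2 : ∀ a b, L a = 1 → L b = 0 → Z (a + b) = sg (B a b) * Z a := by
    intro a b ha hb
    by_cases hb0 : b = 0
    · have : B a 0 = 0 := by
        have := hBadd a 0 0
        rw [add_zero, zmod2_add_self] at this
        exact this
      rw [hb0, add_zero, this, sg_zero, one_mul]
    · have ha0 : a ≠ 0 := by
        rintro rfl
        rw [hL0] at ha; exact zero_ne_one ha
      have hab : a ≠ b := by
        rintro rfl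
        rw [ha] at hb; exact one_ne_zero hb
      have h1 := hK a b 0 (B a b) ha0 hb0 hab (by
        rw [hSfl, ha, hb, hN0]
        linear_combination zmod2_add_self (B a b))
      rw [sg_zero, one_mul, claim1' b hb, mul_zero, add_zero, zero_add] at h1
      rw [h1, ← mul_assoc, sg_mul_self, one_mul]
  by_cases hall : ∀ a, Z a = 0
  · left
    refine ft_inj fun a => ?_
    rw [← hZ, hall]
    simp [ft]
  right
  push Not at hall
  obtain ⟨a₀, ha₀⟩ := hall
  have hLa₀ : L a₀ = 1 := (zmod2_cases _).resolve_left fun h => ha₀ (claim1' a₀ h)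
  have claim3 : ∀ b b', L b = 0 → L b' = 0 → B b b' = 0 := by
    intro b b' hb hb'
    have h1 := claim2 a₀ (b + b') hLa₀ (by rw [hLadd, hb, hb', add_zero])
    have h2 := claim2 (a₀ + b) b' (by rw [hLadd, hLa₀, hb, add_zero]) hb'
    have h3 := claim2 a₀ b hLa₀ hb
    rw [← add_assoc, h2, h3, hBsymm (a₀ + b) b', hBadd, hBsymm b' a₀, hBsymm b' b, hBadd] at h1
    rw [sg_add, sg_add] at h1
    by_contra hne
    have h4 : B b b' = 1 := (zmod2_cases _).resolve_left hne
    rw [h4, sg_one] at h1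
    have h5 : sg (B a₀ b') * sg (B a₀ b) * Z a₀ = 0 := by linarith
    have h6 := mul_ne_zero (mul_ne_zero (sg_ne_zero (B a₀ b')) (sg_ne_zero (B a₀ b))) ha₀
    exact h6 h5
  set g : Pt m → ZMod 2 := fun a => B a₀ a with hg
  have hga₀ : g a₀ = 1 := by simp only [hg]; rw [hBself, hLa₀]
  have claim4 : ∀ a b, B a b = L a * L b + L a * g b + L b * g a := by
    intro a b
    have key : ∀ a, ∃ a', L a' = 0 ∧ a = a' ∨ L a' = 0 ∧ L a = 1 ∧ a = a₀ + a' := by
      intro a
      rcases zmod2_cases (L a) with h | h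
      · exact ⟨a, Or.inl ⟨h, rfl⟩⟩
      · refine ⟨a₀ + a, Or.inr ⟨by rw [hLadd, hLa₀, h]; decide, h, ?_⟩⟩
        rw [← add_assoc, word_add_self, zero_add]
    obtain ⟨a', ha'⟩ := key a
    obtain ⟨b', hb'⟩ := key b
    rcases ha' with ⟨h1, rfl⟩ | ⟨h1, h2, h3⟩ <;> rcases hb' with ⟨k1, rfl⟩ | ⟨k1, k2, k3⟩
    · rw [claim3 _ _ h1 k1, h1, k1]; ring
    · rw [k2, h1, k3, hBadd, claim3 _ _ h1 k1, hBsymm a a₀]; simp only [hg]; ring
    · rw [h2, k1, h3, hBsymm, hBadd, hBsymm b a₀, claim3 _ _ k1 h1]; simp only [hg]; ring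
    · rw [h2, k2]
      have e1 : B a b = B a₀ a₀ + B a₀ a' + (B a₀ b' + B a' b') := by
        rw [h3, k3, hBadd, hBsymm (a₀ + a') a₀, hBsymm (a₀ + a') b', hBadd, hBadd, hBsymm b' a₀,
          hBsymm b' a']
      have e2 : g b = 1 + B a₀ b' := by
        simp only [hg]; rw [k3, hBadd]; simp only [hg] at hga₀; rw [hga₀]
      have e3 : g a = 1 + B a₀ a' := by
        simp only [hg]; rw [h3, hBadd]; simp only [hg] at hga₀; rw [hga₀]
      rw [e1, e2, e3, claim3 _ _ h1 k1, hBself, hLa₀]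
      have : (1 : ZMod 2) + 1 = 0 := by decide
      linear_combination -this
  -- the two points
  set σ : Pt m := fun i => s ⬝ᵥ (fun x => x i) with hσ
  set ρ : Pt m := fun i => s ⬝ᵥ (fun x => (a₀ ⬝ᵥ x) * x i) with hρ
  have hLσ : ∀ a, L a = a ⬝ᵥ σ := by
    intro a
    simp only [hL, hσ, dotProduct, Finset.mul_sum]
    rw [Finset.sum_comm]
    refine Finset.sum_congr rfl fun i _ => Finset.sum_congr rfl fun x _ => ?_
    ring
  have hgρ : ∀ a, g a = a ⬝ᵥ ρ := by
    intro a
    simp only [hg, hB, hρ, dotProduct, Finset.mul_sum]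
    rw [Finset.sum_comm]
    refine Finset.sum_congr rfl fun i _ => Finset.sum_congr rfl fun x _ => ?_
    ring
  have hσne : ρ ≠ ρ + σ := by
    intro h
    have h1 : σ = 0 := left_eq_add.mp h
    rw [hLσ, h1, dotProduct_zero] at hLa₀
    exact zero_ne_one hLa₀
  set κ : ℝ := -(Z a₀) / 2 with hκ
  have hκne : κ ≠ 0 := by
    rw [hκ]
    exact div_ne_zero (neg_ne_zero.mpr ha₀) two_ne_zero
  have hzeq : z = fun x => κ * ((if x = ρ then 1 else 0) - (if x = ρ + σ then 1 else 0)) := by
    refine ft_inj fun a => ?_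
    rw [← hZ]
    have h1 : ft (fun x => κ * ((if x = ρ then (1 : ℝ) else 0) - (if x = ρ + σ then 1 else 0))) a =
        κ * (sg (a ⬝ᵥ ρ) - sg (a ⬝ᵥ (ρ + σ))) := by
      unfold ft
      have h2 : ∀ x, sg (a ⬝ᵥ x) * (κ * ((if x = ρ then (1 : ℝ) else 0) -
          (if x = ρ + σ then 1 else 0))) = (if x = ρ then κ * sg (a ⬝ᵥ x) else 0) -
          (if x = ρ + σ then κ * sg (a ⬝ᵥ x) else 0) := by
        intro x; split_ifs <;> ring
      rw [Finset.sum_congr rfl fun x _ => h2 x, Finset.sum_sub_distrib]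
      simp only [Finset.sum_ite_eq', Finset.mem_univ, if_true]
      ring
    rw [h1, dotProduct_add, ← hgρ, ← hLσ]
    rcases zmod2_cases (L a) with h | h
    · rw [claim1' a h, h, add_zero]; ring
    · have h3 := claim2 a₀ (a₀ + a) hLa₀ (by rw [hLadd, hLa₀, h]; decide)
      rw [← add_assoc, word_add_self, zero_add, hBadd, sg_add] at h3
      have h4 : B a₀ a₀ = 1 := hga₀
      have h5 : B a₀ a = g a := rfl
      rw [h3, h4, h5, h, sg_add, sg_one, hκ]
      ring
  refine ⟨ρ, ρ + σ, hσne, ?_, ?_, ?_, ?_⟩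
  · rw [hzeq]; simp only [if_true, if_neg hσne, sub_zero, mul_one]; exact hκne
  · rw [hzeq]; simp only [if_true, if_neg hσne, if_neg (Ne.symm hσne)]; ring
  · intro k h1 h2
    rw [hzeq]; simp only [if_neg h1, if_neg h2]; ring
  · rintro c ⟨p, rfl⟩
    have h1 : s ⬝ᵥ qmap m p = p.1 * N + ∑ i, ∑ j, p.2 i j * (s ⬝ᵥ (fun x => x i * x j)) := by
      simp only [hN, dotProduct, qmap_apply, mul_add, Finset.sum_add_distrib, Finset.mul_sum]
      congr 1
      · refine Finset.sum_congr rfl fun x _ => ?_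
        ring
      · rw [Finset.sum_comm]
        refine Finset.sum_congr rfl fun i _ => ?_
        rw [Finset.sum_comm]
        refine Finset.sum_congr rfl fun j _ => Finset.sum_congr rfl fun x _ => ?_
        ring
    have h2 : ∀ i j, s ⬝ᵥ (fun x => x i * x j) = ρ i * ρ j + (ρ + σ) i * (ρ + σ) j := by
      intro i j
      have h3 := claim4 (Pi.single i 1) (Pi.single j 1)
      rw [hLσ, hLσ, hgρ, hgρ] at h3
      simp only [hB, single_dotProduct, one_mul] at h3
      rw [h3, Pi.add_apply, Pi.add_apply]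
      linear_combination -zmod2_add_self (ρ i * ρ j)
    rw [h1, hN0, mul_zero, zero_add, qmap_apply, qmap_apply]
    have h4 : ∑ i, ∑ j, p.2 i j * (s ⬝ᵥ (fun x => x i * x j)) =
        ∑ i, ∑ j, p.2 i j * (ρ i * ρ j) + ∑ i, ∑ j, p.2 i j * ((ρ + σ) i * (ρ + σ) j) := by
      simp only [← Finset.sum_add_distrib]
      refine Finset.sum_congr rfl fun i _ => Finset.sum_congr rfl fun j _ => ?_
      rw [h2]; ring
    rw [h4]
    linear_combination -zmod2_add_self p.1

end rigid

end Pool.Agent.H976R3.Kiss
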