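import Pool.Agent.H976R3.Kiss.Big

/-!
# Random permutations preserving a word
-/

set_option autoImplicit false

namespace Pool.Agent.H976R3.Kiss

section

theorem share_ineq (n a a' b b' : ℝ) (ha : |a| ≤ n / 8) (hb : |b| ≤ n / 8)
    (ha' : |a| + |a'| ≤ n / 4) (hb' : |b| + |b'| ≤ n / 4) :
    3 * (a * b) + a' * b' ≤ n * n / 16 := by
  have h1 : a * b ≤ |a| * |b| := by rw [← abs_mul]; exact le_abs_self _
  have h2 : a' * b' ≤ |a'| * |b'| := by rw [← abs_mul]; exact le_abs_self _
  have p1 := abs_nonneg a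
  have p2 := abs_nonneg b
  have p3 := abs_nonneg a'
  have p4 := abs_nonneg b'
  have h3 : |a'| * |b'| ≤ (n / 4 - |a|) * (n / 4 - |b|) :=
    mul_le_mul (by linarith) (by linarith) p4 (by linarith)
  nlinarith [mul_nonneg p1 (sub_nonneg.mpr hb), mul_nonneg p2 (sub_nonneg.mpr ha)]

theorem abs_add_abs_le {x y t : ℝ} (h1 : x + y ≤ t) (h2 : -(x + y) ≤ t) (h3 : x - y ≤ t)
    (h4 : y - x ≤ t) : |x| + |y| ≤ t := by
  rcases abs_cases x with ⟨hx, _⟩ | ⟨hx, _⟩ <;> rcases abs_cases y with ⟨hy, _⟩ | ⟨hy, _⟩ <;>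
  rw [hx, hy] <;> linarith

/-- The numerical inequality. `A1, B1` are the sizes inside the set of size `n / 4`, and `A2, B2`
outside. -/
theorem share_bound (n A1 A2 B1 B2 : ℝ) (hn : 0 < n)
    (hA1 : 0 ≤ A1) (hA1' : 4 * A1 ≤ n) (hB1 : 0 ≤ B1) (hB1' : 4 * B1 ≤ n)
    (hA2 : 0 ≤ A2) (hB2 : 0 ≤ B2)
    (hA : n ≤ 4 * (A1 + A2)) (hA' : 4 * (A1 + A2) ≤ 3 * n)
    (hB : n ≤ 4 * (B1 + B2)) (hB' : 4 * (B1 + B2) ≤ 3 * n)
    (hAc : A1 ≤ A2) (hAc' : 4 * (n / 4 - A1 + A2) ≤ 3 * n)
    (hBc : B1 ≤ B2) (hBc' : 4 * (n / 4 - B1 + B2) ≤ 3 * n) :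
    (Real.exp (1 / 48) - 1) * (B1 / (n / 4)) * A1 + (Real.exp (1 / 48) - 1) * (B2 / (3 * n / 4)) * A2
      - (1 / 96) * (A1 + A2 + B1 + B2 - n / 4) ≤ - n / 2304 := by
  have h1 : Real.exp (1 / 48) - 1 ≤ 1 / 48 + 1 / 2304 := by
    have := Real.abs_exp_sub_one_sub_id_le (x := 1 / 48) (by rw [abs_of_pos] <;> norm_num)
    have := (abs_le.mp this).2
    norm_num at this ⊢
    linarith
  set M := (B1 / (n / 4)) * A1 + (B2 / (3 * n / 4)) * A2 with hM
  have hM0 : 0 ≤ M := by positivity
  have hMn : M ≤ n := by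
    have e1 : (B1 / (n / 4)) * A1 ≤ A1 := by
      have : B1 / (n / 4) ≤ 1 := by rw [div_le_one (by positivity)]; linarith
      nlinarith
    have e2 : (B2 / (3 * n / 4)) * A2 ≤ A2 := by
      have : B2 / (3 * n / 4) ≤ 1 := by rw [div_le_one (by positivity)]; linarith
      nlinarith
    rw [hM]; linarith
  have hmain : M ≤ (1 / 2) * (A1 + A2 + B1 + B2) - n / 8 - n / 24 := by
    have k1 := share_ineq n (A1 - n / 8) (A2 - 3 * n / 8) (B1 - n / 8) (B2 - 3 * n / 8)
      (by rw [abs_le]; constructor <;> linarith) (by rw [abs_le]; constructor <;> linarith)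
      (abs_add_abs_le (by linarith) (by linarith) (by linarith) (by linarith))
      (abs_add_abs_le (by linarith) (by linarith) (by linarith) (by linarith))
    have k2 : M = (12 * (A1 * B1) + 4 * (A2 * B2)) / (3 * n) := by
      rw [hM]; field_simp; ring
    rw [k2, div_le_iff₀ (by positivity)]
    nlinarith
  have h2 : (Real.exp (1 / 48) - 1) * (B1 / (n / 4)) * A1 +
      (Real.exp (1 / 48) - 1) * (B2 / (3 * n / 4)) * A2 = (Real.exp (1 / 48) - 1) * M := by
    rw [hM]; ring
  rw [h2]
  have h3 : (Real.exp (1 / 48) - 1) * M ≤ (1 / 48 + 1 / 2304) * M :=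
    mul_le_mul_of_nonneg_right h1 hM0
  linarith

variable {α : Type*} [Fintype α] [DecidableEq α]

/-- The permutation glued from permutations of the support of a word and of its complement. -/
def glue (c : α → ZMod 2) (p : Equiv.Perm {i // c i ≠ 0} × Equiv.Perm {i // ¬ c i ≠ 0}) :
    Equiv.Perm α := Equiv.Perm.subtypeCongr p.1 p.2

theorem glue_in (c : α → ZMod 2) (p : Equiv.Perm {i // c i ≠ 0} × Equiv.Perm {i // ¬ c i ≠ 0})
    (i : {i // c i ≠ 0}) : glue c p i = p.1 i := by
  unfold glue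
  rw [Equiv.Perm.subtypeCongr.left_apply_subtype]

theorem glue_out (c : α → ZMod 2) (p : Equiv.Perm {i // c i ≠ 0} × Equiv.Perm {i // ¬ c i ≠ 0})
    (i : {i // ¬ c i ≠ 0}) : glue c p i = p.2 i := by
  unfold glue
  rw [Equiv.Perm.subtypeCongr.right_apply_subtype]

theorem glue_comp (c : α → ZMod 2)
    (p : Equiv.Perm {i // c i ≠ 0} × Equiv.Perm {i // ¬ c i ≠ 0}) : c ∘ glue c p = c := by
  ext i
  by_cases h : c i ≠ 0
  · have := glue_in c p ⟨i, h⟩
    simp only at this
    rw [Function.comp_apply, this]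
    have h1 := (p.1 ⟨i, h⟩).2
    rw [(zmod2_cases _).resolve_left h1, (zmod2_cases _).resolve_left h]
  · have := glue_out c p ⟨i, h⟩
    simp only at this
    rw [Function.comp_apply, this]
    have h1 := (p.2 ⟨i, h⟩).2
    rw [not_not.mp h1, not_not.mp h]

/-- The part of the support of `y` inside the support of `c`. -/
def inPart (c y : α → ZMod 2) : Finset {i // c i ≠ 0} := Finset.univ.filter fun i => y i ≠ 0

/-- The part of the support of `y` outside the support of `c`. -/
def outPart (c y : α → ZMod 2) : Finset {i // ¬ c i ≠ 0} := Finset.univ.filter fun i => y i ≠ 0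

theorem parts_add (c y : α → ZMod 2) : (inPart c y).card + (outPart c y).card = wt y := by
  unfold inPart outPart wt
  simp only [Finset.card_filter]
  exact Fintype.sum_subtype_add_sum_subtype (fun i => c i ≠ 0) fun i => if y i ≠ 0 then 1 else 0

theorem card_in (c : α → ZMod 2) : Fintype.card {i // c i ≠ 0} = wt c := by
  rw [Fintype.card_subtype]; rfl

theorem card_out (c : α → ZMod 2) :
    wt c + Fintype.card {i // ¬ c i ≠ 0} = Fintype.card α := by
  have h := Fintype.card_subtype_compl (fun i => c i ≠ 0)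
  rw [card_in] at h
  have h2 : wt c ≤ Fintype.card α := by
    rw [← card_in]; exact Fintype.card_subtype_le _
  omega

theorem parts_c (c y : α → ZMod 2) :
    wt (y + c) + (inPart c y).card = wt c + (outPart c y).card := by
  have h1 := wt_add y c
  have h2 : (Finset.univ.filter fun i => y i ≠ 0 ∧ c i ≠ 0).card = (inPart c y).card := by
    unfold inPart
    simp only [Finset.card_filter]
    rw [← Fintype.sum_subtype_add_sum_subtype (fun i => c i ≠ 0)]
    have h3 : ∑ i : {i // ¬ c i ≠ 0}, (if y i ≠ 0 ∧ c i ≠ 0 then 1 else 0) = 0 :=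
      Finset.sum_eq_zero fun i _ => by rw [if_neg]; exact fun h => i.2 h.2
    rw [h3, add_zero]
    refine Finset.sum_congr rfl fun i _ => ?_
    simp [i.2]
  rw [h2] at h1
  have h3 := parts_add c y
  omega

theorem inter_glue (c y u : α → ZMod 2)
    (p : Equiv.Perm {i // c i ≠ 0} × Equiv.Perm {i // ¬ c i ≠ 0}) :
    (Finset.univ.filter fun i => y i ≠ 0 ∧ (u ∘ glue c p) i ≠ 0).card =
      ((inPart c y).filter fun i => p.1 i ∈ inPart c u).card +
      ((outPart c y).filter fun i => p.2 i ∈ outPart c u).card := by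
  simp only [Finset.card_filter]
  rw [← Fintype.sum_subtype_add_sum_subtype (fun i => c i ≠ 0)]
  congr 1
  · unfold inPart
    rw [Finset.sum_filter]
    refine Finset.sum_congr rfl fun i _ => ?_
    simp only [Function.comp_apply, glue_in, Finset.mem_filter, Finset.mem_univ, true_and]
    by_cases h1 : y i ≠ 0 <;> by_cases h2 : u (p.1 i) ≠ 0 <;> simp [h1, h2]
  · unfold outPart
    rw [Finset.sum_filter]
    refine Finset.sum_congr rfl fun i _ => ?_
    simp only [Function.comp_apply, glue_out, Finset.mem_filter, Finset.mem_univ, true_and]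
    by_cases h1 : y i ≠ 0 <;> by_cases h2 : u (p.2 i) ≠ 0 <;> simp [h1, h2]

/-- The conditions on the words. -/
def Mid (c y : α → ZMod 2) : Prop :=
  Fintype.card α ≤ 4 * wt y ∧ 4 * wt y ≤ 3 * Fintype.card α ∧
    Fintype.card α ≤ 4 * wt (y + c) ∧ 4 * wt (y + c) ≤ 3 * Fintype.card α

theorem pow_le_exp' (x B t : ℝ) (k : ℕ) (hx : 0 ≤ (x - 1) * (B / t)) :
    (1 + (x - 1) * (B / t)) ^ k ≤ Real.exp ((x - 1) * (B / t) * k) := by
  calc (1 + (x - 1) * (B / t)) ^ k ≤ (Real.exp ((x - 1) * (B / t))) ^ k := by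
        refine pow_le_pow_left₀ (by linarith) ?_ _
        rw [add_comm]
        exact Real.add_one_le_exp _
    _ = _ := by rw [← Real.exp_nat_mul]; congr 1; ring

theorem share_tail [Nonempty α] (c y u : α → ZMod 2) (hc : 4 * wt c = Fintype.card α)
    (hy : Mid c y) (hu : Mid c u) :
    ((Finset.univ.filter fun p : Equiv.Perm {i // c i ≠ 0} × Equiv.Perm {i // ¬ c i ≠ 0} =>
      4 * wt (y + u ∘ glue c p) ≤ Fintype.card α).card : ℝ) ≤
      (Fintype.card (Equiv.Perm {i // c i ≠ 0} × Equiv.Perm {i // ¬ c i ≠ 0}) : ℝ) *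
        Real.exp (-(Fintype.card α : ℝ) / 2304) := by
  have hn0 : 0 < Fintype.card α := Fintype.card_pos
  set n : ℝ := (Fintype.card α : ℝ) with hnd
  have hn : 0 < n := by rw [hnd]; exact_mod_cast hn0
  have hcin := card_in c
  have hcout := card_out c
  have hcinR : (Fintype.card {i // c i ≠ 0} : ℝ) = n / 4 := by
    rw [hcin, hnd, ← hc]; push_cast; ring
  have hcoutR : (Fintype.card {i // ¬ c i ≠ 0} : ℝ) = 3 * n / 4 := by
    have h1 : Fintype.card {i // ¬ c i ≠ 0} = 3 * wt c := by omega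
    rw [h1, hnd, ← hc]; push_cast; ring
  have hne1 : Nonempty {i // c i ≠ 0} := by
    rw [← Fintype.card_pos_iff, hcin]; omega
  have hne2 : Nonempty {i // ¬ c i ≠ 0} := by
    rw [← Fintype.card_pos_iff]; omega
  set z : ℝ := Real.exp (1 / 48) with hz
  have hz1 : 1 ≤ z := by
    rw [hz]; exact Real.one_le_exp (by norm_num)
  have m1 := mgf (inPart c y) (inPart c u) z hz1
  have m2 := mgf (outPart c y) (outPart c u) z hz1
  rw [hcinR] at m1
  rw [hcoutR] at m2
  set T : ℝ := (1 / 96) * ((wt y : ℝ) + wt u - n / 4) with hT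
  have h2 : ((Finset.univ.filter fun p : Equiv.Perm {i // c i ≠ 0} × Equiv.Perm {i // ¬ c i ≠ 0} =>
      4 * wt (y + u ∘ glue c p) ≤ Fintype.card α).card : ℝ) * Real.exp T ≤
      ∑ p : Equiv.Perm {i // c i ≠ 0} × Equiv.Perm {i // ¬ c i ≠ 0},
        z ^ ((inPart c y).filter fun i => p.1 i ∈ inPart c u).card *
        z ^ ((outPart c y).filter fun i => p.2 i ∈ outPart c u).card := by
    rw [← nsmul_eq_mul, ← Finset.sum_const]
    refine (Finset.sum_le_sum (g := fun p : Equiv.Perm {i // c i ≠ 0} × Equiv.Perm {i // ¬ c i ≠ 0} =>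
        z ^ ((inPart c y).filter fun i => p.1 i ∈ inPart c u).card *
        z ^ ((outPart c y).filter fun i => p.2 i ∈ outPart c u).card)
      fun p hp => ?_).trans (Finset.sum_le_sum_of_subset_of_nonneg (Finset.filter_subset _ _)
      fun p _ _ => by positivity)
    simp only [Finset.mem_filter, Finset.mem_univ, true_and] at hp
    have h3 := wt_add y (u ∘ glue c p)
    rw [wt_comp (glue c p) u, inter_glue] at h3
    rw [← pow_add, hz, ← Real.exp_nat_mul]
    apply Real.exp_le_exp.mpr
    have h5 : 4 * (wt y + wt u) ≤ Fintype.card α +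
      8 * (((inPart c y).filter fun i => p.1 i ∈ inPart c u).card +
      ((outPart c y).filter fun i => p.2 i ∈ outPart c u).card) := by omega
    have h6 : (4 : ℝ) * (wt y + wt u) ≤ n +
      8 * ((((inPart c y).filter fun i => p.1 i ∈ inPart c u).card : ℝ) +
      ((outPart c y).filter fun i => p.2 i ∈ outPart c u).card) := by
      rw [hnd]; exact_mod_cast h5
    rw [hT]
    push_cast
    linarith
  have h3 : ∑ p : Equiv.Perm {i // c i ≠ 0} × Equiv.Perm {i // ¬ c i ≠ 0},
        z ^ ((inPart c y).filter fun i => p.1 i ∈ inPart c u).card *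
        z ^ ((outPart c y).filter fun i => p.2 i ∈ outPart c u).card =
      (∑ π : Equiv.Perm {i // c i ≠ 0}, z ^ ((inPart c y).filter fun i => π i ∈ inPart c u).card) *
      ∑ π : Equiv.Perm {i // ¬ c i ≠ 0},
        z ^ ((outPart c y).filter fun i => π i ∈ outPart c u).card := by
    rw [Fintype.sum_prod_type, Finset.sum_mul_sum]
  rw [h3] at h2
  have hz0 : 0 ≤ z - 1 := by linarith
  have e1 : 0 ≤ (z - 1) * (((inPart c u).card : ℝ) / (n / 4)) := by positivity
  have e2 : 0 ≤ (z - 1) * (((outPart c u).card : ℝ) / (3 * n / 4)) := by positivity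
  have k1 := m1.trans (mul_le_mul_of_nonneg_left
    (pow_le_exp' z (inPart c u).card (n / 4) (inPart c y).card e1) (Nat.cast_nonneg _))
  have k2 := m2.trans (mul_le_mul_of_nonneg_left
    (pow_le_exp' z (outPart c u).card (3 * n / 4) (outPart c y).card e2) (Nat.cast_nonneg _))
  have h4 := h2.trans (mul_le_mul k1 k2 (by positivity) (by positivity))
  -- the exponent
  have py := parts_add c y
  have pu := parts_add c u
  have pyc := parts_c c y
  have puc := parts_c c u
  obtain ⟨hy1, hy2, hy3, hy4⟩ := hy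
  obtain ⟨hu1, hu2, hu3, hu4⟩ := hu
  have iny : 4 * (inPart c y).card ≤ Fintype.card α := by
    have := Finset.card_le_univ (inPart c y)
    rw [hcin] at this; omega
  have inu : 4 * (inPart c u).card ≤ Fintype.card α := by
    have := Finset.card_le_univ (inPart c u)
    rw [hcin] at this; omega
  have hbound := share_bound n (inPart c y).card (outPart c y).card (inPart c u).card
    (outPart c u).card hn (by positivity) (by rw [hnd]; exact_mod_cast iny) (by positivity)
    (by rw [hnd]; exact_mod_cast inu) (by positivity) (by positivity)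
    (by rw [hnd]; exact_mod_cast (by omega : Fintype.card α ≤ 4 * ((inPart c y).card +
      (outPart c y).card)))
    (by rw [hnd]; exact_mod_cast (by omega : 4 * ((inPart c y).card +
      (outPart c y).card) ≤ 3 * Fintype.card α))
    (by rw [hnd]; exact_mod_cast (by omega : Fintype.card α ≤ 4 * ((inPart c u).card +
      (outPart c u).card)))
    (by rw [hnd]; exact_mod_cast (by omega : 4 * ((inPart c u).card +
      (outPart c u).card) ≤ 3 * Fintype.card α))
    (by exact_mod_cast (by omega : (inPart c y).card ≤ (outPart c y).card))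
    (by
      have h5 : Fintype.card α + 4 * (outPart c y).card ≤ 3 * Fintype.card α +
        4 * (inPart c y).card := by omega
      have h6 : n + 4 * ((outPart c y).card : ℝ) ≤ 3 * n + 4 * (inPart c y).card := by
        rw [hnd]; exact_mod_cast h5
      linarith)
    (by exact_mod_cast (by omega : (inPart c u).card ≤ (outPart c u).card))
    (by
      have h5 : Fintype.card α + 4 * (outPart c u).card ≤ 3 * Fintype.card α +
        4 * (inPart c u).card := by omega
      have h6 : n + 4 * ((outPart c u).card : ℝ) ≤ 3 * n + 4 * (inPart c u).card := by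
        rw [hnd]; exact_mod_cast h5
      linarith)
  have pyR : ((inPart c y).card : ℝ) + (outPart c y).card = wt y := by exact_mod_cast py
  have puR : ((inPart c u).card : ℝ) + (outPart c u).card = wt u := by exact_mod_cast pu
  have h6 : ((Finset.univ.filter fun p : Equiv.Perm {i // c i ≠ 0} × Equiv.Perm {i // ¬ c i ≠ 0} =>
      4 * wt (y + u ∘ glue c p) ≤ Fintype.card α).card : ℝ) ≤
      ((Fintype.card {i // c i ≠ 0}).factorial : ℝ) * (Fintype.card {i // ¬ c i ≠ 0}).factorial *
      (Real.exp ((z - 1) * ((inPart c u).card / (n / 4)) * (inPart c y).card) *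
      Real.exp ((z - 1) * ((outPart c u).card / (3 * n / 4)) * (outPart c y).card)) /
      Real.exp T := by
    rw [le_div_iff₀ (Real.exp_pos _)]
    refine h4.trans (le_of_eq ?_)
    ring
  refine h6.trans ?_
  rw [Fintype.card_prod, Fintype.card_perm, Fintype.card_perm, ← Real.exp_add, mul_div_assoc,
    ← Real.exp_sub]
  push_cast
  refine mul_le_mul_of_nonneg_left (Real.exp_le_exp.mpr ?_) (by positivity)
  rw [hT]
  linarith

/-- Existence of a good permutation preserving the word `c`. -/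
theorem exists_perm [Nonempty α] (c : α → ZMod 2) (hc : 4 * wt c = Fintype.card α)
    (Y V : Finset (α → ZMod 2)) (hY : ∀ y ∈ Y, Mid c y) (hV : ∀ u ∈ V, Mid c u)
    (hsmall : (Y.card : ℝ) * V.card * Real.exp (-(Fintype.card α : ℝ) / 2304) < 1) :
    ∃ π : Equiv.Perm α, c ∘ π = c ∧ ∀ y ∈ Y, ∀ u ∈ V, Fintype.card α < 4 * wt (y + u ∘ π) := by
  classical
  by_contra hcon
  push Not at hcon
  set P := Equiv.Perm {i // c i ≠ 0} × Equiv.Perm {i // ¬ c i ≠ 0} with hP
  set f : (α → ZMod 2) × (α → ZMod 2) → Finset P := fun q =>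
    Finset.univ.filter fun p : P => 4 * wt (q.1 + q.2 ∘ glue c p) ≤ Fintype.card α with hf
  have hcover : (Finset.univ : Finset P) ⊆ (Y ×ˢ V).biUnion f := by
    intro p _
    obtain ⟨y, hy, u, hu, hlt⟩ := hcon (glue c p) (glue_comp c p)
    rw [Finset.mem_biUnion]
    exact ⟨(y, u), Finset.mem_product.mpr ⟨hy, hu⟩, Finset.mem_filter.mpr ⟨Finset.mem_univ _, hlt⟩⟩
  have hcard := (Finset.card_le_card hcover).trans Finset.card_biUnion_le
  rw [Finset.card_univ] at hcard
  have hcard' : (Fintype.card P : ℝ) ≤ ∑ q ∈ Y ×ˢ V, ((f q).card : ℝ) := by exact_mod_cast hcard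
  have h3 : ∑ q ∈ Y ×ˢ V, ((f q).card : ℝ) ≤ ∑ _q ∈ Y ×ˢ V, ((Fintype.card P : ℝ) *
      Real.exp (-(Fintype.card α : ℝ) / 2304)) := by
    refine Finset.sum_le_sum fun q hq => ?_
    obtain ⟨hq1, hq2⟩ := Finset.mem_product.mp hq
    exact share_tail c q.1 q.2 hc (hY _ hq1) (hV _ hq2)
  rw [Finset.sum_const, Finset.card_product, nsmul_eq_mul] at h3
  have hPpos : (0 : ℝ) < Fintype.card P := by exact_mod_cast Fintype.card_pos
  have h4 := hcard'.trans h3
  push_cast at h4
  have h5 : (Fintype.card P : ℝ) * ((Y.card : ℝ) * V.card *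
      Real.exp (-(Fintype.card α : ℝ) / 2304)) < Fintype.card P * 1 :=
    mul_lt_mul_of_pos_left hsmall hPpos
  linarith

end

end Pool.Agent.H976R3.Kiss
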