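import Pool.Agent.H976R3.Kiss.Jam2
import Pool.Agent.H976R3.Kiss.Build

/-!
# Two cosets of a rigid code: a second order jammed family which is not infinitesimally jammed
-/

set_option autoImplicit false

namespace Pool.Agent.H976R3.Kiss

section chars

variable {α : Type*} [Fintype α] [DecidableEq α]

theorem sum_sg_hom {G : Type*} [AddCommGroup G] [Fintype G] (f : G →+ ZMod 2) (c₀ : G)
    (h : f c₀ ≠ 0) : ∑ c, sg (f c) = 0 := by
  have h1 : f c₀ = 1 := (zmod2_cases _).resolve_left h
  have h2 : ∑ c, sg (f c) = ∑ c, sg (f (c + c₀)) := by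
    rw [← Equiv.sum_comp (Equiv.addRight c₀)]
    rfl
  have h3 : ∀ c, sg (f (c + c₀)) = - sg (f c) := by
    intro c
    rw [map_add, sg_add, h1, sg_one]; ring
  rw [Finset.sum_congr rfl fun c _ => h3 c, Finset.sum_neg_distrib] at h2
  linarith

theorem pair_unique (C : Submodule (ZMod 2) (α → ZMod 2)) (hC : RigC C) (i j p q : α)
    (hij : i ≠ j) (hpq : p ≠ q) (h : ∀ c ∈ C, c i + c j = c p + c q) :
    (i = p ∧ j = q) ∨ (i = q ∧ j = p) := by
  set s : α → ZMod 2 := Pi.single i 1 + Pi.single j 1 with hs
  set z : α → ℝ := fun k => ((if k = i then 1 else 0) - (if k = j then 1 else 0)) +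
    2 * ((if k = p then 1 else 0) - (if k = q then 1 else 0)) with hz
  have hsc : ∀ c : α → ZMod 2, s ⬝ᵥ c = c i + c j := by
    intro c
    rw [hs, add_dotProduct, single_dotProduct, single_dotProduct, one_mul, one_mul]
  have hz0 : ∑ k, z k = 0 := by
    simp [hz, Finset.sum_add_distrib, ← Finset.mul_sum]
  have h1 := hC s z hz0 (by
    intro w hw hsw
    rw [hsc] at hsw
    obtain ⟨W, ⟨t, rfl⟩, hWC, -, -⟩ := hw
    have h2 := h _ (hWC t)
    rw [hsw] at h2
    have h3 : ∀ k, (if W t k = 0 then 0 else z k) =
        ((if k = i then (if W t i = 0 then 0 else 1) else 0) -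
          (if k = j then (if W t j = 0 then 0 else 1) else 0)) +
        2 * ((if k = p then (if W t p = 0 then 0 else 1) else 0) -
          (if k = q then (if W t q = 0 then 0 else 1) else 0)) := by
      intro k
      simp only [hz]
      by_cases hk : W t k = 0
      · rw [if_pos hk]
        have e : ∀ l, (if k = l then (if W t l = 0 then (0 : ℝ) else 1) else 0) = 0 := by
          intro l
          split_ifs with h5 h6
          · rfl
          · subst h5; exact absurd hk h6
          · rfl
        rw [e, e, e, e]; ring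
      · rw [if_neg hk]
        have e : ∀ l, (if k = l then (if W t l = 0 then (0 : ℝ) else 1) else 0) =
            if k = l then 1 else 0 := by
          intro l
          split_ifs with h5 h6
          · subst h5; exact absurd h6 hk
          · rfl
          · rfl
        rw [e, e, e, e]
    rw [Finset.sum_congr rfl fun k _ => h3 k]
    have eqij : W t i = W t j := by
      rcases zmod2_cases (W t i) with h5 | h5 <;> rcases zmod2_cases (W t j) with h6 | h6
      · rw [h5, h6]
      · rw [h5, h6] at hsw; exact absurd hsw (by decide)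
      · rw [h5, h6] at hsw; exact absurd hsw (by decide)
      · rw [h5, h6]
    have eqpq : W t p = W t q := by
      rcases zmod2_cases (W t p) with h5 | h5 <;> rcases zmod2_cases (W t q) with h6 | h6
      · rw [h5, h6]
      · rw [h5, h6] at h2; exact absurd h2 (by decide)
      · rw [h5, h6] at h2; exact absurd h2 (by decide)
      · rw [h5, h6]
    simp [Finset.sum_add_distrib, ← Finset.mul_sum, eqij, eqpq])
  have hzi : z i ≠ 0 := by
    simp only [hz]
    rw [if_pos trivial, if_neg hij]
    split_ifs <;> norm_num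
  have hzj : z j ≠ 0 := by
    simp only [hz]
    rw [if_neg (Ne.symm hij), if_pos trivial]
    split_ifs <;> norm_num
  rcases h1 with h1 | ⟨a, b, hab, hza, hzb, hk, -⟩
  · exact absurd (congrFun h1 i) hzi
  have hia : i = a ∨ i = b := by
    by_contra hcon
    push Not at hcon
    exact hzi (hk i hcon.1 hcon.2)
  have hja : j = a ∨ j = b := by
    by_contra hcon
    push Not at hcon
    exact hzj (hk j hcon.1 hcon.2)
  have hp : p = i ∨ p = j := by
    by_contra hcon
    push Not at hcon
    have h3 : z p ≠ 0 := by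
      simp only [hz]
      simp [hcon.1, hcon.2, hpq]
    apply h3
    refine hk p ?_ ?_
    · rintro rfl
      rcases hia with h4 | h4
      · exact hcon.1 h4.symm
      · rcases hja with h5 | h5
        · exact hcon.2 h5.symm
        · exact hij (h4.trans h5.symm)
    · rintro rfl
      rcases hia with h4 | h4
      · rcases hja with h5 | h5
        · exact hij (h4.trans h5.symm)
        · exact hcon.2 h5.symm
      · exact hcon.1 h4.symm
  have hq : q = i ∨ q = j := by
    by_contra hcon
    push Not at hcon
    have h3 : z q ≠ 0 := by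
      simp only [hz]
      simp [hcon.1, hcon.2, Ne.symm hpq]
    apply h3
    refine hk q ?_ ?_
    · rintro rfl
      rcases hia with h4 | h4
      · exact hcon.1 h4.symm
      · rcases hja with h5 | h5
        · exact hcon.2 h5.symm
        · exact hij (h4.trans h5.symm)
    · rintro rfl
      rcases hia with h4 | h4
      · rcases hja with h5 | h5
        · exact hij (h4.trans h5.symm)
        · exact hcon.2 h5.symm
      · exact hcon.1 h4.symm
  rcases hp with rfl | rfl
  · rcases hq with rfl | rfl
    · exact absurd rfl hpq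
    · exact Or.inl ⟨rfl, rfl⟩
  · rcases hq with rfl | rfl
    · exact Or.inr ⟨rfl, rfl⟩
    · exact absurd rfl hpq

theorem column_ne (C : Submodule (ZMod 2) (α → ZMod 2)) (hC : RigC C) (h3 : 3 ≤ Fintype.card α)
    (i j : α) (hij : i ≠ j) : ∃ c ∈ C, c i + c j ≠ 0 := by
  by_contra hcon
  push Not at hcon
  obtain ⟨k, hk⟩ : ∃ k, k ∉ ({i, j} : Finset α) := by
    by_contra h4
    push Not at h4
    have h5 : (Finset.univ : Finset α) ⊆ {i, j} := fun k _ => h4 k
    have h6 := Finset.card_le_card h5
    have h7 : ({i, j} : Finset α).card ≤ 2 := Finset.card_le_two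
    rw [Finset.card_univ] at h6
    omega
  rw [Finset.mem_insert, Finset.mem_singleton, not_or] at hk
  rcases pair_unique C hC i k j k (Ne.symm hk.1) (Ne.symm hk.2) (fun c hc => by
    have h4 := hcon c hc
    have h5 : c i = c j := by
      rcases zmod2_cases (c i) with h5 | h5 <;> rcases zmod2_cases (c j) with h6 | h6
      · rw [h5, h6]
      · rw [h5, h6] at h4; exact absurd h4 (by decide)
      · rw [h5, h6] at h4; exact absurd h4 (by decide)
      · rw [h5, h6]
    rw [h5]) with h | h
  · exact hij h.1
  · exact hk.1 h.1.symm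

/-- The evaluation at a coordinate. -/
def ev (C : Submodule (ZMod 2) (α → ZMod 2)) (i : α) : C →+ ZMod 2 :=
  (Pi.evalAddMonoidHom (fun _ : α => ZMod 2) i).comp C.subtype.toAddMonoidHom

theorem ev_apply (C : Submodule (ZMod 2) (α → ZMod 2)) (i : α) (c : C) :
    ev C i c = (c : α → ZMod 2) i := rfl

theorem sum_two (C : Submodule (ZMod 2) (α → ZMod 2)) [Fintype C] (hC : RigC C)
    (h3 : 3 ≤ Fintype.card α) (i j : α) :
    ∑ c : C, sg ((c : α → ZMod 2) i) * sg ((c : α → ZMod 2) j) =
      if i = j then (Fintype.card C : ℝ) else 0 := by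
  split_ifs with h
  · subst h
    simp [sg_mul_self]
  · obtain ⟨c, hc, hne⟩ := column_ne C hC h3 i j h
    have := sum_sg_hom (ev C i + ev C j) ⟨c, hc⟩ hne
    rw [← this]
    refine Finset.sum_congr rfl fun c _ => ?_
    rw [AddMonoidHom.add_apply, ev_apply, ev_apply, sg_add]

theorem sum_four (C : Submodule (ZMod 2) (α → ZMod 2)) [Fintype C] (hC : RigC C)
    (i j p q : α) (hij : i ≠ j) (hpq : p ≠ q) :
    ∑ c : C, (sg ((c : α → ZMod 2) i) * sg ((c : α → ZMod 2) j)) *
      (sg ((c : α → ZMod 2) p) * sg ((c : α → ZMod 2) q)) =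
      if (i = p ∧ j = q) ∨ (i = q ∧ j = p) then (Fintype.card C : ℝ) else 0 := by
  split_ifs with h
  · have h1 : ∀ c : C, (sg ((c : α → ZMod 2) i) * sg ((c : α → ZMod 2) j)) *
      (sg ((c : α → ZMod 2) p) * sg ((c : α → ZMod 2) q)) = 1 := by
      intro c
      have e1 := sg_mul_self ((c : α → ZMod 2) i)
      have e2 := sg_mul_self ((c : α → ZMod 2) j)
      rcases h with ⟨rfl, rfl⟩ | ⟨rfl, rfl⟩
      · calc _ = (sg ((c : α → ZMod 2) i) * sg ((c : α → ZMod 2) i)) *
            (sg ((c : α → ZMod 2) j) * sg ((c : α → ZMod 2) j)) := by ring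
          _ = 1 := by rw [e1, e2, one_mul]
      · calc _ = (sg ((c : α → ZMod 2) i) * sg ((c : α → ZMod 2) i)) *
            (sg ((c : α → ZMod 2) j) * sg ((c : α → ZMod 2) j)) := by ring
          _ = 1 := by rw [e1, e2, one_mul]
    rw [Finset.sum_congr rfl fun c _ => h1 c]
    simp
  · have h1 : ∃ c ∈ C, (c i + c j) + (c p + c q) ≠ 0 := by
      by_contra hcon
      push Not at hcon
      apply h
      refine pair_unique C hC i j p q hij hpq fun c hc => ?_
      have h2 := hcon c hc
      rcases zmod2_cases (c i + c j) with h5 | h5 <;> rcases zmod2_cases (c p + c q) with h6 | h6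
      · rw [h5, h6]
      · rw [h5, h6] at h2; exact absurd h2 (by decide)
      · rw [h5, h6] at h2; exact absurd h2 (by decide)
      · rw [h5, h6]
    obtain ⟨c, hc, hne⟩ := h1
    have := sum_sg_hom ((ev C i + ev C j) + (ev C p + ev C q)) ⟨c, hc⟩ hne
    rw [← this]
    refine Finset.sum_congr rfl fun c _ => ?_
    rw [AddMonoidHom.add_apply, AddMonoidHom.add_apply, AddMonoidHom.add_apply, ev_apply, ev_apply,
      ev_apply, ev_apply, sg_add, sg_add, sg_add]

end chars

end Pool.Agent.H976R3.Kiss
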