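import Pool.Agent.H976R3.Kiss.Twist

/-!
# The configuration of two cosets
-/

set_option autoImplicit false

namespace Pool.Agent.H976R3.Kiss

section basic

variable {α : Type*} [Fintype α] [DecidableEq α]

theorem map_apply (S : EuclideanSpace ℝ α →L[ℝ] EuclideanSpace ℝ α) (y : EuclideanSpace ℝ α)
    (k : α) : (S y) k = ∑ q, y q * (S (EuclideanSpace.single q 1)) k := by
  have h1 : y = ∑ q, y q • (EuclideanSpace.single q (1 : ℝ) : EuclideanSpace ℝ α) := by
    ext i
    rw [WithLp.ofLp_sum, Finset.sum_apply]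
    simp
  conv_lhs => rw [h1]
  rw [map_sum, WithLp.ofLp_sum, Finset.sum_apply]
  refine Finset.sum_congr rfl fun q _ => ?_
  rw [map_smul]
  rfl

theorem inner_eq (x y : EuclideanSpace ℝ α) : inner ℝ x y = ∑ p, x p * y p := by
  rw [PiLp.inner_apply]
  refine Finset.sum_congr rfl fun p _ => ?_
  simp [mul_comm]

theorem inner_map (S : EuclideanSpace ℝ α →L[ℝ] EuclideanSpace ℝ α) (x y : EuclideanSpace ℝ α) :
    inner ℝ x (S y) = ∑ p, ∑ q, (x p * y q) * (S (EuclideanSpace.single q 1)) p := by
  rw [inner_eq]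
  refine Finset.sum_congr rfl fun p _ => ?_
  rw [map_apply, Finset.mul_sum]
  refine Finset.sum_congr rfl fun q _ => ?_
  ring

theorem skew_entry (S : EuclideanSpace ℝ α →L[ℝ] EuclideanSpace ℝ α)
    (hS : ∀ u w, inner ℝ (S u) w = - inner ℝ u (S w)) (p q : α) :
    (S (EuclideanSpace.single p 1)) q = - (S (EuclideanSpace.single q 1)) p := by
  have h1 := hS (EuclideanSpace.single p 1) (EuclideanSpace.single q 1)
  rw [EuclideanSpace.inner_single_left, real_inner_comm, EuclideanSpace.inner_single_left] at h1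
  simpa using h1

/-- The rotation in a coordinate plane. -/
noncomputable def Jm (p1 p2 : α) : EuclideanSpace ℝ α →L[ℝ] EuclideanSpace ℝ α :=
  skewMap (fun _ : Unit => (1 : ℝ)) (fun _ => p1) (fun _ => p2)

theorem Jm_apply (p1 p2 : α) (y : EuclideanSpace ℝ α) (k : α) :
    Jm p1 p2 y k = (if k = p1 then y p2 else 0) - (if k = p2 then y p1 else 0) := by
  unfold Jm
  rw [skewMap_apply]
  simp

theorem Jm_inner (p1 p2 : α) (u w : EuclideanSpace ℝ α) :
    inner ℝ (Jm p1 p2 u) w = u p2 * w p1 - u p1 * w p2 := by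
  unfold Jm
  rw [skewMap_inner]
  simp

theorem Jm_skew (p1 p2 : α) (u w : EuclideanSpace ℝ α) :
    inner ℝ (Jm p1 p2 u) w = - inner ℝ u (Jm p1 p2 w) := skewMap_skew _ _ _ _ _

theorem Jm_inner_Jm (p1 p2 : α) (hp : p1 ≠ p2) (u w : EuclideanSpace ℝ α) :
    inner ℝ (Jm p1 p2 u) (Jm p1 p2 w) = u p2 * w p2 + u p1 * w p1 := by
  rw [Jm_inner, Jm_apply, Jm_apply]
  simp [hp, Ne.symm hp]

/-- The diagonal isometry of a word. -/
noncomputable def dg (g : α → ZMod 2) : EuclideanSpace ℝ α →L[ℝ] EuclideanSpace ℝ α :=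
  LinearMap.toContinuousLinearMap
    { toFun := fun y => WithLp.toLp 2 fun i => sg (g i) * y i
      map_add' := by
        intro x y
        ext i
        simp [mul_add]
      map_smul' := by
        intro r x
        ext i
        simp only [PiLp.smul_apply, smul_eq_mul, RingHom.id_apply]
        ring }

theorem dg_apply (g : α → ZMod 2) (y : EuclideanSpace ℝ α) (i : α) :
    dg g y i = sg (g i) * y i := rfl

theorem dg_inner (g : α → ZMod 2) (u w : EuclideanSpace ℝ α) :
    inner ℝ (dg g u) w = inner ℝ u (dg g w) := by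
  rw [inner_eq, inner_eq]
  refine Finset.sum_congr rfl fun p _ => ?_
  rw [dg_apply, dg_apply]; ring

theorem dg_dg (g : α → ZMod 2) (y : EuclideanSpace ℝ α) : dg g (dg g y) = y := by
  ext i
  rw [dg_apply, dg_apply, ← mul_assoc, sg_mul_self, one_mul]

theorem dg_vec (g c : α → ZMod 2) : dg g (vec c) = vec (c + g) := by
  ext i
  rw [dg_apply, vec_apply, vec_apply, Pi.add_apply, sg_add]
  ring

end basic

section conf

variable {α : Type*} [Fintype α] [DecidableEq α]
variable (C : Submodule (ZMod 2) (α → ZMod 2)) (g : α → ZMod 2)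

/-- The word of an index. -/
def wd (j : C × ZMod 2) : α → ZMod 2 := (j.1 : α → ZMod 2) + j.2 • g

omit [Fintype α] [DecidableEq α] in
theorem wd_add (j τ : C × ZMod 2) : wd C g (j + τ) = wd C g j + wd C g τ := by
  ext i
  simp only [wd, Prod.fst_add, Prod.snd_add, Submodule.coe_add, Pi.add_apply, Pi.smul_apply,
    smul_eq_mul]
  ring

omit [Fintype α] [DecidableEq α] in
theorem idx_add_add (j τ : C × ZMod 2) : j + τ + τ = j := by
  ext i
  · simp only [Prod.fst_add, Submodule.coe_add, Pi.add_apply]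
    rw [add_assoc, zmod2_add_self, add_zero]
  · simp only [Prod.snd_add]
    rw [add_assoc, zmod2_add_self, add_zero]

/-- The configuration of the two cosets. -/
noncomputable def cf (j : C × ZMod 2) : EuclideanSpace ℝ α := vec (wd C g j)

/-- The twist: the infinitesimal rotation on one coset and its opposite on the other. -/
noncomputable def tw (p1 p2 : α) (j : C × ZMod 2) : EuclideanSpace ℝ α :=
  sg j.2 • Jm p1 p2 (cf C g j)

omit [DecidableEq α] in
theorem cf_zero (c : C) : cf C g (c, 0) = fam C c := by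
  simp [cf, wd, fam]

omit [DecidableEq α] in
theorem cf_one (c : C) : cf C g (c, 1) = vec ((c : α → ZMod 2) + g) := by
  simp [cf, wd]

omit [DecidableEq α] in
theorem cf_apply (j : C × ZMod 2) (i : α) : cf C g j i = sg (wd C g j i) / √(Fintype.card α) := rfl

omit [DecidableEq α] in
theorem norm_cf [Nonempty α] (j : C × ZMod 2) : ‖cf C g j‖ = 1 := norm_vec _

/-- The products of two coordinates summed over a coset. -/
theorem sum_coset [Fintype C] (hC : RigC C) (h3 : 3 ≤ Fintype.card α) (b : ZMod 2) (p q : α) :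
    ∑ c : C, cf C g (c, b) p * cf C g (c, b) q =
      if p = q then (Fintype.card C : ℝ) / Fintype.card α else 0 := by
  have hn : (0 : ℝ) < Fintype.card α := by
    have : 0 < Fintype.card α := by omega
    exact_mod_cast this
  have h1 : ∀ c : C, cf C g (c, b) p * cf C g (c, b) q =
      (sg ((c : α → ZMod 2) p) * sg ((c : α → ZMod 2) q)) *
        (sg (b * g p) * sg (b * g q) / Fintype.card α) := by
    intro c
    rw [cf_apply, cf_apply]
    simp only [wd, Pi.add_apply, Pi.smul_apply, smul_eq_mul, sg_add]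
    have h2 := Real.mul_self_sqrt hn.le
    have h4 : √(Fintype.card α : ℝ) ≠ 0 := (Real.sqrt_pos.mpr hn).ne'
    field_simp
    rw [sq, h2]
    field_simp
  rw [Finset.sum_congr rfl fun c _ => h1 c, ← Finset.sum_mul, sum_two C hC h3]
  split_ifs with h
  · subst h
    rw [sg_mul_self]; ring
  · rw [zero_mul]

theorem trace_coset [Fintype C] (hC : RigC C) (h3 : 3 ≤ Fintype.card α) (b : ZMod 2)
    (M : EuclideanSpace ℝ α →L[ℝ] EuclideanSpace ℝ α) :
    ∑ c : C, inner ℝ (M (cf C g (c, b))) (cf C g (c, b)) =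
      (Fintype.card C : ℝ) / Fintype.card α * ∑ p, (M (EuclideanSpace.single p 1)) p := by
  have h1 : ∀ c : C, inner ℝ (M (cf C g (c, b))) (cf C g (c, b)) =
      ∑ p, ∑ q, (cf C g (c, b) p * cf C g (c, b) q) * (M (EuclideanSpace.single q 1)) p := by
    intro c
    rw [real_inner_comm, inner_map]
  rw [Finset.sum_congr rfl fun c _ => h1 c, Finset.sum_comm, Finset.mul_sum]
  refine Finset.sum_congr rfl fun p _ => ?_
  rw [Finset.sum_comm]
  have h2 : ∀ q, ∑ c : C, (cf C g (c, b) p * cf C g (c, b) q) *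
      (M (EuclideanSpace.single q 1)) p =
      if p = q then (Fintype.card C : ℝ) / Fintype.card α * (M (EuclideanSpace.single q 1)) p
        else 0 := by
    intro q
    rw [← Finset.sum_mul, sum_coset C g hC h3]
    split_ifs <;> simp
  rw [Finset.sum_congr rfl fun q _ => h2 q]
  simp

/-- Reconstruction of the basis vectors. -/
theorem sum_basis [Fintype C] (hC : RigC C) (h3 : 3 ≤ Fintype.card α) (b : ZMod 2) (p : α) :
    ∑ c : C, cf C g (c, b) p • cf C g (c, b) =
      ((Fintype.card C : ℝ) / Fintype.card α) • EuclideanSpace.single p (1 : ℝ) := by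
  ext q
  rw [WithLp.ofLp_sum, Finset.sum_apply]
  have := sum_coset C g hC h3 b p q
  simp only [PiLp.smul_apply, smul_eq_mul]
  rw [this]
  by_cases h : p = q
  · subst h; simp
  · simp [h, Ne.symm h]

theorem span_cf (hC : RigC C) (h3 : 3 ≤ Fintype.card α) :
    Submodule.span ℝ (Set.range (cf C g)) = ⊤ := by
  classical
  have : Fintype C := Fintype.ofFinite C
  have hn : (0 : ℝ) < Fintype.card α := by
    have : 0 < Fintype.card α := by omega
    exact_mod_cast this
  have hc : (0 : ℝ) < Fintype.card C := by exact_mod_cast Fintype.card_pos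
  have h1 : ∀ p : α, (EuclideanSpace.single p (1 : ℝ) : EuclideanSpace ℝ α) ∈
      Submodule.span ℝ (Set.range (cf C g)) := by
    intro p
    have h2 := sum_basis C g hC h3 0 p
    have h4 : (EuclideanSpace.single p (1 : ℝ) : EuclideanSpace ℝ α) =
        ((Fintype.card C : ℝ) / Fintype.card α)⁻¹ • ∑ c : C, cf C g (c, 0) p • cf C g (c, 0) := by
      rw [h2, smul_smul, inv_mul_cancel₀ (by positivity), one_smul]
    rw [h4]
    refine Submodule.smul_mem _ _ (Submodule.sum_mem _ fun c _ => Submodule.smul_mem _ _ ?_)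
    exact Submodule.subset_span ⟨_, rfl⟩
  rw [eq_top_iff]
  intro y _
  have h2 : y = ∑ q, y q • (EuclideanSpace.single q (1 : ℝ) : EuclideanSpace ℝ α) := by
    ext i
    rw [WithLp.ofLp_sum, Finset.sum_apply]
    simp
  rw [h2]
  exact Submodule.sum_mem _ fun q _ => Submodule.smul_mem _ _ (h1 q)

theorem tw_not_linear (hC : RigC C) (h3 : 3 ≤ Fintype.card α) (p1 p2 : α) (hp : p1 ≠ p2)
    (A : EuclideanSpace ℝ α →ₗ[ℝ] EuclideanSpace ℝ α)
    (hA : ∀ j, tw C g p1 p2 j = A (cf C g j)) : False := by
  classical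
  have : Fintype C := Fintype.ofFinite C
  have hn : (0 : ℝ) < Fintype.card α := by
    have : 0 < Fintype.card α := by omega
    exact_mod_cast this
  have hc : (0 : ℝ) < Fintype.card C := by exact_mod_cast Fintype.card_pos
  have key : ∀ b : ZMod 2, sg b • Jm p1 p2 (EuclideanSpace.single p2 (1 : ℝ)) =
      A (EuclideanSpace.single p2 (1 : ℝ)) := by
    intro b
    have h2 := sum_basis C g hC h3 b p2
    have h4 : (EuclideanSpace.single p2 (1 : ℝ) : EuclideanSpace ℝ α) =
        ((Fintype.card C : ℝ) / Fintype.card α)⁻¹ • ∑ c : C, cf C g (c, b) p2 • cf C g (c, b) := by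
      rw [h2, smul_smul, inv_mul_cancel₀ (by positivity), one_smul]
    rw [h4, map_smul, map_smul, map_sum, map_sum, smul_comm, Finset.smul_sum]
    congr 1
    refine Finset.sum_congr rfl fun c _ => ?_
    rw [map_smul, map_smul, smul_comm]
    congr 1
    exact hA (c, b)
  have h1 := (key 0).trans (key 1).symm
  rw [sg_zero, sg_one, one_smul] at h1
  have h2 := congrArg (fun y : EuclideanSpace ℝ α => y p1) h1
  simp only [PiLp.smul_apply, smul_eq_mul, Jm_apply] at h2
  simp [hp] at h2
  linarith

theorem inner_cf_cf [Nonempty α] (i j : C × ZMod 2) :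
    inner ℝ (cf C g i) (cf C g j) =
      ((Fintype.card α : ℝ) - 2 * wt (wd C g (i + j))) / Fintype.card α := by
  rw [wd_add]
  exact inner_vec_vec _ _

theorem inner_cf_iff [Nonempty α] (i j : C × ZMod 2) :
    inner ℝ (cf C g i) (cf C g j) = (1 / 2 : ℝ) ↔ 4 * wt (wd C g (i + j)) = Fintype.card α := by
  have hn : (0 : ℝ) < Fintype.card α := by exact_mod_cast Fintype.card_pos
  rw [inner_cf_cf, div_eq_iff hn.ne']
  constructor
  · intro h
    have : (4 * wt (wd C g (i + j)) : ℝ) = Fintype.card α := by linarith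
    exact_mod_cast this
  · intro h
    have : (4 * wt (wd C g (i + j)) : ℝ) = Fintype.card α := by exact_mod_cast h
    linarith

theorem tw_tangent (p1 p2 : α) (j : C × ZMod 2) :
    inner ℝ (cf C g j) (tw C g p1 p2 j) = (0 : ℝ) := by
  unfold tw
  rw [inner_smul_right, real_inner_comm, Jm_inner]
  ring_nf

theorem tw_flex [Nonempty α] (p1 p2 : α)
    (h4 : ∀ x ∈ C, 4 * wt (x + g) = Fintype.card α → (x + g) p1 = (x + g) p2)
    (i j : C × ZMod 2) (hij : inner ℝ (cf C g i) (cf C g j) = (1 / 2 : ℝ)) :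
    inner ℝ (cf C g i) (tw C g p1 p2 j) + inner ℝ (cf C g j) (tw C g p1 p2 i) = (0 : ℝ) := by
  rw [inner_cf_iff] at hij
  unfold tw
  rw [inner_smul_right, inner_smul_right, real_inner_comm, Jm_inner,
    real_inner_comm (Jm p1 p2 (cf C g i)) (cf C g j), Jm_inner]
  by_cases hb : i.2 = j.2
  · rw [hb]; ring
  · have hb1 : i.2 + j.2 = 1 := by
      rcases zmod2_cases i.2 with h5 | h5 <;> rcases zmod2_cases j.2 with h6 | h6
      · exact absurd (h5.trans h6.symm) hb
      · rw [h5, h6]; decide
      · rw [h5, h6]; decide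
      · exact absurd (h5.trans h6.symm) hb
    have h7 : wd C g (i + j) = ((i.1 + j.1 : C) : α → ZMod 2) + g := by
      unfold wd
      rw [Prod.snd_add, hb1, one_smul, Prod.fst_add]
    have h8 := h4 _ (i.1 + j.1).2 (by rw [← h7]; exact hij)
    rw [← h7, wd_add, Pi.add_apply, Pi.add_apply] at h8
    have h9 : sg (wd C g i p1) * sg (wd C g j p1) = sg (wd C g i p2) * sg (wd C g j p2) := by
      rw [← sg_add, ← sg_add, h8]
    have h10 : cf C g j p2 * cf C g i p1 = cf C g j p1 * cf C g i p2 := by
      rw [cf_apply, cf_apply, cf_apply, cf_apply]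
      have e1 := sg_mul_self (wd C g j p1)
      have e2 := sg_mul_self (wd C g j p2)
      have h11 : sg (wd C g j p2) * sg (wd C g i p1) = sg (wd C g j p1) * sg (wd C g i p2) := by
        calc sg (wd C g j p2) * sg (wd C g i p1)
            = sg (wd C g j p2) * sg (wd C g i p1) * (sg (wd C g j p1) * sg (wd C g j p1)) := by
              rw [e1, mul_one]
          _ = sg (wd C g j p2) * sg (wd C g j p1) * (sg (wd C g i p1) * sg (wd C g j p1)) := by ring
          _ = sg (wd C g j p2) * sg (wd C g j p1) * (sg (wd C g i p2) * sg (wd C g j p2)) := by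
              rw [h9]
          _ = sg (wd C g j p1) * sg (wd C g i p2) * (sg (wd C g j p2) * sg (wd C g j p2)) := by ring
          _ = _ := by rw [e2, mul_one]
      rw [div_mul_div_comm, div_mul_div_comm, h11]
    rw [h10]
    linear_combination (-(sg i.2)) * h10

end conf

end Pool.Agent.H976R3.Kiss
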