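import Pool.Agent.H976R3.Kiss.Twist2

/-!
# The first order motions of the configuration of two cosets
-/

set_option autoImplicit false

namespace Pool.Agent.H976R3.Kiss

section classify

variable {α : Type*} [Fintype α] [DecidableEq α]
variable (C : Submodule (ZMod 2) (α → ZMod 2)) (g : α → ZMod 2)

theorem entry_sum [Fintype C] (hC : RigC C) (h3 : 3 ≤ Fintype.card α)
    (S : EuclideanSpace ℝ α →L[ℝ] EuclideanSpace ℝ α)
    (hS : ∀ u w, inner ℝ (S u) w = - inner ℝ u (S w)) (w : α → ZMod 2)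
    (hle : ∀ c : C, inner ℝ (vec (c : α → ZMod 2)) (S (vec ((c : α → ZMod 2) + w))) ≤ (0 : ℝ))
    (i j : α) (hij : w i ≠ w j) : (S (EuclideanSpace.single j 1)) i = 0 := by
  have hn : (0 : ℝ) < Fintype.card α := by
    have : 0 < Fintype.card α := by omega
    exact_mod_cast this
  have hc : (0 : ℝ) < Fintype.card C := by exact_mod_cast Fintype.card_pos
  set s : α → α → ℝ := fun p q => (S (EuclideanSpace.single q 1)) p with hs
  have hsk : ∀ p q, s p q = - s q p := fun p q => skew_entry S hS q p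
  have hs0 : ∀ p, s p p = 0 := by
    intro p
    have := hsk p p
    linarith
  set H : C → ℝ := fun c => ∑ p, ∑ q, (sg ((c : α → ZMod 2) p) * sg ((c : α → ZMod 2) q)) *
    (sg (w q) * s p q) with hH
  have hHi : ∀ c : C, inner ℝ (vec (c : α → ZMod 2)) (S (vec ((c : α → ZMod 2) + w))) =
      H c / Fintype.card α := by
    intro c
    rw [inner_map]
    simp only [hH]
    rw [Finset.sum_div]
    refine Finset.sum_congr rfl fun p _ => ?_
    rw [Finset.sum_div]
    refine Finset.sum_congr rfl fun q _ => ?_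
    rw [vec_apply, vec_apply, Pi.add_apply, sg_add, div_mul_div_comm, Real.mul_self_sqrt hn.le]
    simp only [hs]
    ring
  have hHle : ∀ c, H c ≤ 0 := by
    intro c
    have h1 := hle c
    rw [hHi, div_le_iff₀ hn, zero_mul] at h1
    exact h1
  have hHsum : ∑ c, H c = 0 := by
    simp only [hH]
    rw [Finset.sum_comm]
    refine Finset.sum_eq_zero fun p _ => ?_
    rw [Finset.sum_comm]
    refine Finset.sum_eq_zero fun q _ => ?_
    rw [← Finset.sum_mul, sum_two C hC h3]
    split_ifs with h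
    · subst h
      rw [hs0, mul_zero, mul_zero]
    · rw [zero_mul]
  have hH0 : ∀ c, H c = 0 := fun c =>
    (Finset.sum_eq_zero_iff_of_nonpos fun c _ => hHle c).mp hHsum c (Finset.mem_univ c)
  have hne : i ≠ j := fun h => hij (by rw [h])
  have hkey : ∑ c : C, (sg ((c : α → ZMod 2) i) * sg ((c : α → ZMod 2) j)) * H c = 0 := by
    refine Finset.sum_eq_zero fun c _ => ?_
    rw [hH0, mul_zero]
  have hexp : ∑ c : C, (sg ((c : α → ZMod 2) i) * sg ((c : α → ZMod 2) j)) * H c =
      (Fintype.card C : ℝ) * (sg (w j) * s i j + sg (w i) * s j i) := by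
    have h1 : ∀ c : C, (sg ((c : α → ZMod 2) i) * sg ((c : α → ZMod 2) j)) * H c =
        ∑ p, ∑ q, ((sg ((c : α → ZMod 2) i) * sg ((c : α → ZMod 2) j)) *
          (sg ((c : α → ZMod 2) p) * sg ((c : α → ZMod 2) q))) * (sg (w q) * s p q) := by
      intro c
      simp only [hH]
      rw [Finset.mul_sum]
      refine Finset.sum_congr rfl fun p _ => ?_
      rw [Finset.mul_sum]
      refine Finset.sum_congr rfl fun q _ => ?_
      ring
    rw [Finset.sum_congr rfl fun c _ => h1 c, Finset.sum_comm]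
    have h2 : ∀ p q, ∑ c : C, ((sg ((c : α → ZMod 2) i) * sg ((c : α → ZMod 2) j)) *
          (sg ((c : α → ZMod 2) p) * sg ((c : α → ZMod 2) q))) * (sg (w q) * s p q) =
        (if i = p then (if j = q then (Fintype.card C : ℝ) * (sg (w j) * s i j) else 0) else 0) +
        (if j = p then (if i = q then (Fintype.card C : ℝ) * (sg (w i) * s j i) else 0) else 0) := by
      intro p q
      rw [← Finset.sum_mul]
      by_cases hpq : p = q
      · subst hpq
        rw [hs0, mul_zero, mul_zero]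
        by_cases h4 : i = p
        · subst h4
          rw [if_pos rfl, if_neg (Ne.symm hne), if_neg (Ne.symm hne), add_zero]
        · rw [if_neg h4, if_neg h4]
          simp
      · rw [sum_four C hC i j p q hne hpq]
        by_cases h4 : i = p
        · have h5 : j ≠ p := fun h5 => hne (h4.trans h5.symm)
          rw [if_pos h4, if_neg h5, add_zero]
          by_cases h6 : j = q
          · rw [if_pos h6, if_pos (Or.inl ⟨h4, h6⟩), ← h4, ← h6]
          · rw [if_neg h6, if_neg, zero_mul]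
            rintro (⟨-, h7⟩ | ⟨-, h7⟩)
            · exact h6 h7
            · exact h5 h7
        · rw [if_neg h4, zero_add]
          by_cases h5 : j = p
          · rw [if_pos h5]
            by_cases h6 : i = q
            · rw [if_pos h6, if_pos (Or.inr ⟨h6, h5⟩), ← h5, ← h6]
            · rw [if_neg h6, if_neg, zero_mul]
              rintro (⟨h7, -⟩ | ⟨h7, -⟩)
              · exact h4 h7
              · exact h6 h7
          · rw [if_neg h5, if_neg, zero_mul]
            rintro (⟨h7, -⟩ | ⟨-, h7⟩)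
            · exact h4 h7
            · exact h5 h7
    have h5 : ∀ p, ∑ c : C, ∑ q, ((sg ((c : α → ZMod 2) i) * sg ((c : α → ZMod 2) j)) *
          (sg ((c : α → ZMod 2) p) * sg ((c : α → ZMod 2) q))) * (sg (w q) * s p q) =
        ∑ q, ((if i = p then (if j = q then (Fintype.card C : ℝ) * (sg (w j) * s i j) else 0) else 0) +
        (if j = p then (if i = q then (Fintype.card C : ℝ) * (sg (w i) * s j i) else 0) else 0)) := by
      intro p
      rw [Finset.sum_comm]
      exact Finset.sum_congr rfl fun q _ => h2 p q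
    rw [Finset.sum_congr rfl fun p _ => h5 p]
    simp only [Finset.sum_add_distrib]
    have h6 : ∀ (a b : α) (x : ℝ), ∑ p, ∑ q, (if a = p then (if b = q then x else 0) else 0) = x := by
      intro a b x
      have h7 : ∀ p, ∑ q, (if a = p then (if b = q then x else 0) else 0) = if a = p then x else 0 := by
        intro p
        split_ifs <;> simp
      rw [Finset.sum_congr rfl fun p _ => h7 p]
      simp
    rw [h6, h6]
    ring
  rw [hexp, mul_eq_zero] at hkey
  have h4 := hkey.resolve_left hc.ne'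
  rw [hsk j i] at h4
  show s i j = 0
  rcases zmod2_cases (w i) with h5 | h5 <;> rcases zmod2_cases (w j) with h6 | h6
  · exact absurd (h5.trans h6.symm) hij
  · rw [h5, h6, sg_zero, sg_one] at h4; linarith
  · rw [h5, h6, sg_zero, sg_one] at h4; linarith
  · exact absurd (h5.trans h6.symm) hij

theorem skew_eq (S : EuclideanSpace ℝ α →L[ℝ] EuclideanSpace ℝ α)
    (hS : ∀ u w, inner ℝ (S u) w = - inner ℝ u (S w)) (p1 p2 : α) (hp : p1 ≠ p2)
    (h : ∀ i j, i ≠ j → ¬ ((i = p1 ∧ j = p2) ∨ (i = p2 ∧ j = p1)) →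
      (S (EuclideanSpace.single j 1)) i = 0) (y : EuclideanSpace ℝ α) :
    S y = ((S (EuclideanSpace.single p2 1)) p1) • Jm p1 p2 y := by
  set κ := (S (EuclideanSpace.single p2 1)) p1 with hκ
  have hs : ∀ k q, (S (EuclideanSpace.single q 1)) k =
      κ * ((if k = p1 then (if q = p2 then 1 else 0) else 0) -
        (if k = p2 then (if q = p1 then 1 else 0) else 0)) := by
    intro k q
    by_cases hkq : k = q
    · subst hkq
      have h1 := skew_entry S hS k k
      have h2 : (S (EuclideanSpace.single k 1)) k = 0 := by linarith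
      rw [h2]
      by_cases h4 : k = p1
      · subst h4
        rw [if_pos rfl, if_neg hp, if_neg hp]; simp
      · rw [if_neg h4, if_neg h4]; simp
    · by_cases h4 : k = p1 ∧ q = p2
      · rw [h4.1, h4.2, if_pos rfl, if_pos rfl, if_neg hp, ← hκ]; ring
      · by_cases h5 : k = p2 ∧ q = p1
        · rw [h5.1, h5.2, if_neg (Ne.symm hp), if_pos rfl, if_pos rfl, skew_entry S hS, ← hκ]; ring
        · rw [h k q hkq (by tauto)]
          by_cases h6 : k = p1
          · have h7 : q ≠ p2 := fun h7 => h4 ⟨h6, h7⟩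
            have h8 : k ≠ p2 := fun h8 => hp (h6.symm.trans h8)
            rw [if_pos h6, if_neg h7, if_neg h8]; ring
          · rw [if_neg h6]
            by_cases h8 : k = p2
            · have h7 : q ≠ p1 := fun h7 => h5 ⟨h8, h7⟩
              rw [if_pos h8, if_neg h7]; ring
            · rw [if_neg h8]; ring
  ext k
  rw [map_apply]
  simp only [PiLp.smul_apply, smul_eq_mul, Jm_apply]
  rw [Finset.sum_congr rfl fun q _ => by rw [hs k q]]
  by_cases h1 : k = p1
  · have h2 : k ≠ p2 := fun h8 => hp (h1.symm.trans h8)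
    simp only [if_pos h1, if_neg h2]
    simp
    ring
  · by_cases h2 : k = p2
    · simp only [if_neg h1, if_pos h2]
      simp
      ring
    · simp only [if_neg h1, if_neg h2]
      simp

theorem classify [Fintype C] (hC : RigC C) (h3 : 3 ≤ Fintype.card α) (p1 p2 : α) (hp : p1 ≠ p2)
    (hsplit : ∀ i j, i ≠ j → ¬ ((i = p1 ∧ j = p2) ∨ (i = p2 ∧ j = p1)) →
      ∃ x ∈ C, 4 * wt (x + g) = Fintype.card α ∧ (x + g) i ≠ (x + g) j)
    (v : C × ZMod 2 → EuclideanSpace ℝ α) (hv : ∀ j, inner ℝ (cf C g j) (v j) = (0 : ℝ))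
    (hcon : ∀ i j, i ≠ j → inner ℝ (cf C g i) (cf C g j) = (1 / 2 : ℝ) →
      inner ℝ (cf C g i) (v j) + inner ℝ (cf C g j) (v i) ≤ 0) :
    ∃ (A : EuclideanSpace ℝ α →L[ℝ] EuclideanSpace ℝ α) (κ : ℝ),
      (∀ u w, inner ℝ (A u) w = - inner ℝ u (A w)) ∧
      ∀ j, v j = A (cf C g j) + κ • tw C g p1 p2 j := by
  have hne : Nonempty α := ⟨p1⟩
  obtain ⟨A0, hA0, hvA0⟩ := infJammed_of_rigC C hC (fun c => v (c, 0)) (fun c => by
      have := hv (c, 0)
      rwa [cf_zero] at this) (fun i j hij hc => by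
      have := hcon (i, 0) (j, 0) (fun h => hij (congrArg Prod.fst h)) (by
        rw [cf_zero, cf_zero]; exact hc)
      rwa [cf_zero, cf_zero] at this)
  have hvec : ∀ c : C, vec ((c : α → ZMod 2) + g) = dg g (fam C c) := fun c => (dg_vec g c).symm
  obtain ⟨A1', hA1', hvA1'⟩ := infJammed_of_rigC C hC (fun c => dg g (v (c, 1))) (fun c => by
      have := hv (c, 1)
      rw [cf_one, hvec, dg_inner] at this
      exact this) (fun i j hij hc => by
      have := hcon (i, 1) (j, 1) (fun h => hij (congrArg Prod.fst h)) (by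
        rw [cf_one, cf_one, hvec, hvec, dg_inner, dg_dg]; exact hc)
      rw [cf_one, cf_one, hvec, hvec, dg_inner, dg_inner] at this
      exact this)
  set A1 : EuclideanSpace ℝ α →L[ℝ] EuclideanSpace ℝ α := (dg g).comp (A1'.comp (dg g)) with hA1d
  have hA1a : ∀ y, A1 y = dg g (A1' (dg g y)) := fun y => rfl
  have hA1 : ∀ u w, inner ℝ (A1 u) w = - inner ℝ u (A1 w) := by
    intro u w
    rw [hA1a, hA1a, dg_inner, hA1', ← dg_inner]
  have hv1 : ∀ c : C, v (c, 1) = A1 (vec ((c : α → ZMod 2) + g)) := by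
    intro c
    rw [hA1a, hvec, dg_dg, ← hvA1', dg_dg]
  set S : EuclideanSpace ℝ α →L[ℝ] EuclideanSpace ℝ α := A1 - A0 with hSd
  have hSa : ∀ y, S y = A1 y - A0 y := fun y => rfl
  have hS : ∀ u w, inner ℝ (S u) w = - inner ℝ u (S w) := by
    intro u w
    rw [hSa, hSa, inner_sub_left, inner_sub_right, hA1, hA0]; ring
  have hSJ := skew_eq S hS p1 p2 hp (fun i j hij hnot => by
    obtain ⟨x, hx, hwt, hne'⟩ := hsplit i j hij hnot
    refine entry_sum C hC h3 S hS (x + g) (fun c => ?_) i j hne'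
    have h1 := hcon (c, 0) (c + ⟨x, hx⟩, 1) (fun h => zero_ne_one (congrArg Prod.snd h)) (by
      rw [inner_cf_iff, ← hwt]
      congr 1
      congr 1
      ext k
      simp only [wd, Prod.fst_add, Prod.snd_add, Submodule.coe_add, Pi.add_apply,
        zero_add, one_smul]
      rw [← add_assoc, zmod2_add_self, zero_add])
    rw [cf_zero, cf_one, hv1] at h1
    have h2 := hvA0 c
    rw [h2] at h1
    have h5 : (((c + ⟨x, hx⟩ : C) : α → ZMod 2) + g) = (c : α → ZMod 2) + (x + g) := by
      rw [Submodule.coe_add, add_assoc]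
    rw [h5] at h1
    have h6 : fam C c = vec (c : α → ZMod 2) := rfl
    rw [h6, real_inner_comm (A0 (vec (c : α → ZMod 2))), hA0] at h1
    rw [hSa, inner_sub_right]
    linarith)
  set κ := (S (EuclideanSpace.single p2 1)) p1 with hκ
  refine ⟨A0 + (κ / 2) • Jm p1 p2, -(κ / 2), ?_, ?_⟩
  · intro u w
    have h1 : ∀ y, (A0 + (κ / 2) • Jm p1 p2) y = A0 y + (κ / 2) • Jm p1 p2 y := fun y => rfl
    rw [h1, h1, inner_add_left, inner_add_right, inner_smul_left, inner_smul_right, hA0, Jm_skew]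
    simp
    ring
  · rintro ⟨c, b⟩
    have h1 : ∀ y, (A0 + (κ / 2) • Jm p1 p2) y = A0 y + (κ / 2) • Jm p1 p2 y := fun y => rfl
    rw [h1]
    unfold tw
    rcases zmod2_cases b with rfl | rfl
    · have h2 := hvA0 c
      rw [h2, cf_zero]
      simp only
      rw [sg_zero]
      module
    · rw [hv1, cf_one]
      have h2 : A1 (vec ((c : α → ZMod 2) + g)) = A0 (vec ((c : α → ZMod 2) + g)) +
          κ • Jm p1 p2 (vec ((c : α → ZMod 2) + g)) := by
        rw [← hSJ, hSa]; abel
      rw [h2]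
      simp only
      rw [sg_one]
      module

theorem tw_orth [Fintype C] (hC : RigC C) (h3 : 3 ≤ Fintype.card α) (p1 p2 : α)
    (A : EuclideanSpace ℝ α →L[ℝ] EuclideanSpace ℝ α) :
    ∑ j, inner ℝ (A (tw C g p1 p2 j)) (cf C g j) = (0 : ℝ) := by
  rw [Fintype.sum_prod_type, Finset.sum_comm]
  have h1 : ∀ b : ZMod 2, ∑ c : C, inner ℝ (A (tw C g p1 p2 (c, b))) (cf C g (c, b)) =
      sg b * ((Fintype.card C : ℝ) / Fintype.card α *
        ∑ p, ((A.comp (Jm p1 p2)) (EuclideanSpace.single p 1)) p) := by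
    intro b
    rw [← trace_coset C g hC h3 b, Finset.mul_sum]
    refine Finset.sum_congr rfl fun c _ => ?_
    unfold tw
    rw [map_smul, inner_smul_left]
    rfl
  rw [Finset.sum_congr rfl fun b _ => h1 b, ← Finset.sum_mul]
  have h2 : ∑ b : ZMod 2, sg b = 0 := by
    have : ∑ b : ZMod 2, sg b = sg 0 + sg 1 := Fin.sum_univ_two _
    rw [this, sg_zero, sg_one]; ring
  rw [h2, zero_mul]

theorem flex_eq [Fintype C] (hC : RigC C) (h3 : 3 ≤ Fintype.card α) (p1 p2 : α) (hp : p1 ≠ p2)
    (hsplit : ∀ i j, i ≠ j → ¬ ((i = p1 ∧ j = p2) ∨ (i = p2 ∧ j = p1)) →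
      ∃ x ∈ C, 4 * wt (x + g) = Fintype.card α ∧ (x + g) i ≠ (x + g) j)
    (v : C × ZMod 2 → EuclideanSpace ℝ α) (hv : ∀ j, inner ℝ (cf C g j) (v j) = (0 : ℝ))
    (hcon : ∀ i j, i ≠ j → inner ℝ (cf C g i) (cf C g j) = (1 / 2 : ℝ) →
      inner ℝ (cf C g i) (v j) + inner ℝ (cf C g j) (v i) ≤ 0)
    (horth : ∀ A : EuclideanSpace ℝ α →L[ℝ] EuclideanSpace ℝ α,
      (∀ u w, inner ℝ (A u) w = - inner ℝ u (A w)) →
      ∑ j, inner ℝ (A (v j)) (cf C g j) = (0 : ℝ)) :
    ∃ κ : ℝ, ∀ j, v j = κ • tw C g p1 p2 j := by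
  obtain ⟨A, κ, hA, hvA⟩ := classify C g hC h3 p1 p2 hp hsplit v hv hcon
  refine ⟨κ, ?_⟩
  have h1 := horth A hA
  have h2 : ∑ j, inner ℝ (A (v j)) (cf C g j) = - ∑ j, ‖A (cf C g j)‖ ^ 2 := by
    have h4 : ∀ j, inner ℝ (A (v j)) (cf C g j) = - ‖A (cf C g j)‖ ^ 2 +
        κ * inner ℝ (A (tw C g p1 p2 j)) (cf C g j) := by
      intro j
      rw [hvA j, map_add, map_smul, inner_add_left, inner_smul_left, hA (A (cf C g j)),
        real_inner_self_eq_norm_sq]
      rfl
    rw [Finset.sum_congr rfl fun j _ => h4 j, Finset.sum_add_distrib, ← Finset.mul_sum,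
      tw_orth C g hC h3, mul_zero, add_zero, Finset.sum_neg_distrib]
  rw [h2, neg_eq_zero, Finset.sum_eq_zero_iff_of_nonneg fun j _ => by positivity] at h1
  intro j
  have h4 := h1 j (Finset.mem_univ j)
  have h5 : A (cf C g j) = 0 := by
    rw [← norm_eq_zero]
    exact pow_eq_zero_iff (two_ne_zero) |>.mp h4
  rw [hvA j, h5, zero_add]

end classify

end Pool.Agent.H976R3.Kiss
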