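import Pool.Agent.H976R3.Kiss.Twist3
import Pool.Agent.H976R3.Kiss.Iter

/-!
# The second order obstruction and the final configuration
-/

set_option autoImplicit false

namespace Pool.Agent.H976R3.Kiss

section quad

variable {α : Type*} [Fintype α] [DecidableEq α]
variable (C : Submodule (ZMod 2) (α → ZMod 2)) (g : α → ZMod 2)

/-- The quadratic function of a stress. -/
noncomputable def qf [Fintype C] {K : Type*} [Fintype K] (ω : K → ℝ) (τ : K → C × ZMod 2)
    (d : C × ZMod 2 → EuclideanSpace ℝ α) : ℝ :=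
  ∑ j, ∑ k, ω k * (inner ℝ (d j) (d (j + τ k)) - 1 / 2 * inner ℝ (d j) (d j))

omit [DecidableEq α] in
theorem qf_continuous [Fintype C] {K : Type*} [Fintype K] (ω : K → ℝ) (τ : K → C × ZMod 2) :
    Continuous (qf C ω τ) := by
  unfold qf
  refine continuous_finsetSum _ fun j _ => continuous_finsetSum _ fun k _ => ?_
  refine continuous_const.mul (Continuous.sub ?_ (continuous_const.mul ?_))
  · exact (continuous_apply j).inner (continuous_apply _)
  · exact (continuous_apply j).inner (continuous_apply _)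

omit [DecidableEq α] in
theorem qf_smul [Fintype C] {K : Type*} [Fintype K] (ω : K → ℝ) (τ : K → C × ZMod 2)
    (r : ℝ) (d : C × ZMod 2 → EuclideanSpace ℝ α) : qf C ω τ (r • d) = r ^ 2 * qf C ω τ d := by
  unfold qf
  rw [Finset.mul_sum]
  refine Finset.sum_congr rfl fun j _ => ?_
  rw [Finset.mul_sum]
  refine Finset.sum_congr rfl fun k _ => ?_
  simp only [Pi.smul_apply, inner_smul_left, inner_smul_right]
  simp
  ring

omit [DecidableEq α] in
theorem equilibrium {K : Type*} [Fintype K] (ω : K → ℝ) (τ : K → C × ZMod 2)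
    (heq : ∀ i, ∑ k, ω k * (sg (wd C g (τ k) i) - 1 / 2) = 0) (j : C × ZMod 2) :
    ∑ k, ω k • cf C g (j + τ k) = (1 / 2 * ∑ k, ω k) • cf C g j := by
  ext i
  rw [WithLp.ofLp_sum, Finset.sum_apply]
  simp only [PiLp.smul_apply, smul_eq_mul, cf_apply, wd_add, Pi.add_apply, sg_add]
  have h1 := heq i
  have h2 : ∑ k, ω k * sg (wd C g (τ k) i) = 1 / 2 * ∑ k, ω k := by
    rw [Finset.mul_sum, ← sub_eq_zero, ← Finset.sum_sub_distrib, ← h1]
    refine Finset.sum_congr rfl fun k _ => ?_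
    ring
  have h3 : ∀ k, ω k * (sg (wd C g j i) * sg (wd C g (τ k) i) / √(Fintype.card α)) =
      (ω k * sg (wd C g (τ k) i)) * (sg (wd C g j i) / √(Fintype.card α)) := by
    intro k; ring
  rw [Finset.sum_congr rfl fun k _ => h3 k, ← Finset.sum_mul, h2]

theorem qf_nonpos [Nonempty α] [Fintype C] {K : Type*} [Fintype K] (ω : K → ℝ)
    (τ : K → C × ZMod 2) (hω : ∀ k, 0 ≤ ω k)
    (hτ : ∀ k, 4 * wt (wd C g (τ k)) = Fintype.card α)
    (heq : ∀ i, ∑ k, ω k * (sg (wd C g (τ k) i) - 1 / 2) = 0)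
    (y : C × ZMod 2 → EuclideanSpace ℝ α) (hy : ∀ j, ‖y j‖ = 1)
    (hy2 : ∀ i j, i ≠ j → inner ℝ (y i) (y j) ≤ (1 / 2 : ℝ)) :
    qf C ω τ (fun j => y j - cf C g j) ≤ 0 := by
  have hL : ∑ j, ∑ k, ω k * (inner ℝ (y j) (y (j + τ k)) - 1 / 2) ≤ 0 := by
    refine Finset.sum_nonpos fun j _ => Finset.sum_nonpos fun k _ => ?_
    have h1 : j ≠ j + τ k := by
      intro h
      have h2 : τ k = 0 := by
        have := add_eq_left.mp h.symm
        exact this
      have h3 := hτ k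
      rw [h2] at h3
      have h4 : wt (wd C g (0 : C × ZMod 2)) = 0 := by simp [wt, wd]
      rw [h4] at h3
      have := Fintype.card_pos (α := α)
      omega
    have h2 := hy2 j (j + τ k) h1
    exact mul_nonpos_of_nonneg_of_nonpos (hω k) (by linarith)
  refine le_of_eq_of_le ?_ hL
  unfold qf
  set X := cf C g with hX
  have hX1 : ∀ j, ‖X j‖ = 1 := norm_cf C g
  have hXc : ∀ j k, inner ℝ (X j) (X (j + τ k)) = (1 / 2 : ℝ) := by
    intro j k
    rw [inner_cf_iff, ← hτ k, ← add_assoc]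
    congr 2
    have : j + j + τ k = τ k := by
      rw [add_comm, ← add_assoc, add_comm (τ k) j, add_assoc, add_comm (τ k) j, ← add_assoc]
      have := idx_add_add C (τ k) j
      rw [add_assoc, add_comm, ] at this
      exact this
    rw [this]
  set d : C × ZMod 2 → EuclideanSpace ℝ α := fun j => y j - X j with hd
  have hyd : ∀ j, y j = X j + d j := by
    intro j; simp only [hd]; rw [add_sub_cancel]
  have hdd : ∀ j, inner ℝ (X j) (d j) = - (1 / 2) * inner ℝ (d j) (d j) := by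
    intro j
    have h1 := hy j
    have h2 : inner ℝ (y j) (y j) = (1 : ℝ) := by rw [real_inner_self_eq_norm_sq, h1]; norm_num
    have h3 : inner ℝ (X j) (X j) = (1 : ℝ) := by rw [real_inner_self_eq_norm_sq, hX1]; norm_num
    rw [hyd j, inner_add_left, inner_add_right, inner_add_right, h3,
      real_inner_comm (X j) (d j)] at h2
    linarith
  have hsum1 : ∑ j, ∑ k, ω k * (inner ℝ (y j) (y (j + τ k)) - 1 / 2) =
      ∑ j, ∑ k, ω k * (inner ℝ (X j) (d (j + τ k)) + inner ℝ (X (j + τ k)) (d j) +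
        inner ℝ (d j) (d (j + τ k))) := by
    refine Finset.sum_congr rfl fun j _ => Finset.sum_congr rfl fun k _ => ?_
    congr 1
    rw [hyd j, hyd (j + τ k), inner_add_left, inner_add_right, inner_add_right, hXc,
      real_inner_comm (X (j + τ k)) (d j)]
    ring
  have hshift : ∑ j, ∑ k, ω k * inner ℝ (X j) (d (j + τ k)) =
      ∑ j, ∑ k, ω k * inner ℝ (X (j + τ k)) (d j) := by
    rw [Finset.sum_comm, Finset.sum_comm (f := fun j k => ω k * inner ℝ (X (j + τ k)) (d j))]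
    refine Finset.sum_congr rfl fun k _ => ?_
    rw [← Equiv.sum_comp (Equiv.addRight (τ k))]
    refine Finset.sum_congr rfl fun j _ => ?_
    simp only [Equiv.coe_addRight, idx_add_add]
  have hequi : ∀ j, ∑ k, ω k * inner ℝ (X (j + τ k)) (d j) =
      - (1 / 4) * (∑ k, ω k) * inner ℝ (d j) (d j) := by
    intro j
    have h1 := equilibrium C g ω τ heq j
    have h2 : ∑ k, ω k * inner ℝ (X (j + τ k)) (d j) =
        inner ℝ (∑ k, ω k • cf C g (j + τ k)) (d j) := by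
      rw [sum_inner]
      refine Finset.sum_congr rfl fun k _ => ?_
      rw [inner_smul_left]
      rfl
    rw [h2, h1, inner_smul_left, hdd]
    simp
    ring
  rw [hsum1]
  simp only [mul_add, Finset.sum_add_distrib]
  rw [hshift]
  simp only [mul_sub, Finset.sum_sub_distrib]
  rw [Finset.sum_congr rfl fun j _ => hequi j]
  have h5 : ∑ j, ∑ k, ω k * (1 / 2 * inner ℝ (d j) (d j)) =
      ∑ j, (1 / 2) * (∑ k, ω k) * inner ℝ (d j) (d j) := by
    refine Finset.sum_congr rfl fun j _ => ?_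
    rw [← Finset.sum_mul]; ring
  rw [h5]
  have h6 : ∑ j, - (1 / 4) * (∑ k, ω k) * inner ℝ (d j) (d j) +
      ∑ j, - (1 / 4) * (∑ k, ω k) * inner ℝ (d j) (d j) =
      - ∑ j, (1 / 2) * (∑ k, ω k) * inner ℝ (d j) (d j) := by
    rw [← Finset.sum_add_distrib, ← Finset.sum_neg_distrib]
    refine Finset.sum_congr rfl fun j _ => ?_
    ring
  rw [h6]
  ring

theorem qf_tw [Nonempty α] [Fintype C] {K : Type*} [Fintype K] (ω : K → ℝ) (τ : K → C × ZMod 2)
    (p1 p2 : α) (hp : p1 ≠ p2)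
    (hpos : 0 < ∑ k, ω k * (sg (τ k).2 * (sg (wd C g (τ k) p1) + sg (wd C g (τ k) p2)) - 1)) :
    0 < qf C ω τ (tw C g p1 p2) := by
  have hn : (0 : ℝ) < Fintype.card α := by exact_mod_cast Fintype.card_pos
  have h1 : ∀ j k, inner ℝ (tw C g p1 p2 j) (tw C g p1 p2 (j + τ k)) =
      sg (τ k).2 * (sg (wd C g (τ k) p1) + sg (wd C g (τ k) p2)) / Fintype.card α := by
    intro j k
    unfold tw
    rw [inner_smul_left, inner_smul_right, Jm_inner_Jm p1 p2 hp, cf_apply, cf_apply, cf_apply,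
      cf_apply, wd_add, Pi.add_apply, Pi.add_apply, sg_add, sg_add, Prod.snd_add, sg_add,
      div_mul_div_comm, div_mul_div_comm, Real.mul_self_sqrt hn.le]
    have e1 := sg_mul_self (wd C g j p1)
    have e2 := sg_mul_self (wd C g j p2)
    have e3 := sg_mul_self j.2
    have h4 : (starRingEnd ℝ) (sg j.2) = sg j.2 := rfl
    rw [h4]
    have h5 : sg j.2 * (sg j.2 * sg (τ k).2 *
        (sg (wd C g j p2) * (sg (wd C g j p2) * sg (wd C g (τ k) p2)) / (Fintype.card α : ℝ) +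
        sg (wd C g j p1) * (sg (wd C g j p1) * sg (wd C g (τ k) p1)) / (Fintype.card α : ℝ))) =
        (sg j.2 * sg j.2) * sg (τ k).2 *
        ((sg (wd C g j p2) * sg (wd C g j p2)) * sg (wd C g (τ k) p2) +
        (sg (wd C g j p1) * sg (wd C g j p1)) * sg (wd C g (τ k) p1)) / (Fintype.card α : ℝ) := by
      ring
    rw [h5, e1, e2, e3]
    ring
  have h2 : ∀ j, inner ℝ (tw C g p1 p2 j) (tw C g p1 p2 j) = 2 / (Fintype.card α : ℝ) := by
    intro j
    unfold tw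
    rw [inner_smul_left, inner_smul_right, Jm_inner_Jm p1 p2 hp, cf_apply, cf_apply,
      div_mul_div_comm, div_mul_div_comm, Real.mul_self_sqrt hn.le, sg_mul_self, sg_mul_self]
    have e3 := sg_mul_self j.2
    have h4 : (starRingEnd ℝ) (sg j.2) = sg j.2 := rfl
    rw [h4, ← mul_assoc, e3]
    ring
  have h3 : qf C ω τ (tw C g p1 p2) = ∑ j : C × ZMod 2,
      (∑ k, ω k * (sg (τ k).2 * (sg (wd C g (τ k) p1) + sg (wd C g (τ k) p2)) - 1)) /
        (Fintype.card α : ℝ) := by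
    unfold qf
    refine Finset.sum_congr rfl fun j _ => ?_
    rw [Finset.sum_div]
    refine Finset.sum_congr rfl fun k _ => ?_
    rw [h1, h2]
    ring
  rw [h3]
  exact Finset.sum_pos (fun j _ => div_pos hpos hn) ⟨0, Finset.mem_univ _⟩

theorem isolated_cf [Fintype C] (hC : RigC C) (h3 : 3 ≤ Fintype.card α) (p1 p2 : α)
    (hp : p1 ≠ p2)
    (hsplit : ∀ i j, i ≠ j → ¬ ((i = p1 ∧ j = p2) ∨ (i = p2 ∧ j = p1)) →
      ∃ x ∈ C, 4 * wt (x + g) = Fintype.card α ∧ (x + g) i ≠ (x + g) j)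
    {K : Type*} [Fintype K] (ω : K → ℝ) (τ : K → C × ZMod 2) (hω : ∀ k, 0 ≤ ω k)
    (hτ : ∀ k, 4 * wt (wd C g (τ k)) = Fintype.card α)
    (heq : ∀ i, ∑ k, ω k * (sg (wd C g (τ k) i) - 1 / 2) = 0)
    (hpos : 0 < ∑ k, ω k * (sg (τ k).2 * (sg (wd C g (τ k) p1) + sg (wd C g (τ k) p2)) - 1)) :
    ∃ ε : ℝ, 0 < ε ∧ ∀ y : C × ZMod 2 → EuclideanSpace ℝ α, (∀ i, ‖y i‖ = 1) →
      (∀ i, ‖y i - cf C g i‖ < ε) → (∀ i j, i ≠ j → inner ℝ (y i) (y j) ≤ (1 / 2 : ℝ)) →
      ∃ e : EuclideanSpace ℝ α ≃ₗᵢ[ℝ] EuclideanSpace ℝ α, ∀ i, y i = e (cf C g i) := by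
  have hne : Nonempty α := ⟨p1⟩
  refine isolated2 (cf C g) (1 / 2) (norm_cf C g) (qf C ω τ) (qf_continuous C ω τ)
    (qf_smul C ω τ) (fun y hy hy2 => qf_nonpos C g ω τ hω hτ heq y hy hy2) ?_
  intro v hv hcon horth hq
  obtain ⟨κ, hκ⟩ := flex_eq C g hC h3 p1 p2 hp hsplit v hv hcon horth
  have h1 : v = κ • tw C g p1 p2 := funext hκ
  rw [h1, qf_smul] at hq
  have h2 := qf_tw C g ω τ p1 p2 hp hpos
  have h4 : κ = 0 := by
    by_contra h5
    have : 0 < κ ^ 2 := by positivity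
    nlinarith [mul_pos this h2]
  rw [h1, h4, zero_smul]

theorem isolated_cf' [Fintype C] (hC : RigC C) (hS : Str C) (h3 : 3 ≤ Fintype.card α) (p1 p2 : α)
    (hp : p1 ≠ p2)
    (hsplit : ∀ i j, i ≠ j → ¬ ((i = p1 ∧ j = p2) ∨ (i = p2 ∧ j = p1)) →
      ∃ x ∈ C, 4 * wt (x + g) = Fintype.card α ∧ (x + g) i ≠ (x + g) j)
    (hboth : ∃ x ∈ C, 4 * wt (x + g) = Fintype.card α ∧ (x + g) p1 ≠ 0 ∧ (x + g) p2 ≠ 0) :
    ∃ ε : ℝ, 0 < ε ∧ ∀ y : C × ZMod 2 → EuclideanSpace ℝ α, (∀ i, ‖y i‖ = 1) →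
      (∀ i, ‖y i - cf C g i‖ < ε) → (∀ i j, i ≠ j → inner ℝ (y i) (y j) ≤ (1 / 2 : ℝ)) →
      ∃ e : EuclideanSpace ℝ α ≃ₗᵢ[ℝ] EuclideanSpace ℝ α, ∀ i, y i = e (cf C g i) := by
  obtain ⟨x, hx, hxw, hx1, hx2⟩ := hboth
  obtain ⟨κ, hκ, ω, W, hω, hW, hsum⟩ := hS (fun i => -(sg ((x + g) i) - 1 / 2)) (by
    rw [Finset.sum_neg_distrib, Finset.sum_sub_distrib, sum_sg]
    have h1 : (Fintype.card α : ℝ) = 4 * wt (x + g) := by exact_mod_cast hxw.symm
    simp
    rw [h1]; ring)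
  have hwd : ∀ k, wd C g ((⟨W k, (hW k).1⟩, 0) : C × ZMod 2) = W k := by
    intro k; simp [wd]
  have hwx : wd C g ((⟨x, hx⟩, 1) : C × ZMod 2) = x + g := by simp [wd]
  have e1 : sg ((x + g) p1) = -1 := by rw [(zmod2_cases _).resolve_left hx1, sg_one]
  have e2 : sg ((x + g) p2) = -1 := by rw [(zmod2_cases _).resolve_left hx2, sg_one]
  refine isolated_cf C g hC h3 p1 p2 hp hsplit (K := Option κ)
    (fun k => k.elim 1 ω) (fun k => k.elim (⟨x, hx⟩, 1) fun k => (⟨W k, (hW k).1⟩, 0)) ?_ ?_ ?_ ?_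
  · rintro (_ | k)
    · exact zero_le_one
    · exact hω k
  · rintro (_ | k)
    · simp only [Option.elim]
      rw [hwx]; exact hxw
    · simp only [Option.elim]
      rw [hwd]; exact (hW k).2
  · intro i
    rw [Fintype.sum_option]
    simp only [Option.elim, hwd, hwx]
    rw [hsum]; ring
  · rw [Fintype.sum_option]
    simp only [Option.elim, hwd, hwx, sg_zero, sg_one, e1, e2]
    have h1 := hsum p1
    have h2 := hsum p2
    simp only [e1, e2] at h1 h2
    have h4 : ∑ k, ω k * (1 * (sg (W k p1) + sg (W k p2)) - 1) =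
        ∑ k, ω k * (sg (W k p1) - 1 / 2) + ∑ k, ω k * (sg (W k p2) - 1 / 2) := by
      rw [← Finset.sum_add_distrib]
      refine Finset.sum_congr rfl fun k _ => ?_
      ring
    rw [h4, h1, h2]
    norm_num

end quad

end Pool.Agent.H976R3.Kiss
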