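import Pool.Agent.H976R3.Kiss.Twist4

/-!
# A jammed spherical code which is not infinitesimally jammed
-/

set_option autoImplicit false

namespace Pool.Agent.H976R3.Kiss

section dist

variable {E : Type*} [NormedAddCommGroup E] [InnerProductSpace ℝ E]

theorem dist_sq_unit {a b : E} (ha : ‖a‖ = 1) (hb : ‖b‖ = 1) :
    dist a b ^ 2 = 2 - 2 * inner ℝ a b := by
  rw [dist_eq_norm, @norm_sub_sq_real, ha, hb]; ring

theorem one_le_dist_iff {a b : E} (ha : ‖a‖ = 1) (hb : ‖b‖ = 1) :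
    1 ≤ dist a b ↔ inner ℝ a b ≤ (1 / 2 : ℝ) := by
  have h1 := dist_sq_unit ha hb
  have h2 : 0 ≤ dist a b := dist_nonneg
  constructor
  · intro h
    nlinarith
  · intro h
    by_contra hcon
    push Not at hcon
    nlinarith

theorem dist_eq_one_iff {a b : E} (ha : ‖a‖ = 1) (hb : ‖b‖ = 1) :
    dist a b = 1 ↔ inner ℝ a b = (1 / 2 : ℝ) := by
  have h1 := dist_sq_unit ha hb
  have h2 : 0 ≤ dist a b := dist_nonneg
  constructor
  · intro h
    rw [h] at h1
    linarith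
  · intro h
    rw [h] at h1
    have h3 : dist a b ^ 2 = 1 := by linarith
    have h4 : (dist a b - 1) * (dist a b + 1) = 0 := by linarith
    rcases mul_eq_zero.mp h4 with h5 | h5 <;> linarith

end dist

theorem final {n : ℕ} (C : Submodule (ZMod 2) (Fin n → ZMod 2)) (g : Fin n → ZMod 2)
    (p1 p2 : Fin n) (hp : p1 ≠ p2) (hC : RigC C) (hS : Str C) (h3 : 3 ≤ n)
    (hmin : ∀ x ∈ C, x ≠ 0 → n ≤ 4 * wt x) (hming : ∀ x ∈ C, n ≤ 4 * wt (x + g))
    (h4 : ∀ x ∈ C, 4 * wt (x + g) = n → (x + g) p1 = (x + g) p2)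
    (hsplit : ∀ i j, i ≠ j → ¬ ((i = p1 ∧ j = p2) ∨ (i = p2 ∧ j = p1)) →
      ∃ x ∈ C, 4 * wt (x + g) = n ∧ (x + g) i ≠ (x + g) j)
    (hboth : ∃ x ∈ C, 4 * wt (x + g) = n ∧ (x + g) p1 ≠ 0 ∧ (x + g) p2 ≠ 0) :
    ∃ (N : ℕ) (x : Fin N → EuclideanSpace ℝ (Fin n)) (d : ℝ),
      Function.Injective x ∧
      (∀ i, ‖x i‖ = 1) ∧
      0 < d ∧
      (∀ i j, i ≠ j → d ≤ dist (x i) (x j)) ∧
      (∃ i j, i ≠ j ∧ dist (x i) (x j) = d) ∧
      Submodule.span ℝ (Set.range x) = ⊤ ∧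
      (∃ ε : ℝ, 0 < ε ∧
        ∀ y : Fin N → EuclideanSpace ℝ (Fin n),
          (∀ i, ‖y i‖ = 1) →
          (∀ i, dist (y i) (x i) < ε) →
          (∀ i j, i ≠ j → d ≤ dist (y i) (y j)) →
          ∃ g : EuclideanSpace ℝ (Fin n) ≃ₗᵢ[ℝ] EuclideanSpace ℝ (Fin n),
            ∀ i, y i = g (x i)) ∧
      ¬ (∀ v : Fin N → EuclideanSpace ℝ (Fin n),
          (∀ i, inner ℝ (x i) (v i) = 0) →
          (∀ i j, i ≠ j → dist (x i) (x j) = d →
            0 ≤ inner ℝ (x i - x j) (v i - v j)) →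
          ∃ A : EuclideanSpace ℝ (Fin n) →ₗ[ℝ] EuclideanSpace ℝ (Fin n),
            (∀ u w, inner ℝ (A u) w = - inner ℝ u (A w)) ∧
            ∀ i, v i = A (x i)) := by
  classical
  have hne : Nonempty (Fin n) := ⟨p1⟩
  have hFC : Fintype C := Fintype.ofFinite C
  have hcard : Fintype.card (Fin n) = n := Fintype.card_fin n
  have hn : (0 : ℝ) < (n : ℝ) := by
    have : 0 < n := by omega
    exact_mod_cast this
  have h3' : 3 ≤ Fintype.card (Fin n) := by rw [hcard]; exact h3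
  set f : Fin (Fintype.card (C × ZMod 2)) ≃ C × ZMod 2 := (Fintype.equivFin (C × ZMod 2)).symm
    with hf
  have hwt : ∀ τ : C × ZMod 2, τ ≠ 0 → n ≤ 4 * wt (wd C g τ) := by
    rintro ⟨c, b⟩ hτ
    rcases zmod2_cases b with rfl | rfl
    · have h1 : wd C g (c, 0) = (c : Fin n → ZMod 2) := by simp [wd]
      rw [h1]
      refine hmin _ c.2 fun h => hτ ?_
      have : c = 0 := Subtype.ext h
      rw [this]; rfl
    · have h1 : wd C g (c, 1) = (c : Fin n → ZMod 2) + g := by simp [wd]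
      rw [h1]
      exact hming _ c.2
  have hadd : ∀ i j : C × ZMod 2, i ≠ j → i + j ≠ 0 := by
    intro i j hij h
    apply hij
    have := idx_add_add C i j
    rw [h, zero_add] at this
    exact this.symm
  have hip : ∀ i j : C × ZMod 2, i ≠ j → inner ℝ (cf C g i) (cf C g j) ≤ (1 / 2 : ℝ) := by
    intro i j hij
    rw [inner_cf_cf, hcard, div_le_iff₀ hn]
    have h1 : (n : ℝ) ≤ 4 * wt (wd C g (i + j)) := by exact_mod_cast hwt _ (hadd i j hij)
    linarith
  have hnorm : ∀ i, ‖cf C g i‖ = 1 := norm_cf C g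
  refine ⟨Fintype.card (C × ZMod 2), fun i => cf C g (f i), 1, ?_, ?_, one_pos, ?_, ?_, ?_, ?_, ?_⟩
  · intro i j hij
    by_contra hne'
    have h1 := hip (f i) (f j) (fun h => hne' (f.injective h))
    simp only at hij
    rw [hij, real_inner_self_eq_norm_sq, hnorm] at h1
    norm_num at h1
  · intro i
    exact hnorm _
  · intro i j hij
    rw [one_le_dist_iff (hnorm _) (hnorm _)]
    exact hip _ _ fun h => hij (f.injective h)
  · obtain ⟨x, hx, hxw, -, -⟩ := hboth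
    refine ⟨f.symm 0, f.symm (⟨x, hx⟩, 1), ?_, ?_⟩
    · intro h
      have h1 := congrArg Prod.snd (f.symm.injective h)
      exact zero_ne_one h1
    · simp only [Equiv.apply_symm_apply]
      rw [dist_eq_one_iff (hnorm _) (hnorm _), inner_cf_iff, zero_add, hcard]
      have h1 : wd C g ((⟨x, hx⟩, 1) : C × ZMod 2) = x + g := by simp [wd]
      rw [h1]
      exact hxw
  · have h1 : Set.range (fun i => cf C g (f i)) = Set.range (cf C g) :=
      f.surjective.range_comp (cf C g)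
    rw [h1]
    exact span_cf C g hC h3'
  · obtain ⟨ε, hε, hiso⟩ := isolated_cf' C g hC hS h3' p1 p2 hp
      (fun i j hij h => by rw [hcard]; exact hsplit i j hij h) (by rw [hcard]; exact hboth)
    refine ⟨ε, hε, fun y hy1 hy2 hy3 => ?_⟩
    obtain ⟨e, he⟩ := hiso (fun i => y (f.symm i)) (fun i => hy1 _) (fun i => by
      have := hy2 (f.symm i)
      rw [dist_eq_norm] at this
      simpa using this) (fun i j hij => by
      rw [← one_le_dist_iff (hy1 _) (hy1 _)]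
      exact hy3 _ _ fun h => hij (f.symm.injective h))
    refine ⟨e, fun i => ?_⟩
    have := he (f i)
    simpa using this
  · intro H
    obtain ⟨A, -, hA⟩ := H (fun i => tw C g p1 p2 (f i)) (fun i => tw_tangent C g p1 p2 (f i))
      (fun i j hij hd => by
        rw [dist_eq_one_iff (hnorm _) (hnorm _)] at hd
        have h1 := tw_flex C g p1 p2 (fun x hx hw => h4 x hx (hw.trans hcard))
          (f i) (f j) hd
        rw [inner_sub_left, inner_sub_right, inner_sub_right, tw_tangent, tw_tangent]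
        linarith)
    refine tw_not_linear C g hC h3' p1 p2 hp A fun j => ?_
    have := hA (f.symm j)
    simpa using this

theorem exists_jammed_not_inf : ∃ (n N : ℕ) (x : Fin N → EuclideanSpace ℝ (Fin n)) (d : ℝ),
      Function.Injective x ∧
      (∀ i, ‖x i‖ = 1) ∧
      0 < d ∧
      (∀ i j, i ≠ j → d ≤ dist (x i) (x j)) ∧
      (∃ i j, i ≠ j ∧ dist (x i) (x j) = d) ∧
      Submodule.span ℝ (Set.range x) = ⊤ ∧
      (∃ ε : ℝ, 0 < ε ∧
        ∀ y : Fin N → EuclideanSpace ℝ (Fin n),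
          (∀ i, ‖y i‖ = 1) →
          (∀ i, dist (y i) (x i) < ε) →
          (∀ i j, i ≠ j → d ≤ dist (y i) (y j)) →
          ∃ g : EuclideanSpace ℝ (Fin n) ≃ₗᵢ[ℝ] EuclideanSpace ℝ (Fin n),
            ∀ i, y i = g (x i)) ∧
      ¬ (∀ v : Fin N → EuclideanSpace ℝ (Fin n),
          (∀ i, inner ℝ (x i) (v i) = 0) →
          (∀ i j, i ≠ j → dist (x i) (x j) = d →
            0 ≤ inner ℝ (x i - x j) (v i - v j)) →
          ∃ A : EuclideanSpace ℝ (Fin n) →ₗ[ℝ] EuclideanSpace ℝ (Fin n),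
            (∀ u w, inner ℝ (A u) w = - inner ℝ u (A w)) ∧
            ∀ i, v i = A (x i)) := by
  classical
  obtain ⟨C, ⟨hD, hmin, hming, hspl⟩, hrig, h1, hstr⟩ := exists_code
  set e : Fin (Fintype.card (Pt (37 + 3))) ≃ Pt (37 + 3) := (Fintype.equivFin (Pt (37 + 3))).symm
    with he
  have hcard : Fintype.card (Pt (37 + 3)) = 2 ^ (37 + 3) := card_pt _
  have hcomp : ∀ d : Pt (37 + 3) → ZMod 2, d ∘ e + gw 37 ∘ e = (d + gw 37) ∘ e := fun d => rfl
  refine ⟨Fintype.card (Pt (37 + 3)), final (pull e C) (gw 37 ∘ e) (e.symm 0) (e.symm (e1 37))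
    ?_ (hrig.pull e) (hstr.pull e) ?_ ?_ ?_ ?_ ?_ ?_⟩
  · intro h
    have h2 := e.symm.injective h
    have h4 := congrFun h2 0
    simp [e1] at h4
  · rw [hcard]; norm_num
  · intro x hx hx0
    obtain ⟨d, hd, rfl⟩ := (mem_pull _ _ _).mp hx
    rw [wt_comp, hcard]
    refine hmin d hd fun h => hx0 ?_
    rw [h]; rfl
  · intro x hx
    obtain ⟨d, hd, rfl⟩ := (mem_pull _ _ _).mp hx
    rw [hcomp, wt_comp, hcard]
    exact hming d hd
  · intro x hx hw
    obtain ⟨d, hd, rfl⟩ := (mem_pull _ _ _).mp hx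
    rw [hcomp, wt_comp, hcard] at hw
    have := hspl d hd hw
    rw [hcomp]
    simpa using this
  · intro i j hij hnot
    obtain ⟨v, hv, hv4, hvne⟩ := exists_split (k := 37) (e i) (e j)
      (fun h => hij (e.injective h)) (by
        rintro (⟨h5, h6⟩ | ⟨h5, h6⟩)
        · exact hnot (Or.inl ⟨by rw [← h5]; simp, by rw [← h6]; simp⟩)
        · exact hnot (Or.inr ⟨by rw [← h5]; simp, by rw [← h6]; simp⟩))
    refine ⟨v ∘ e, (mem_pull _ _ _).mpr ⟨v, hD hv, rfl⟩, ?_, ?_⟩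
    · rw [hcomp, wt_comp, hcard]; exact hv4
    · rw [hcomp]; exact hvne
  · obtain ⟨v, hv, hv4, hv0, hv1⟩ := exists_both (k := 37)
    refine ⟨v ∘ e, (mem_pull _ _ _).mpr ⟨v, hD hv, rfl⟩, ?_, ?_, ?_⟩
    · rw [hcomp, wt_comp, hcard]; exact hv4
    · rw [hcomp]
      simpa using hv0
    · rw [hcomp]
      simpa using hv1

end Pool.Agent.H976R3.Kiss
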